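import Pool.Agent.W722.PO.Stm2

set_option autoImplicit false

namespace Pool.Agent.W722.PO

namespace ABS2x


theorem pm_append (l : List ℕ) (a : ℕ) (r : List ℕ) :
    pm (l ++ a :: r) = pm (l ++ [a]) + pm (a :: r) := by
  induction l with
  | nil => simp [pm]
  | cons b l ih =>
    cases l with
    | nil => simp [pm]
    | cons c l =>
      simp only [List.cons_append, pm] at ih ⊢
      rw [ih, Multiset.cons_add]

theorem pm_reverse (l : List ℕ) : pm l.reverse = pm l := by
  induction l with
  | nil => rfl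
  | cons a l ih =>
    cases l with
    | nil => rfl
    | cons b t =>
      have h : (a :: b :: t).reverse = t.reverse ++ b :: [a] := by simp
      rw [h, pm_append]
      have h2 : t.reverse ++ [b] = (b :: t).reverse := by simp
      rw [h2, ih]
      show pm (b :: t) + (s(b, a) ::ₘ (0 : Multiset (Sym2 ℕ))) = s(a, b) ::ₘ pm (b :: t)
      rw [Sym2.eq_swap (a := b) (b := a), Multiset.add_cons, add_zero]

theorem cm_rot (l : List ℕ) (v : ℕ) (t : List ℕ) : cm (l ++ v :: t) = cm (v :: (t ++ l)) := by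
  cases l with
  | nil => simp
  | cons a l =>
    have h1 : cm (a :: l ++ v :: t) = pm ((a :: l) ++ v :: (t ++ [a])) := by
      simp [cm]
    have h2 : cm (v :: (t ++ a :: l)) = pm ((v :: t) ++ a :: (l ++ [v])) := by
      simp [cm]
    rw [h1, h2, pm_append, pm_append (v :: t)]
    have h3 : (a :: l) ++ [v] = a :: (l ++ [v]) := by simp
    have h4 : (v :: t) ++ [a] = v :: (t ++ [a]) := by simp
    rw [h3, h4, add_comm]

theorem cm_rev (v : ℕ) (t : List ℕ) : cm (v :: t.reverse) = cm (v :: t) := by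
  show pm (v :: (t.reverse ++ [v])) = pm (v :: (t ++ [v]))
  rw [← pm_reverse (v :: (t ++ [v]))]
  congr 1
  simp

theorem par_add (S T : Multiset (Sym2 ℕ)) : par (S + T) = par S + par T := by
  funext e
  simp [par, Multiset.count_add]

theorem split_last (p : ℕ → Prop) (l : List ℕ) (h : ∃ x ∈ l, p x) :
    ∃ l1 x l2, l = l1 ++ x :: l2 ∧ p x ∧ ∀ y ∈ l2, ¬ p y := by
  induction l with
  | nil => simp at h
  | cons a l ih =>
    by_cases h1 : ∃ x ∈ l, p x
    · obtain ⟨l1, x, l2, h2, h3, h4⟩ := ih h1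
      exact ⟨a :: l1, x, l2, by rw [h2]; rfl, h3, h4⟩
    · refine ⟨[], a, l, rfl, ?_, fun y hy hp => h1 ⟨y, hy, hp⟩⟩
      obtain ⟨x, hx, hp⟩ := h
      rcases List.mem_cons.1 hx with rfl | hx
      · exact hp
      · exact absurd ⟨x, hx, hp⟩ h1

theorem case2 (B0 T t' : List ℕ) (v a : ℕ) (hB : (B0 ++ v :: T).Nodup)
    (hC : (v :: a :: t').Nodup) (hT : ∀ x ∈ T, x ∉ v :: a :: t') (ha : a ∉ B0 ++ v :: T) :
    ∃ P B' : List ℕ, IsP P ∧ IsP B' ∧ (∀ x ∈ P, x ∈ B0 ++ v :: T ∨ x ∈ v :: a :: t') ∧
      (∀ x ∈ B', x ∈ B0 ++ v :: T ∨ x ∈ v :: a :: t') ∧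
      B'.length ≤ (B0 ++ v :: T).length + 2 ∧
      par (cm (v :: a :: t')) + par (pm (B0 ++ v :: T)) = par (pm P) + par (pm B') := by
  have hC' := List.nodup_cons.1 hC
  have hBT := List.nodup_append.1 hB
  refine ⟨(a :: t') ++ v :: T, B0 ++ [v, a], ⟨by simp, ?_⟩, ⟨by simp, ?_⟩, ?_, ?_, ?_, ?_⟩
  · rw [List.nodup_append]
    refine ⟨hC'.2, hBT.2.1, ?_⟩
    intro x hx y hy hxy
    subst hxy
    rcases List.mem_cons.1 hy with rfl | hy
    · exact hC'.1 hx
    · exact hT x hy (List.mem_cons_of_mem _ hx)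
  · rw [List.nodup_append]
    refine ⟨hBT.1, ?_, ?_⟩
    · rw [List.nodup_cons]
      refine ⟨?_, by simp⟩
      intro h
      have h1 : v = a := by simpa using h
      exact hC'.1 (by rw [h1]; simp)
    · intro x hx y hy hxy
      subst hxy
      rcases List.mem_cons.1 hy with rfl | hy
      · exact hBT.2.2 x hx x (by simp) rfl
      · have h1 : x = a := by simpa using hy
        exact ha (List.mem_append_left _ (h1 ▸ hx))
  · intro x hx
    rcases List.mem_append.1 hx with h | h
    · exact Or.inr (List.mem_cons_of_mem _ h)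
    · exact Or.inl (List.mem_append_right _ h)
  · intro x hx
    rcases List.mem_append.1 hx with h | h
    · exact Or.inl (List.mem_append_left _ h)
    · right
      rcases List.mem_cons.1 h with rfl | h
      · simp
      · have h1 : x = a := by simpa using h
        rw [h1]; simp
  · simp only [List.length_append, List.length_cons, List.length_nil]
    omega
  · rw [← par_add, ← par_add]
    congr 1
    have e1 : cm (v :: a :: t') = pm [v, a] + pm ((a :: t') ++ [v]) := by
      show pm (v :: (a :: t' ++ [v])) = _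
      show s(v, a) ::ₘ pm (a :: t' ++ [v]) = (s(v, a) ::ₘ (0 : Multiset (Sym2 ℕ))) + _
      rw [Multiset.cons_add, zero_add]
    have e2 : pm (B0 ++ [v, a]) = pm (B0 ++ [v]) + pm [v, a] := pm_append B0 v [a]
    rw [e1, e2, pm_append B0 v T, pm_append (a :: t') v T]
    ac_rfl


theorem pm_split (l : List ℕ) (u w : ℕ) (h : s(u, w) ∈ pm l) :
    ∃ x y l1 l2, ((x = u ∧ y = w) ∨ (x = w ∧ y = u)) ∧ l = l1 ++ x :: y :: l2 := by
  induction l with
  | nil => simp [pm] at h
  | cons a l ih =>
    cases l with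
    | nil => simp [pm] at h
    | cons b t =>
      have h' : s(u, w) ∈ s(a, b) ::ₘ pm (b :: t) := h
      rcases Multiset.mem_cons.1 h' with h1 | h1
      · rcases Sym2.eq_iff.1 h1 with ⟨h2, h3⟩ | ⟨h2, h3⟩
        · exact ⟨a, b, [], t, Or.inl ⟨h2.symm, h3.symm⟩, rfl⟩
        · exact ⟨a, b, [], t, Or.inr ⟨h3.symm, h2.symm⟩, rfl⟩
      · obtain ⟨x, y, l1, l2, h2, h3⟩ := ih h1
        exact ⟨x, y, a :: l1, l2, h2, by rw [h3]; rfl⟩

theorem edge_rot (C : List ℕ) (u w : ℕ) (hlen : 3 ≤ C.length) (h : s(u, w) ∈ cm C) :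
    ∃ x y t, ((x = u ∧ y = w) ∨ (x = w ∧ y = u)) ∧ (x :: y :: t).Perm C ∧
      cm (x :: y :: t) = cm C := by
  cases C with
  | nil => simp at hlen
  | cons a t =>
    have h' : s(u, w) ∈ pm (a :: (t ++ [a])) := h
    obtain ⟨x, y, l1, l2, hxy, hl⟩ := pm_split _ u w h'
    have hl' : (a :: t) ++ [a] = l1 ++ x :: y :: l2 := hl
    rcases List.eq_nil_or_concat l2 with rfl | ⟨l3, c, rfl⟩
    · have h1 : (a :: t) ++ [a] = (l1 ++ [x]) ++ [y] := by rw [hl']; simp
      obtain ⟨h2, h3⟩ := List.append_inj' h1 rfl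
      have hy : a = y := by simpa using h3
      cases l1 with
      | nil =>
        rw [h2] at hlen
        simp at hlen
      | cons d l4 =>
        have h4 : a = d := (List.cons.inj h2).1
        have h5 : t = l4 ++ [x] := (List.cons.inj h2).2
        subst hy
        subst h4
        refine ⟨x, a, l4, hxy, ?_, ?_⟩
        · rw [h5]
          exact (List.perm_append_comm (l₁ := [x]) (l₂ := a :: l4))
        · rw [h5]
          have := cm_rot (a :: l4) x []
          simpa using this.symm
    · have h1 : (a :: t) ++ [a] = (l1 ++ x :: y :: l3) ++ [c] := by rw [hl']; simp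
      obtain ⟨h2, h3⟩ := List.append_inj' h1 rfl
      refine ⟨x, y, l3 ++ l1, hxy, ?_, ?_⟩
      · rw [h2]
        have := List.perm_append_comm (l₁ := l1) (l₂ := x :: y :: l3)
        exact (this.trans (by simp)).symm
      · rw [h2, cm_rot]
        rfl

theorem case3 (B0 t : List ℕ) (b u w : ℕ) (hBn : (B0 ++ [b]).Nodup) (hCn : (u :: w :: t).Nodup)
    (hb : b ∉ u :: w :: t) (huB : u ∉ B0 ++ [b]) (hwB : w ∉ B0 ++ [b]) :
    ∃ P B' : List ℕ, IsP P ∧ IsP B' ∧ (∀ x ∈ P, x ∈ B0 ++ [b] ∨ x ∈ u :: w :: t) ∧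
      (∀ x ∈ B', x ∈ B0 ++ [b] ∨ x ∈ u :: w :: t) ∧
      B'.length ≤ (B0 ++ [b]).length + 2 ∧
      par (cm (u :: w :: t)) + par (pm (B0 ++ [b])) = par (pm P) + par (pm B') := by
  have hu := List.nodup_cons.1 hCn
  refine ⟨(w :: t) ++ [u, b], (B0 ++ [b]) ++ [u, w], ⟨by simp, ?_⟩, ⟨by simp, ?_⟩, ?_, ?_,
      ?_, ?_⟩
  · rw [List.nodup_append]
    refine ⟨hu.2, ?_, ?_⟩
    · rw [List.nodup_cons]
      refine ⟨?_, by simp⟩
      intro h
      have h1 : u = b := by simpa using h
      exact hb (by rw [← h1]; simp)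
    · intro x hx y hy hxy
      subst hxy
      rcases List.mem_cons.1 hy with rfl | hy
      · exact hu.1 hx
      · have h1 : x = b := by simpa using hy
        exact hb (h1 ▸ List.mem_cons_of_mem _ hx)
  · rw [List.nodup_append]
    refine ⟨hBn, ?_, ?_⟩
    · rw [List.nodup_cons]
      refine ⟨?_, by simp⟩
      intro h
      have h1 : u = w := by simpa using h
      exact hu.1 (by rw [h1]; simp)
    · intro x hx y hy hxy
      subst hxy
      rcases List.mem_cons.1 hy with rfl | hy
      · exact huB hx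
      · have h1 : x = w := by simpa using hy
        exact hwB (h1 ▸ hx)
  · intro x hx
    rcases List.mem_append.1 hx with h | h
    · exact Or.inr (List.mem_cons_of_mem _ h)
    · rcases List.mem_cons.1 h with rfl | h
      · exact Or.inr (by simp)
      · have h1 : x = b := by simpa using h
        exact Or.inl (by rw [h1]; simp)
  · intro x hx
    rcases List.mem_append.1 hx with h | h
    · exact Or.inl h
    · rcases List.mem_cons.1 h with rfl | h
      · exact Or.inr (by simp)
      · have h1 : x = w := by simpa using h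
        exact Or.inr (by rw [h1]; simp)
  · simp
  · have e1 : cm (u :: w :: t) = pm [u, w] + pm ((w :: t) ++ [u]) := by
      show s(u, w) ::ₘ pm (w :: t ++ [u]) = (s(u, w) ::ₘ (0 : Multiset (Sym2 ℕ))) + _
      rw [Multiset.cons_add, zero_add]
    have e2 : pm ((w :: t) ++ [u, b]) = pm ((w :: t) ++ [u]) + pm [u, b] :=
      pm_append (w :: t) u [b]
    have e3 : pm ((B0 ++ [b]) ++ [u, w]) = pm (B0 ++ [b]) + (pm [b, u] + pm [u, w]) := by
      have h1 : (B0 ++ [b]) ++ [u, w] = B0 ++ b :: [u, w] := by simp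
      rw [h1, pm_append]
      congr 1
    have e4 : pm [b, u] = pm [u, b] := by
      show s(b, u) ::ₘ (0 : Multiset (Sym2 ℕ)) = s(u, b) ::ₘ 0
      rw [Sym2.eq_swap]
    rw [e1, e2, e3, e4]
    simp only [par_add]
    have h2 : par (pm [u, b]) + par (pm [u, b]) = 0 := by
      funext e
      have h3 : ∀ x : ZMod 2, x + x = 0 := by decide
      exact h3 _
    linear_combination -h2

end ABS2x

open ABS2x in
theorem ABS2_holds : ABS2 := by
  intro B C hB hC
  obtain ⟨hB0, hBn⟩ := hB
  obtain ⟨hC3, hCn⟩ := hC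
  obtain ⟨B0, b, rfl⟩ : ∃ B0 b, B = B0 ++ [b] :=
    ⟨B.dropLast, B.getLast hB0, (List.dropLast_append_getLast hB0).symm⟩
  by_cases hbC : b ∈ C
  · obtain ⟨l1, l2, rfl⟩ := List.append_of_mem hbC
    have hrot := cm_rot l1 b l2
    have hperm : (l1 ++ b :: l2).Perm (b :: (l2 ++ l1)) := by
      refine List.perm_append_comm.trans ?_
      simp
    have hn : (b :: (l2 ++ l1)).Nodup := hperm.nodup_iff.1 hCn
    have hlen : 3 ≤ (b :: (l2 ++ l1)).length := by rw [← hperm.length_eq]; exact hC3
    have hmem : ∀ x, x ∈ b :: (l2 ++ l1) ↔ x ∈ l1 ++ b :: l2 := fun x => hperm.mem_iff.symm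
    rw [hrot]
    generalize ht : l2 ++ l1 = t at *
    obtain ⟨a, t', rfl⟩ : ∃ a t', t = a :: t' := by
      cases t with
      | nil => simp at hlen
      | cons a t' => exact ⟨a, t', rfl⟩
    have hT' : ∀ x ∈ ([] : List ℕ), x ∉ b :: a :: t' := fun x hx _ => by simp at hx
    by_cases ha : a ∈ B0 ++ b :: []
    · obtain ⟨a2, t2, ht2⟩ : ∃ a2 t2, (a :: t').reverse = a2 :: t2 := by
        cases h : (a :: t').reverse with
        | nil => simp at h
        | cons a2 t2 => exact ⟨a2, t2, rfl⟩
      have ht2' : a :: t' = t2.reverse ++ [a2] := by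
        rw [← List.reverse_reverse (a :: t'), ht2]; simp
      by_cases ha2 : a2 ∈ B0 ++ b :: []
      · left
        refine ⟨b, a, a2, by simp, ?_, ha, ha2, ?_, ?_⟩
        · intro h
          subst h
          have h1 : (a :: t').Nodup := (List.nodup_cons.1 hn).2
          cases ht2c : t2.reverse with
          | nil =>
            rw [ht2c] at ht2'
            have h3 : t' = [] := by simpa using ht2'
            rw [h3] at hlen
            simp at hlen
          | cons b t3 =>
            rw [ht2', ht2c] at h1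
            rw [ht2c] at ht2'
            have h4 : a = b := (List.cons.inj ht2').1
            rw [← h4] at h1
            simp at h1
        · rw [hrot]
          show s(b, a) ∈ s(b, a) ::ₘ pm (a :: t' ++ [b])
          exact Multiset.mem_cons_self _ _
        · rw [hrot]
          show s(b, a2) ∈ pm (b :: (a :: t' ++ [b]))
          rw [ht2']
          have h1 : b :: (t2.reverse ++ [a2] ++ [b]) = (b :: t2.reverse) ++ a2 :: [b] := by simp
          rw [h1, pm_append]
          apply Multiset.mem_add.2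
          right
          show s(b, a2) ∈ s(a2, b) ::ₘ (0 : Multiset (Sym2 ℕ))
          rw [Sym2.eq_swap]
          exact Multiset.mem_cons_self _ _
      · right; right
        have hn2 : (b :: a2 :: t2).Nodup := by
          rw [← ht2]
          rw [List.nodup_cons] at hn ⊢
          exact ⟨fun h => hn.1 (List.mem_reverse.1 h), List.nodup_reverse.2 hn.2⟩
        have hm2 : ∀ x, x ∈ b :: a2 :: t2 ↔ x ∈ b :: a :: t' := by
          intro x
          rw [← ht2, List.mem_cons, List.mem_cons (l := a :: t'), List.mem_reverse]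
        obtain ⟨P, B', h1, h2, h3, h4, h5, h6⟩ := case2 B0 [] t2 b a2 hBn hn2
          (fun x hx h => hT' x hx ((hm2 x).1 h)) ha2
        refine ⟨P, B', h1, h2, fun x hx => ?_, fun x hx => ?_, h5, ?_⟩
        · rcases h3 x hx with h | h
          · exact Or.inl h
          · exact Or.inr ((hmem x).1 ((hm2 x).1 h))
        · rcases h4 x hx with h | h
          · exact Or.inl h
          · exact Or.inr ((hmem x).1 ((hm2 x).1 h))
        · rw [← ht2, cm_rev] at h6
          exact h6
    · right; right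
      obtain ⟨P, B', h1, h2, h3, h4, h5, h6⟩ := case2 B0 [] t' b a hBn hn hT' ha
      refine ⟨P, B', h1, h2, fun x hx => ?_, fun x hx => ?_, h5, h6⟩
      · rcases h3 x hx with h | h
        · exact Or.inl h
        · exact Or.inr ((hmem x).1 h)
      · rcases h4 x hx with h | h
        · exact Or.inl h
        · exact Or.inr ((hmem x).1 h)
  · by_cases hcov : Cov (B0 ++ [b]) C
    · exact Or.inr (Or.inl hcov)
    · right; right
      unfold Cov at hcov
      push Not at hcov
      obtain ⟨u, w, huw, huB, hwB⟩ := hcov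
      obtain ⟨x, y, t, hxy, hperm, hcm⟩ := edge_rot C u w hC3 huw
      have hxB : x ∉ B0 ++ [b] := by
        rcases hxy with ⟨rfl, rfl⟩ | ⟨rfl, rfl⟩ <;> assumption
      have hyB : y ∉ B0 ++ [b] := by
        rcases hxy with ⟨rfl, rfl⟩ | ⟨rfl, rfl⟩ <;> assumption
      obtain ⟨P, B', h1, h2, h3, h4, h5, h6⟩ := case3 B0 t b x y hBn (hperm.nodup_iff.2 hCn)
        (fun h => hbC (hperm.mem_iff.1 h)) hxB hyB
      refine ⟨P, B', h1, h2, fun z hz => ?_, fun z hz => ?_, h5, ?_⟩
      · rcases h3 z hz with h | h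
        · exact Or.inl h
        · exact Or.inr (hperm.mem_iff.1 h)
      · rcases h4 z hz with h | h
        · exact Or.inl h
        · exact Or.inr (hperm.mem_iff.1 h)
      · rw [hcm] at h6
        exact h6

end Pool.Agent.W722.PO
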