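import Pool.Agent.W722.PO.Stm2

set_option autoImplicit false

/-! Part ALL2: one scale. -/

namespace Pool.Agent.W722.PO

namespace ALL2x

lemma csum_le {Cs' Cs : List (List ℕ)} (h : Cs'.Sublist Cs) : csum Cs' ≤ csum Cs := by
  unfold csum
  induction h with
  | slnil => exact le_rfl
  | cons a _ ih =>
    rw [List.map_cons, List.sum_cons]
    exact ih.trans (Multiset.le_add_left _ _)
  | cons_cons a _ ih =>
    rw [List.map_cons, List.sum_cons, List.map_cons, List.sum_cons]
    exact Multiset.add_le_add_iff_left.2 ih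

lemma good_sub {M : ℕ} {Cs' Cs : List (List ℕ)} (h : Cs'.Sublist Cs) (hG : Good M Cs) :
    Good M Cs' := by
  obtain ⟨h1, h2, h3, h4⟩ := hG
  exact ⟨fun C hC => h1 C (h.subset hC), Multiset.nodup_of_le (csum_le h) h2, h3.sublist h,
    fun C hC => h4 C (h.subset hC)⟩

lemma par_add (A B : Multiset (Sym2 ℕ)) : par (A + B) = par A + par B := by
  funext e
  simp only [par, Pi.add_apply, Multiset.count_add, Nat.cast_add]

lemma psum_append (A B : List (List ℕ)) : psum (A ++ B) = psum A + psum B := by
  unfold psum
  rw [List.map_append, List.sum_append]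

end ALL2x

theorem ALL2_holds : PHASE2 → ALL2 := by
  intro hP t
  induction t with
  | zero =>
    intro M Cs hG hlt
    have h0 : Cs.length = 0 := by
      simp only [pow_zero, one_mul] at hlt
      omega
    have h1 : Cs = [] := List.length_eq_zero_iff.1 h0
    subst h1
    exact ⟨[], by simp, by simp, by simp, rfl⟩
  | succ t ih =>
    intro M Cs hG hlt
    by_cases hne : Cs = []
    · subst hne
      exact ⟨[], by simp, by simp, by simp, rfl⟩
    · obtain ⟨Ps1, Cs', s, hp, hsub, hl1, hl2, hv, hpar, h15⟩ := hP M Cs hG hne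
      have hlt' : 14 ^ t * Cs'.length < 15 ^ t := by
        have h1 : 15 * Cs'.length ≤ 14 * Cs.length := by omega
        have h2 : 14 ^ t * (15 * Cs'.length) ≤ 14 ^ t * (14 * Cs.length) :=
          Nat.mul_le_mul_left _ h1
        have h3 : 14 ^ (t + 1) * Cs.length = 14 ^ t * (14 * Cs.length) := by ring
        have h4 : (15 : ℕ) ^ (t + 1) = 15 * 15 ^ t := by ring
        have h5 : 14 ^ t * (15 * Cs'.length) = 15 * (14 ^ t * Cs'.length) := by ring
        rw [h3, h4] at hlt
        rw [h5] at h2
        omega
      obtain ⟨Ps2, hp2, hl3, hv2, hpar2⟩ := ih M Cs' (ALL2x.good_sub hsub hG) hlt'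
      refine ⟨Ps1 ++ Ps2, ?_, ?_, ?_, ?_⟩
      · intro p hpm
        rcases List.mem_append.1 hpm with h | h
        · exact hp p h
        · exact hp2 p h
      · rw [List.length_append]
        omega
      · intro p hpm v hvp
        rcases List.mem_append.1 hpm with h | h
        · exact hv p h v hvp
        · obtain ⟨c, hc, hvc⟩ := hv2 p h v hvp
          exact ⟨c, hsub.subset hc, hvc⟩
      · rw [hpar, hpar2, ALL2x.psum_append, ALL2x.par_add]

end Pool.Agent.W722.PO
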