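import Pool.Agent.W722.PO.Stm

set_option autoImplicit false

/-! BASE (perfect matchings) and the assembly of LOV. -/

namespace Pool.Agent.W722.PO

namespace BASEx

lemma two_card (E : Finset (Sym2 ℕ)) (hE : NoLoop E) (h : ∀ v ∈ supp E, deg E v = 1) :
    2 * E.card = (supp E).card := by
  have h1 : (supp E).card = ∑ v ∈ supp E, deg E v := by
    rw [Finset.sum_congr rfl h, Finset.sum_const, smul_eq_mul, mul_one]
  have h2 : ∑ v ∈ supp E, deg E v = ∑ e ∈ E, ((supp E).filter (fun v => v ∈ e)).card := by
    unfold deg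
    exact Finset.sum_card_bipartiteAbove_eq_sum_card_bipartiteBelow (fun v (e : Sym2 ℕ) => v ∈ e)
  have h3 : ∀ e ∈ E, ((supp E).filter (fun v => v ∈ e)).card = 2 := by
    intro e he
    have : (supp E).filter (fun v => v ∈ e) = e.toFinset := by
      ext v
      rw [Finset.mem_filter, Sym2.mem_toFinset]
      refine ⟨fun h => h.2, fun h => ⟨?_, h⟩⟩
      exact Finset.mem_biUnion.2 ⟨e, he, Sym2.mem_toFinset.2 h⟩
    rw [this]
    exact Sym2.card_toFinset_of_not_isDiag e (hE e he)
  rw [h1, h2, Finset.sum_congr rfl h3, Finset.sum_const, smul_eq_mul, mul_comm]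

end BASEx

theorem BASE_holds : BASE := by
  intro E hE h
  have hc := BASEx.two_card E hE h
  have hrep : ∀ e : Sym2 ℕ, ∃ p : ℕ × ℕ, e = s(p.1, p.2) := by
    intro e
    induction e using Sym2.ind with
    | _ a b => exact ⟨(a, b), rfl⟩
  choose f hf using hrep
  refine ⟨E.toList.map (fun e => [(f e).1, (f e).2]), [], ⟨?_, ?_, ?_⟩, ?_⟩
  · intro p hp
    rw [List.mem_map] at hp
    obtain ⟨e, he, rfl⟩ := hp
    have hne : (f e).1 ≠ (f e).2 := by
      intro heq
      apply hE e (Finset.mem_toList.1 he)
      rw [hf e, heq]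
      exact Sym2.mk_isDiag_iff.2 rfl
    refine ⟨by simp, ?_⟩
    simp [hne]
  · intro c hc
    simp at hc
  · have h1 : psum (E.toList.map (fun e => [(f e).1, (f e).2])) = E.val := by
      unfold psum
      rw [List.map_map]
      have h2 : E.toList.map (pm ∘ fun e => [(f e).1, (f e).2]) =
          E.toList.map (fun e => ({e} : Multiset (Sym2 ℕ))) := by
        apply List.map_congr_left
        intro e _
        show s((f e).1, (f e).2) ::ₘ (0 : Multiset (Sym2 ℕ)) = {e}
        rw [← hf e]
        rfl
      rw [h2]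
      have h3 : (E.toList.map (fun e => ({e} : Multiset (Sym2 ℕ)))).sum =
          ((E.toList : Multiset (Sym2 ℕ)).map (fun e => ({e} : Multiset (Sym2 ℕ)))).sum := by
        rw [Multiset.map_coe, Multiset.sum_coe]
      rw [h3, Multiset.sum_map_singleton, Finset.coe_toList]
    rw [h1]
    simp [csum]
  · rw [List.length_map, Finset.length_toList, List.length_nil]
    omega

theorem LOV_holds : S1 → S2 → BASE → MEAS1 → MEAS2 → LOV := by
  intro hS1 hS2 hB hM1 hM2
  have key : ∀ (m : ℕ) (E : Finset (Sym2 ℕ)), mu E = m → NoLoop E → Bd E := by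
    intro m
    induction m using Nat.strong_induction_on with
    | _ m ih =>
    intro E hm hE
    by_cases h1 : ∃ x, (evn E x).Nonempty
    · obtain ⟨x, hx⟩ := h1
      apply hS1 E x hE hx
      refine ih _ ?_ _ rfl ?_
      · rw [← hm]
        exact hM1 E x hE hx
      · intro e he
        exact hE e (Finset.mem_sdiff.1 he).1
    · have hnb : ∀ v ∈ supp E, ∃ x, s(v, x) ∈ E := by
        intro v hv
        obtain ⟨e, he, hve⟩ := Finset.mem_biUnion.1 hv
        rw [Sym2.mem_toFinset] at hve
        obtain ⟨x, rfl⟩ := Sym2.mem_iff_exists.1 hve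
        exact ⟨x, he⟩
      have hodd : ∀ v ∈ supp E, Odd (deg E v) := by
        intro v hv
        obtain ⟨x, hx⟩ := hnb v hv
        rw [← Nat.not_even_iff_odd]
        intro hev
        apply h1
        refine ⟨x, v, ?_⟩
        unfold evn
        rw [Finset.mem_filter]
        exact ⟨hv, by rw [Sym2.eq_swap]; exact hx, hev⟩
      by_cases h2 : ∃ x ∈ supp E, 3 ≤ deg E x
      · obtain ⟨x, hx, h3⟩ := h2
        obtain ⟨y, hy⟩ := hnb x hx
        obtain ⟨z, hz⟩ := Infinite.exists_notMem_finset (supp E)
        have hmm := hM2 E x y z hE hodd hy h3 hz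
        apply hS2 E x y z hE hodd hy h3 hz
        refine ih _ ?_ _ rfl hmm.1
        rw [← hm]
        exact hmm.2
      · apply hB E hE
        intro v hv
        have ho := hodd v hv
        have hlt : ¬ 3 ≤ deg E v := fun h => h2 ⟨v, hv, h⟩
        obtain ⟨k, hk⟩ := ho
        omega
  intro E hE
  exact key (mu E) E rfl hE

end Pool.Agent.W722.PO
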