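import Pool.Agent.W722.PO.Stm

set_option autoImplicit false

namespace Pool.Agent.W722.PO

namespace CHNx

noncomputable def ind (P : Prop) (e : Sym2 ℕ) : Multiset (Sym2 ℕ) := by
  classical exact if P then {e} else 0

lemma ind_true {P : Prop} (h : P) (e : Sym2 ℕ) : ind P e = {e} := by
  unfold ind; exact if_pos h

lemma ind_false {P : Prop} (h : ¬ P) (e : Sym2 ℕ) : ind P e = 0 := by
  unfold ind; exact if_neg h

def val (q : List ℕ × Bool) : Multiset (Sym2 ℕ) := if q.2 = true then cm q.1 else pm q.1

lemma split (L : List (List ℕ × Bool)) (h1 : ∀ q ∈ L, q.2 = false → IsP q.1)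
    (h2 : ∀ q ∈ L, q.2 = true → IsC q.1) :
    ∃ Ps' Cs' : List (List ℕ), (∀ p ∈ Ps', IsP p) ∧ (∀ c ∈ Cs', IsC c) ∧
      Ps'.length + Cs'.length = L.length ∧ psum Ps' + csum Cs' = (L.map val).sum := by
  induction L with
  | nil => exact ⟨[], [], by simp, by simp, by simp, by simp [psum, csum]⟩
  | cons q L ih =>
    obtain ⟨P, C, a1, a2, a3, a4⟩ := ih (fun r hr => h1 r (List.mem_cons_of_mem _ hr))
      (fun r hr => h2 r (List.mem_cons_of_mem _ hr))
    cases hq : q.2 with
    | false =>
      refine ⟨q.1 :: P, C, ?_, a2, ?_, ?_⟩
      · intro p hp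
        rcases List.mem_cons.mp hp with h | h
        · rw [h]; exact h1 q List.mem_cons_self hq
        · exact a1 p h
      · simp only [List.length_cons]; omega
      · have e1 : psum (q.1 :: P) = pm q.1 + psum P := by simp [psum]
        have e2 : val q = pm q.1 := by simp [val, hq]
        rw [List.map_cons, List.sum_cons, ← a4, e1, e2, add_assoc]
    | true =>
      refine ⟨P, q.1 :: C, a1, ?_, ?_, ?_⟩
      · intro p hp
        rcases List.mem_cons.mp hp with h | h
        · rw [h]; exact h2 q List.mem_cons_self hq
        · exact a2 p h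
      · simp only [List.length_cons]; omega
      · have e1 : csum (q.1 :: C) = cm q.1 + csum C := by simp [csum]
        have e2 : val q = cm q.1 := by simp [val, hq]
        rw [List.map_cons, List.sum_cons, ← a4, e1, e2, add_left_comm]

lemma pm_append (l : List ℕ) (a : ℕ) (t : List ℕ) :
    pm (l ++ a :: t) = pm (l ++ [a]) + pm (a :: t) := by
  induction l with
  | nil => simp [pm]
  | cons b l ih =>
    cases l with
    | nil => simp [pm]
    | cons c l =>
      have e1 : pm (b :: c :: l ++ a :: t) = s(b, c) ::ₘ pm (c :: l ++ a :: t) := rfl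
      have e2 : pm (b :: c :: l ++ [a]) = s(b, c) ::ₘ pm (c :: l ++ [a]) := rfl
      rw [e1, e2, ih, Multiset.cons_add]

lemma pm_reverse (l : List ℕ) : pm l.reverse = pm l := by
  induction l with
  | nil => rfl
  | cons a l ih =>
    cases l with
    | nil => rfl
    | cons b l =>
      have e1 : (a :: b :: l).reverse = l.reverse ++ b :: [a] := by simp
      have e2 : l.reverse ++ [b] = (b :: l).reverse := by simp
      have e3 : pm (a :: b :: l) = s(a, b) ::ₘ pm (b :: l) := rfl
      have e4 : pm [b, a] = {s(b, a)} := rfl
      rw [e1, pm_append, e2, ih, e3, e4, Sym2.eq_swap, add_comm, Multiset.singleton_add]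

def hdv (l : List ℕ) : ℕ := l.head?.getD 0
def lsv (l : List ℕ) : ℕ := l.getLast?.getD 0

def en (p : List ℕ) (s : Bool) : ℕ := if s = true then lsv p else hdv p

lemma star (x : ℕ) (h : List ℕ) (hh : h ≠ []) : pm (x :: h) = {s(x, hdv h)} + pm h := by
  cases h with
  | nil => exact (hh rfl).elim
  | cons a t => rfl

lemma hdv_reverse (l : List ℕ) : hdv l.reverse = lsv l := by
  unfold hdv lsv; rw [List.head?_reverse]

lemma lsv_reverse (l : List ℕ) : lsv l.reverse = hdv l := by
  unfold hdv lsv; rw [List.getLast?_reverse]

lemma starL (x : ℕ) (h : List ℕ) (hh : h ≠ []) : pm (h ++ [x]) = {s(x, lsv h)} + pm h := by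
  have e1 : h ++ [x] = (x :: h.reverse).reverse := by simp
  rw [e1, pm_reverse, star x h.reverse (by simpa using hh), hdv_reverse, pm_reverse]

lemma hdv_append (s : List ℕ) (t : List ℕ) (hs : s ≠ []) : hdv (s ++ t) = hdv s := by
  cases s with
  | nil => exact (hs rfl).elim
  | cons a s => rfl

lemma lsv_append (s : List ℕ) (t : List ℕ) (ht : t ≠ []) : lsv (s ++ t) = lsv t := by
  rw [← hdv_reverse, List.reverse_append, hdv_append _ _ (by simpa using ht), hdv_reverse]

lemma lsv_cons (x : ℕ) (t : List ℕ) (ht : t ≠ []) : lsv (x :: t) = lsv t :=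
  lsv_append [x] t ht

lemma hdv_mem (s : List ℕ) (hs : s ≠ []) : hdv s ∈ s := by
  cases s with
  | nil => exact (hs rfl).elim
  | cons a s => exact List.mem_cons_self

lemma lsv_mem (s : List ℕ) (hs : s ≠ []) : lsv s ∈ s := by
  rw [← hdv_reverse]
  have := hdv_mem s.reverse (by simpa using hs)
  simpa using this

lemma one (x : ℕ) (p : List ℕ) (hp : IsP p) : ∃ (hd : Bool → ℕ) (H : Bool → Prop),
    (∀ s, H s → x ∈ p) ∧ (∀ s, H s → hd s ≠ x) ∧
    (∑ s : Bool, ind (H s) s(x, hd s) ≤ pm p) ∧
    (∀ v, IsEnd v p → v ≠ x → ∃ s, (H s ∨ x ∉ p) ∧ en p s = v) ∧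
    (∀ A B : Bool → Prop, (∀ s, A s → H s) → (∀ s, B s → x ∉ p) →
      (B true → B false → en p true ≠ en p false) →
      ∃ q : List ℕ × Bool, (q.2 = false → IsP q.1) ∧ (q.2 = true → IsC q.1) ∧
        val q + ∑ s : Bool, ind (A s) s(x, hd s) =
          pm p + ∑ s : Bool, ind (A s) s(x, en p s) + ∑ s : Bool, ind (B s) s(x, en p s)) := by
  by_cases hx : x ∈ p
  · obtain ⟨s, t, hst⟩ := List.append_of_mem hx
    have hpm : pm p = pm (s ++ [x]) + pm (x :: t) := by rw [hst, pm_append]
    have hnd := hp.2
    rw [hst] at hnd
    have hxs : x ∉ s := by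
      intro h
      exact (List.disjoint_of_nodup_append hnd) h List.mem_cons_self
    have hxt : x ∉ t := by
      have := (List.nodup_append.mp hnd).2.1
      exact (List.nodup_cons.mp this).1
    refine ⟨fun b => if b = true then hdv t else lsv s, fun b => if b = true then t ≠ [] else s ≠ [],
      fun _ _ => hx, ?_, ?_, ?_, ?_⟩
    · intro b hb
      cases b with
      | false =>
        simp only [Bool.false_eq_true, if_false] at hb ⊢
        intro h
        exact hxs (h ▸ lsv_mem s hb)
      | true =>
        simp only [if_true] at hb ⊢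
        intro h
        exact hxt (h ▸ hdv_mem t hb)
    · rw [Fintype.sum_bool, hpm, add_comm (pm (s ++ [x]))]
      simp only [Bool.false_eq_true, if_false, if_true]
      apply add_le_add
      · by_cases ht : t = []
        · rw [ind_false (by simpa using ht)]; exact Multiset.zero_le _
        · rw [ind_true ht, star x t ht]; exact Multiset.le_add_right _ _
      · by_cases hs : s = []
        · rw [ind_false (by simpa using hs)]; exact Multiset.zero_le _
        · rw [ind_true hs, starL x s hs]; exact Multiset.le_add_right _ _
    · intro v hv hvx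
      rcases hv with hv | hv
      · refine ⟨false, Or.inl ?_, ?_⟩
        · simp only [Bool.false_eq_true, if_false]
          intro hs
          rw [hst, hs] at hv
          simp only [List.nil_append, List.head?_cons, Option.some.injEq] at hv
          exact hvx hv.symm
        · simp only [en, Bool.false_eq_true, if_false, hdv, hv, Option.getD_some]
      · refine ⟨true, Or.inl ?_, ?_⟩
        · simp only [if_true]
          intro ht
          rw [hst, ht] at hv
          simp only [List.getLast?_append, List.getLast?_singleton, Option.some_or,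
            Option.some.injEq] at hv
          exact hvx hv.symm
        · simp only [en, if_true, lsv, hv, Option.getD_some]
    · intro A B hA hB _
      have hB' : ∀ b, ¬ B b := fun b hb => hB b hb hx
      classical
      refine ⟨((if A false then s.reverse else s) ++ x :: (if A true then t.reverse else t), false),
        ?_, ?_, ?_⟩
      · intro _
        refine ⟨by simp, ?_⟩
        have hperm : ((if A false then s.reverse else s) ++ x :: (if A true then t.reverse else t)).Perm
            (s ++ x :: t) := by
          apply List.Perm.append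
          · split_ifs
            · exact List.reverse_perm s
            · exact List.Perm.refl _
          · apply List.Perm.cons
            split_ifs
            · exact List.reverse_perm t
            · exact List.Perm.refl _
        exact hperm.nodup_iff.mpr hnd
      · intro h; simp at h
      · rw [Fintype.sum_bool, Fintype.sum_bool, Fintype.sum_bool, ind_false (hB' _),
          ind_false (hB' _), hpm]
        have e0 : val ((if A false then s.reverse else s) ++ x :: (if A true then t.reverse else t),
            false) = pm ((if A false then s.reverse else s) ++ [x]) +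
              pm (x :: (if A true then t.reverse else t)) := by
          simp only [val, Bool.false_eq_true, if_false]
          rw [pm_append]
        rw [e0]
        have eT : pm (x :: (if A true then t.reverse else t)) + ind (A true) s(x, hdv t) =
            pm (x :: t) + ind (A true) s(x, lsv p) := by
          by_cases h : A true
          · have ht : t ≠ [] := by simpa using hA true h
            have e5 : lsv p = lsv t := by rw [hst, lsv_append _ _ (by simp), lsv_cons _ _ ht]
            rw [if_pos h, ind_true h, ind_true h, star x t ht, star x t.reverse (by simpa using ht),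
              hdv_reverse, pm_reverse, e5]
            abel
          · rw [if_neg h, ind_false h, ind_false h]
        have eF : pm ((if A false then s.reverse else s) ++ [x]) + ind (A false) s(x, lsv s) =
            pm (s ++ [x]) + ind (A false) s(x, hdv p) := by
          by_cases h : A false
          · have hs : s ≠ [] := by simpa using hA false h
            have e5 : hdv p = hdv s := by rw [hst, hdv_append _ _ hs]
            rw [if_pos h, ind_true h, ind_true h, starL x s hs, starL x s.reverse (by simpa using hs),
              lsv_reverse, pm_reverse, e5]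
            abel
          · rw [if_neg h, ind_false h, ind_false h]
        have eE1 : en p true = lsv p := by simp [en]
        have eE2 : en p false = hdv p := by simp [en]
        rw [eE1, eE2]
        simp only [Bool.false_eq_true, if_false, if_true]
        calc _ = (pm ((if A false then s.reverse else s) ++ [x]) + ind (A false) s(x, lsv s)) +
              (pm (x :: (if A true then t.reverse else t)) + ind (A true) s(x, hdv t)) := by abel
          _ = _ := by rw [eT, eF]; abel
  · have hne : p ≠ [] := hp.1
    refine ⟨fun _ => 0, fun _ => False, fun _ h => h.elim, fun _ h => h.elim, ?_, ?_, ?_⟩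
    · rw [Fintype.sum_bool, ind_false (fun h => h), add_zero]
      exact Multiset.zero_le _
    · intro v hv _
      rcases hv with hv | hv
      · exact ⟨false, Or.inr hx, by simp [en, hdv, hv]⟩
      · exact ⟨true, Or.inr hx, by simp [en, lsv, hv]⟩
    · intro A B hA _ hBB
      have hA' : ∀ b, ¬ A b := fun b hb => hA b hb
      have eE1 : en p true = lsv p := by simp [en]
      have eE2 : en p false = hdv p := by simp [en]
      simp only [Fintype.sum_bool, ind_false (hA' _), add_zero, eE1, eE2]
      rw [eE1, eE2] at hBB
      by_cases b1 : B true <;> by_cases b2 : B false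
      · refine ⟨(x :: p, true), by simp, fun _ => ⟨?_, ?_⟩, ?_⟩
        · have h3 := hBB b1 b2
          rcases p with _ | ⟨a, _ | ⟨b, p⟩⟩
          · exact (hne rfl).elim
          · exact (h3 rfl).elim
          · simp
        · exact List.nodup_cons.mpr ⟨hx, hp.2⟩
        · rw [ind_true b1, ind_true b2]
          have e6 : val (x :: p, true) = pm (x :: (p ++ [x])) := by simp [val, cm]
          rw [e6, star x (p ++ [x]) (by simp), hdv_append _ _ hne, starL x p hne]
          abel
      · refine ⟨(p ++ [x], false), fun _ => ⟨by simp, ?_⟩, by simp, ?_⟩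
        · refine List.nodup_append.mpr ⟨hp.2, List.nodup_singleton x, ?_⟩
          intro a ha b hb
          rw [List.mem_singleton] at hb
          rintro rfl
          exact hx (hb ▸ ha)
        · rw [ind_true b1, ind_false b2]
          have e6 : val (p ++ [x], false) = pm (p ++ [x]) := by simp [val]
          rw [e6, starL x p hne]
          abel
      · refine ⟨(x :: p, false), fun _ => ⟨by simp, List.nodup_cons.mpr ⟨hx, hp.2⟩⟩, by simp, ?_⟩
        rw [ind_false b1, ind_true b2]
        have e6 : val (x :: p, false) = pm (x :: p) := by simp [val]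
        rw [e6, star x p hne]
        abel
      · refine ⟨(p, false), fun _ => hp, by simp, ?_⟩
        rw [ind_false b1, ind_false b2]
        simp [val]

lemma key_sum {k : ℕ} (S : Finset (Fin k × Bool)) (g : Fin k × Bool → Sym2 ℕ) :
    ∑ i : Fin k, ∑ s : Bool, ind ((i, s) ∈ S) (g (i, s)) = S.val.map g := by
  classical
  rw [← Fintype.sum_prod_type']
  have e1 : ∀ q : Fin k × Bool, ind (q ∈ S) (g q) = if q ∈ S then {g q} else 0 := by
    intro q
    by_cases h : q ∈ S
    · rw [ind_true h, if_pos h]
    · rw [ind_false h, if_neg h]
  calc ∑ q : Fin k × Bool, ind ((q.1, q.2) ∈ S) (g (q.1, q.2))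
      = ∑ q : Fin k × Bool, if q ∈ S then ({g q} : Multiset (Sym2 ℕ)) else 0 :=
        Finset.sum_congr rfl (fun q _ => e1 q)
    _ = ∑ q ∈ S, ({g q} : Multiset (Sym2 ℕ)) := by
        rw [← Finset.sum_filter]
        congr 1
        ext q; simp
    _ = S.val.map g := by
        have := Multiset.sum_map_singleton (S.val.map g)
        rw [Multiset.map_map] at this
        exact this

end CHNx

open CHNx in
theorem CHN_holds : FLOW → CHN := by
  intro hflow Ps x Y hPs hnd hxY hY hends
  have hone : ∀ i : Fin Ps.length, _ := fun i => one x (Ps.get i) (hPs _ (List.get_mem _ _))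
  choose hd H h1 h2 h3 h4 h5 using hone
  classical
  set HH : Finset (Fin Ps.length × Bool) := Finset.univ.filter (fun q => H q.1 q.2) with hHH
  set FF : Finset (Fin Ps.length × Bool) := Finset.univ.filter (fun q => x ∉ Ps.get q.1) with hFF
  have hpsum : psum Ps = ∑ i : Fin Ps.length, pm (Ps.get i) := by
    unfold psum
    rw [← List.sum_ofFn]
    congr 1
    conv_lhs => rw [← List.ofFn_get Ps]
    rw [List.map_ofFn]
    rfl
  have hle : HH.val.map (fun q => s(x, hd q.1 q.2)) ≤ psum Ps := by
    rw [hpsum, ← key_sum HH (fun q => s(x, hd q.1 q.2))]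
    apply Finset.sum_le_sum
    intro i _
    refine le_trans (le_of_eq ?_) (h3 i)
    apply Finset.sum_congr rfl
    intro s _
    have : (i, s) ∈ HH ↔ H i s := by simp [hHH]
    by_cases h : H i s
    · rw [ind_true h, ind_true (this.mpr h)]
    · rw [ind_false h, ind_false (fun h' => h (this.mp h'))]
  have hnd' : (HH.val.map (fun q => s(x, hd q.1 q.2))).Nodup := Multiset.nodup_of_le hle hnd
  have hmem : ∀ q ∈ HH, s(x, hd q.1 q.2) ∈ psum Ps := by
    intro q hq
    exact Multiset.mem_of_le hle (Multiset.mem_map_of_mem (fun q : Fin Ps.length × Bool =>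
      s(x, hd q.1 q.2)) hq)
  have hinj0 : Set.InjOn (fun q : Fin Ps.length × Bool => hd q.1 q.2) (HH : Set _) := by
    intro q hq r hr hqr
    refine Multiset.inj_on_of_nodup_map hnd' q hq r hr ?_
    simp only at hqr
    rw [hqr]
  have hdisj : Disjoint HH FF := by
    rw [Finset.disjoint_left]
    intro q hq hq'
    rw [hHH, Finset.mem_filter] at hq
    rw [hFF, Finset.mem_filter] at hq'
    exact hq'.2 (h1 q.1 q.2 hq.2)
  obtain ⟨A, B, hA, hB, hsum, hinj⟩ := hflow (Fin Ps.length × Bool) HH FF
    (fun q => hd q.1 q.2) (fun q => en (Ps.get q.1) q.2) Y hdisj hinj0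
    (by
      intro q hq hqY
      exact hY _ hqY (hmem q hq))
    (by
      intro v hv
      have hv1 : v ∈ Y ∨ s(x, v) ∈ psum Ps := by
        rcases Finset.mem_union.mp hv with h | h
        · exact Or.inl h
        · obtain ⟨q, hq, rfl⟩ := Finset.mem_image.mp h
          exact Or.inr (hmem q hq)
      have hvx : v ≠ x := by
        rcases Finset.mem_union.mp hv with h | h
        · rintro rfl; exact hxY h
        · obtain ⟨q, hq, rfl⟩ := Finset.mem_image.mp h
          rw [hHH, Finset.mem_filter] at hq
          exact h2 q.1 q.2 hq.2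
      obtain ⟨p, hp, hend⟩ := hends v hv1
      obtain ⟨i, hi⟩ := List.get_of_mem hp
      rw [← hi] at hend
      obtain ⟨s, hs1, hs2⟩ := h4 i v hend hvx
      refine ⟨(i, s), ?_, hs2⟩
      rw [Finset.mem_union, hHH, hFF, Finset.mem_filter, Finset.mem_filter]
      rcases hs1 with h | h
      · exact Or.inl ⟨Finset.mem_univ _, h⟩
      · exact Or.inr ⟨Finset.mem_univ _, h⟩)
  have h6 := fun i => h5 i (fun s => (i, s) ∈ A) (fun s => (i, s) ∈ B)
    (by
      intro s hs
      have := hA hs
      rw [hHH, Finset.mem_filter] at this
      exact this.2)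
    (by
      intro s hs
      have := hB hs
      rw [hFF, Finset.mem_filter] at this
      exact this.2)
    (by
      intro b1 b2 heq
      have h7 : ((i, true) : Fin Ps.length × Bool) = (i, false) :=
        hinj (Finset.mem_coe.mpr (Finset.mem_union_right _ b1))
          (Finset.mem_coe.mpr (Finset.mem_union_right _ b2)) heq
      exact absurd (congrArg Prod.snd h7) (by simp))
  choose q q1 q2 q3 using h6
  obtain ⟨Ps', Cs', a1, a2, a3, a4⟩ := split (List.ofFn q)
    (by
      intro r hr
      obtain ⟨i, rfl⟩ := (List.mem_ofFn' _ _).mp hr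
      exact q1 i)
    (by
      intro r hr
      obtain ⟨i, rfl⟩ := (List.mem_ofFn' _ _).mp hr
      exact q2 i)
  refine ⟨Ps', Cs', a1, a2, by rw [a3, List.length_ofFn], ?_⟩
  rw [a4, List.map_ofFn, List.sum_ofFn]
  have e1 := Finset.sum_congr (s₁ := (Finset.univ : Finset (Fin Ps.length))) rfl (fun i _ => q3 i)
  rw [Finset.sum_add_distrib, Finset.sum_add_distrib, Finset.sum_add_distrib, ← hpsum] at e1
  have k1 := key_sum A (fun q => s(x, hd q.1 q.2))
  have k2 := key_sum A (fun q => s(x, en (Ps.get q.1) q.2))
  have k3 := key_sum B (fun q => s(x, en (Ps.get q.1) q.2))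
  simp only at k1 k2 k3
  rw [k1, k2, k3] at e1
  have e2 : A.val.map (fun q => s(x, hd q.1 q.2)) + Y.val.map (fun y => s(x, y)) =
      A.val.map (fun q => s(x, en (Ps.get q.1) q.2)) +
        B.val.map (fun q => s(x, en (Ps.get q.1) q.2)) := by
    have := congrArg (Multiset.map (fun v => s(x, v))) hsum
    rw [Multiset.map_add, Multiset.map_add, Multiset.map_map, Multiset.map_map,
      Multiset.map_map] at this
    exact this
  have e3 : (∑ i, (val ∘ q) i) + A.val.map (fun q => s(x, hd q.1 q.2)) =
      (psum Ps + Y.val.map (fun y => s(x, y))) + A.val.map (fun q => s(x, hd q.1 q.2)) := by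
    calc (∑ i, (val ∘ q) i) + A.val.map (fun q => s(x, hd q.1 q.2))
        = psum Ps + A.val.map (fun q => s(x, en (Ps.get q.1) q.2)) +
          B.val.map (fun q => s(x, en (Ps.get q.1) q.2)) := e1
      _ = psum Ps + (A.val.map (fun q => s(x, hd q.1 q.2)) + Y.val.map (fun y => s(x, y))) := by
          rw [e2, add_assoc]
      _ = _ := by rw [add_assoc, add_comm (Y.val.map _)]
  exact add_right_cancel e3

end Pool.Agent.W722.PO
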