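import Pool.Agent.W722.PO.Stm2

set_option autoImplicit false

namespace Pool.Agent.W722.PO

namespace CNTCx



def f (B : List ℕ) (v : ℕ) : ℕ := if v ∈ B then 1 else 0

lemma pathb (B : List ℕ) : ∀ (t : List ℕ) (a : ℕ),
    (∀ u w, s(u, w) ∈ pm (a :: t) → u ∈ B ∨ w ∈ B) →
    t.length + f B a + f B ((a :: t).getLast (by simp)) ≤ 2 * ((a :: t).map (f B)).sum := by
  intro t
  induction t with
  | nil => intro a _; simp; omega
  | cons b t ih =>
    intro a h
    have h1 := ih b (fun u w hm => h u w (by rw [pm]; exact Multiset.mem_cons_of_mem hm))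
    have h2 : a ∈ B ∨ b ∈ B := h a b (by rw [pm]; exact Multiset.mem_cons_self _ _)
    have h3 : 1 ≤ f B a + f B b := by
      unfold f
      rcases h2 with h2 | h2 <;> simp [h2]
    rw [List.getLast_cons (by simp : b :: t ≠ [])]
    rw [List.map_cons, List.sum_cons, List.length_cons]
    omega

lemma cycb (B C : List ℕ) (hC : Cov B C) : C.length ≤ 2 * (C.map (f B)).sum := by
  cases C with
  | nil => simp
  | cons a t =>
    have h := pathb B (t ++ [a]) a (fun u w hm => hC u w hm)
    have hl : (a :: (t ++ [a])).getLast (by simp) = a := by simp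
    rw [hl] at h
    simp only [List.map_cons, List.map_append, List.sum_cons, List.sum_append, List.length_append,
      List.length_cons, List.length_nil, List.map_nil, List.sum_nil] at h ⊢
    omega

lemma cnt_eq (B C : List ℕ) (hC : C.Nodup) : (C.map (f B)).sum = (C.toFinset ∩ B.toFinset).card := by
  rw [← List.sum_toFinset (f B) hC]
  unfold f
  rw [← Finset.sum_filter, Finset.sum_const, smul_eq_mul, mul_one]
  congr 1
  ext v
  simp

lemma swap (B : List ℕ) : ∀ Cs : List (List ℕ),
    (Cs.map (fun C => (B.map (f C)).sum)).sum =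
      (B.map (fun v => (Cs.filter (fun C => v ∈ C)).length)).sum := by
  intro Cs
  induction Cs with
  | nil => simp
  | cons C Cs ih =>
    rw [List.map_cons, List.sum_cons, ih, ← List.sum_map_add]
    congr 1
    apply List.map_congr_left
    intro v _
    unfold f
    by_cases hv : v ∈ C
    · simp [hv, List.filter_cons]; omega
    · simp [hv, List.filter_cons]

end CNTCx

open CNTCx

theorem CNTC_holds : DEGR → CNTC := by
  intro hD M B Cs hB hG hcov
  obtain ⟨hC, hnd, hst, hlen⟩ := hG
  rcases Nat.eq_zero_or_pos M with hM | hM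
  · subst hM
    cases Cs with
    | nil => simp
    | cons C Cs =>
      have := (hlen C (by simp)).2
      omega
  · have h1 : M * Cs.length ≤ (Cs.map (fun C => 2 * (B.map (f C)).sum)).sum := by
      have : (Cs.map (fun _ => M)).sum ≤ (Cs.map (fun C => 2 * (B.map (f C)).sum)).sum := by
        apply List.sum_le_sum
        intro C hCm
        have a1 := (hlen C hCm).1
        have a2 := cycb B C (hcov C hCm)
        have a3 : (C.map (f B)).sum = (B.map (f C)).sum := by
          rw [cnt_eq B C (hC C hCm).2, cnt_eq C B hB.2, Finset.inter_comm]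
        omega
      simpa [mul_comm] using this
    have h2 : (Cs.map (fun C => 2 * (B.map (f C)).sum)).sum =
        2 * (Cs.map (fun C => (B.map (f C)).sum)).sum := by
      rw [List.sum_map_mul_left]
    have h3 : (B.map (fun v => (Cs.filter (fun C => v ∈ C)).length)).sum ≤ (B.map (fun _ => 2 * M)).sum := by
      apply List.sum_le_sum
      intro v _
      exact hD M Cs v ⟨hC, hnd, hst, hlen⟩
    have h4 : (B.map (fun _ => 2 * M)).sum = B.length * (2 * M) := by simp
    rw [h2, swap] at h1
    rw [h4] at h3
    have h5 : M * Cs.length ≤ M * (4 * B.length) := by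
      calc M * Cs.length ≤ 2 * (B.map (fun v => (Cs.filter (fun C => v ∈ C)).length)).sum := h1
        _ ≤ 2 * (B.length * (2 * M)) := Nat.mul_le_mul_left 2 h3
        _ = M * (4 * B.length) := by ring
    exact Nat.le_of_mul_le_mul_left h5 hM

end Pool.Agent.W722.PO
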