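import Pool.Agent.W722.PO.Stm

set_option autoImplicit false

namespace Pool.Agent.W722.PO

namespace CONVx

theorem walk (n : ℕ) : ∀ (t : List ℕ) (x : ℕ), (x :: t).Nodup →
    ∀ (hlt : ∀ v ∈ x :: t, v < n), ∃ (v : Fin n)
      (w : (⊤ : SimpleGraph (Fin n)).Walk ⟨x, hlt x List.mem_cons_self⟩ v),
      w.IsPath ∧ w.support.map Fin.val = x :: t ∧
      ∀ a b : Fin n, s(a, b) ∈ w.edges ↔ s((a : ℕ), (b : ℕ)) ∈ pm (x :: t) := by
  intro t
  induction t with
  | nil =>
    intro x _ hlt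
    refine ⟨_, SimpleGraph.Walk.nil, SimpleGraph.Walk.IsPath.nil, ?_, ?_⟩
    · simp
    · intro a b
      simp [pm]
  | cons y t ih =>
    intro x hnd hlt
    rw [List.nodup_cons] at hnd
    obtain ⟨v, w, hw, hs, he⟩ := ih y hnd.2 (fun v hv => hlt v (List.mem_cons_of_mem _ hv))
    have hxy : x ≠ y := by
      rintro rfl
      exact hnd.1 List.mem_cons_self
    have hadj : (⊤ : SimpleGraph (Fin n)).Adj ⟨x, hlt x List.mem_cons_self⟩
        ⟨y, hlt y (List.mem_cons_of_mem _ List.mem_cons_self)⟩ := by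
      rw [SimpleGraph.top_adj]
      intro h
      exact hxy (congrArg Fin.val h)
    refine ⟨v, SimpleGraph.Walk.cons hadj w, ?_, ?_, ?_⟩
    · rw [SimpleGraph.Walk.cons_isPath_iff]
      refine ⟨hw, fun h => hnd.1 ?_⟩
      rw [← hs]
      exact List.mem_map_of_mem h
    · rw [SimpleGraph.Walk.support_cons, List.map_cons, hs]
    · intro a b
      rw [SimpleGraph.Walk.edges_cons, List.mem_cons, he]
      show _ ↔ s((a : ℕ), (b : ℕ)) ∈ s(x, y) ::ₘ pm (y :: t)
      rw [Multiset.mem_cons]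
      apply or_congr_left
      rw [Sym2.eq_iff, Sym2.eq_iff, Fin.ext_iff, Fin.ext_iff, Fin.ext_iff, Fin.ext_iff]

theorem mem_pm : ∀ (l : List ℕ) (e : Sym2 ℕ), e ∈ pm l → ∀ v ∈ e, v ∈ l
  | [], e, he => by simp [pm] at he
  | [_], e, he => by simp [pm] at he
  | a :: b :: t, e, he => by
    intro v hv
    change e ∈ s(a, b) ::ₘ pm (b :: t) at he
    rw [Multiset.mem_cons] at he
    rcases he with rfl | he
    · rw [Sym2.mem_iff] at hv
      rcases hv with rfl | rfl
      · exact List.mem_cons_self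
      · exact List.mem_cons_of_mem _ List.mem_cons_self
    · exact List.mem_cons_of_mem _ (mem_pm (b :: t) e he v hv)

theorem nodup_pm : ∀ l : List ℕ, l.Nodup → (pm l).Nodup
  | [], _ => Multiset.nodup_zero
  | [_], _ => Multiset.nodup_zero
  | a :: b :: t, h => by
    rw [List.nodup_cons] at h
    change (s(a, b) ::ₘ pm (b :: t)).Nodup
    rw [Multiset.nodup_cons]
    refine ⟨fun he => h.1 ?_, nodup_pm (b :: t) h.2⟩
    exact mem_pm _ _ he a (Sym2.mem_mk_left a b)

theorem count_psum (Ps : List (List ℕ)) (e : Sym2 ℕ) :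
    (psum Ps).count e = (Ps.map fun l => (pm l).count e).sum := by
  induction Ps with
  | nil => simp [psum]
  | cons l Ps ih =>
    have : psum (l :: Ps) = pm l + psum Ps := by simp [psum]
    rw [this, Multiset.count_add, ih, List.map_cons, List.sum_cons]

end CONVx

theorem CONV_holds : CONV := by
  intro n G Ps hP hlt hG
  have hex : ∀ i : Fin Ps.length, ∃ (u v : Fin n) (w : (⊤ : SimpleGraph (Fin n)).Walk u v),
      w.IsPath ∧ ∀ a b : Fin n, s(a, b) ∈ w.edges ↔ s((a : ℕ), (b : ℕ)) ∈ pm (Ps[(i : ℕ)]) := by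
    intro i
    have hmem : Ps[(i : ℕ)] ∈ Ps := List.getElem_mem _
    have h1 := hP _ hmem
    have h2 := hlt _ hmem
    revert h1 h2
    generalize Ps[(i : ℕ)] = l
    intro h1 h2
    cases l with
    | nil => exact absurd rfl h1.1
    | cons x t =>
      obtain ⟨v, w, hw, _, he⟩ := CONVx.walk n t x h1.2 h2
      exact ⟨_, v, w, hw, he⟩
  choose u v w hw he using hex
  refine ⟨u, v, w, hw, ?_⟩
  intro a b hab
  rw [hG a b hab]
  have h1 : (psum Ps).count s((a : ℕ), (b : ℕ)) =
      (Finset.univ.filter (fun i => s(a, b) ∈ (w i).edges)).card := by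
    rw [CONVx.count_psum, ← Fin.sum_univ_fun_getElem, Finset.card_filter]
    apply Finset.sum_congr rfl
    intro i _
    have hmem : Ps[(i : ℕ)] ∈ Ps := List.getElem_mem _
    have h2 := CONVx.nodup_pm _ (hP _ hmem).2
    by_cases h3 : s((a : ℕ), (b : ℕ)) ∈ pm (Ps[(i : ℕ)])
    · rw [if_pos ((he i a b).2 h3)]
      exact Multiset.count_eq_one_of_mem h2 h3
    · rw [if_neg (fun h => h3 ((he i a b).1 h))]
      exact Multiset.count_eq_zero_of_notMem h3
  unfold par
  rw [h1]
  exact ZMod.natCast_eq_one_iff_odd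

end Pool.Agent.W722.PO
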