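import Pool.Agent.W722.PO.Stm2

set_option autoImplicit false

namespace Pool.Agent.W722.PO

namespace DEGRx

lemma pm_mem (l1 l2 : List ℕ) (x y : ℕ) : s(x, y) ∈ pm (l1 ++ x :: y :: l2) := by
  induction l1 with
  | nil => simp [pm]
  | cons a t ih =>
    cases t with
    | nil => simp [pm]
    | cons b t' =>
      have h : (a :: b :: t') ++ x :: y :: l2 = a :: b :: (t' ++ x :: y :: l2) := rfl
      rw [h, pm]
      exact Multiset.mem_cons_of_mem ih

lemma cm_mem (l1 l2 : List ℕ) (x y : ℕ) : s(x, y) ∈ cm (l1 ++ x :: y :: l2) := by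
  cases l1 with
  | nil =>
    have h := pm_mem [] (l2 ++ [x]) x y
    simpa [cm] using h
  | cons a t =>
    have h := pm_mem (a :: t) (l2 ++ [a]) x y
    have e : cm ((a :: t) ++ x :: y :: l2) = pm ((a :: t) ++ x :: y :: (l2 ++ [a])) := by
      simp [cm]
    rw [e]
    exact h

lemma cm_last (t : List ℕ) (a c : ℕ) : s(c, a) ∈ cm (a :: (t ++ [c])) := by
  have h := pm_mem (a :: t) [] c a
  have e : cm (a :: (t ++ [c])) = pm ((a :: t) ++ c :: a :: []) := by
    simp [cm]
  rw [e]
  exact h

lemma nb (C : List ℕ) (v : ℕ) (hC : IsC C) (hv : v ∈ C) : ∃ b c : ℕ, b ≠ c ∧ b ∈ C ∧ c ∈ C ∧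
    b ≠ v ∧ c ≠ v ∧ s(v, b) ∈ cm C ∧ s(v, c) ∈ cm C := by
  obtain ⟨hlen, hnd⟩ := hC
  obtain ⟨l1, l2, rfl⟩ := List.append_of_mem hv
  rcases List.eq_nil_or_concat l1 with rfl | ⟨l1', c, rfl⟩
  · cases l2 with
    | nil => simp at hlen
    | cons b l2' =>
      rcases List.eq_nil_or_concat l2' with rfl | ⟨l3, c, rfl⟩
      · simp at hlen
      · have h1 : s(v, b) ∈ cm ([] ++ v :: b :: (l3 ++ [c])) := cm_mem [] _ v b
        have h2 : s(c, v) ∈ cm (v :: ((b :: l3) ++ [c])) := cm_last (b :: l3) v c
        rw [Sym2.eq_swap] at h2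
        simp only [List.concat_eq_append] at *
        refine ⟨b, c, ?_, by simp, by simp, ?_, ?_, h1, h2⟩
        · rintro rfl
          simp at hnd
        · rintro rfl
          simp at hnd
        · rintro rfl
          simp at hnd
  · simp only [List.concat_eq_append] at *
    cases l2 with
    | nil =>
      cases l1' with
      | nil => simp at hlen
      | cons a l1'' =>
        have h1 : s(v, a) ∈ cm (a :: ((l1'' ++ [c]) ++ [v])) := cm_last _ a v
        have h2 : s(c, v) ∈ cm ((a :: l1'') ++ c :: v :: []) := cm_mem _ _ c v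
        rw [Sym2.eq_swap] at h2
        refine ⟨a, c, ?_, by simp, by simp, ?_, ?_, by simpa using h1, by simpa using h2⟩
        · rintro rfl
          simp [List.nodup_append] at hnd
        · rintro rfl
          simp [List.nodup_append] at hnd
        · rintro rfl
          simp [List.nodup_append] at hnd
    | cons b l2' =>
      have h1 : s(v, b) ∈ cm ((l1' ++ [c]) ++ v :: b :: l2') := cm_mem _ _ v b
      have h2 : s(c, v) ∈ cm (l1' ++ c :: v :: (b :: l2')) := cm_mem _ _ c v
      rw [Sym2.eq_swap] at h2
      refine ⟨b, c, ?_, by simp, by simp, ?_, ?_, h1, by simpa using h2⟩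
      · rintro rfl
        simp [List.nodup_append] at hnd
      · rintro rfl
        simp [List.nodup_append] at hnd
      · rintro rfl
        simp [List.nodup_append] at hnd

lemma disj (Cs : List (List ℕ)) (h : (csum Cs).Nodup) :
    Cs.Pairwise (fun C D => ∀ e, e ∈ cm C → e ∈ cm D → False) := by
  induction Cs with
  | nil => exact List.Pairwise.nil
  | cons C t ih =>
    have e : csum (C :: t) = cm C + csum t := by simp [csum]
    rw [e, Multiset.nodup_add] at h
    refine List.Pairwise.cons ?_ (ih h.2.1)
    intro D hD x hx1 hx2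
    have h3 : x ∈ csum t := by
      unfold csum
      have h4 : cm D ≤ (t.map cm).sum := List.le_sum_of_mem (List.mem_map_of_mem hD)
      exact Multiset.mem_of_le h4 hx2
    exact (Multiset.disjoint_left.mp h.2.2) hx1 h3

end DEGRx

open DEGRx in
theorem DEGR_holds : DEGR := by
  classical
  intro M Cs v hG
  obtain ⟨hC, hnd, hst, hlen⟩ := hG
  set L := Cs.filter (fun C => v ∈ C) with hL
  have hmem : ∀ i : Fin L.length, L.get i ∈ Cs ∧ v ∈ L.get i := by
    intro i
    have h : L.get i ∈ L := List.get_mem L i
    exact ⟨(List.mem_filter.mp h).1, by simpa using (List.mem_filter.mp h).2⟩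
  have hstL : L.Pairwise (fun C D => Star C D) := hst.filter _
  have hdL : L.Pairwise (fun C D => ∀ e, e ∈ cm C → e ∈ cm D → False) := (disj Cs hnd).filter _
  rw [List.pairwise_iff_get] at hstL hdL
  choose b c hbc hbC hcC hbv hcv hb hc using
    fun i : Fin L.length => nb (L.get i) v (hC _ (hmem i).1) (hmem i).2
  let N : Fin L.length → Finset ℕ := fun i => {b i, c i}
  have hNcard : ∀ i, (N i).card = 2 := fun i => Finset.card_pair (hbc i)
  have hNmem : ∀ i x, x ∈ N i → s(v, x) ∈ cm (L.get i) := by
    intro i x hx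
    simp only [N, Finset.mem_insert, Finset.mem_singleton] at hx
    rcases hx with rfl | rfl
    · exact hb i
    · exact hc i
  have hNv : ∀ i x, x ∈ N i → x ≠ v := by
    intro i x hx
    simp only [N, Finset.mem_insert, Finset.mem_singleton] at hx
    rcases hx with rfl | rfl
    · exact hbv i
    · exact hcv i
  have hNdis : ∀ i j, i ≠ j → Disjoint (N i) (N j) := by
    intro i j hij
    rw [Finset.disjoint_left]
    intro x hx1 hx2
    rcases lt_or_gt_of_ne hij with h | h
    · exact hdL i j h _ (hNmem i x hx1) (hNmem j x hx2)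
    · exact hdL j i h _ (hNmem j x hx2) (hNmem i x hx1)
  let A : Fin L.length → Finset ℕ := fun q => (L.get q).toFinset.erase v
  have hR : ∀ p q, N p ⊆ A q ∨ N q ⊆ A p := by
    intro p q
    have key : ∀ p q : Fin L.length, (∀ a, s(v, a) ∈ cm (L.get p) → a ∈ L.get q) → N p ⊆ A q := by
      intro p q h x hx
      rw [Finset.mem_erase, List.mem_toFinset]
      exact ⟨hNv p x hx, h x (hNmem p x hx)⟩
    rcases lt_trichotomy p q with h | h | h
    · rcases hstL p q h v (hmem p).2 (hmem q).2 with h1 | h1
      · exact Or.inl (key p q h1)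
      · exact Or.inr (key q p h1)
    · subst h
      left
      intro x hx
      rw [Finset.mem_erase, List.mem_toFinset]
      refine ⟨hNv p x hx, ?_⟩
      simp only [N, Finset.mem_insert, Finset.mem_singleton] at hx
      rcases hx with rfl | rfl
      · exact hbC p
      · exact hcC p
    · rcases hstL q p h v (hmem q).2 (hmem p).2 with h1 | h1
      · exact Or.inr (key q p h1)
      · exact Or.inl (key p q h1)
  have hA : ∀ q, (A q).card ≤ 2 * M := by
    intro q
    have h1 : (A q).card ≤ (L.get q).toFinset.card := Finset.card_le_card (Finset.erase_subset _ _)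
    have h2 := List.toFinset_card_le (L.get q)
    have h3 := (hlen _ (hmem q).1).2
    omega
  set T := (Finset.univ ×ˢ Finset.univ : Finset (Fin L.length × Fin L.length)).filter
    (fun z => N z.1 ⊆ A z.2) with hT
  set T' := (Finset.univ ×ˢ Finset.univ : Finset (Fin L.length × Fin L.length)).filter
    (fun z => N z.2 ⊆ A z.1) with hT'
  have hTT : T'.card = T.card := by
    apply Finset.card_bij' (fun z _ => z.swap) (fun z _ => z.swap)
    all_goals
      intro z hz
      first
        | exact Prod.swap_swap z
        | simpa [hT, hT'] using hz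
  have hunion : (Finset.univ ×ˢ Finset.univ : Finset (Fin L.length × Fin L.length)) ⊆ T ∪ T' := by
    intro z hz
    rw [Finset.mem_union, hT, hT', Finset.mem_filter, Finset.mem_filter]
    rcases hR z.1 z.2 with h | h
    · exact Or.inl ⟨hz, h⟩
    · exact Or.inr ⟨hz, h⟩
  have h1 : L.length * L.length ≤ 2 * T.card := by
    have h2 := Finset.card_le_card hunion
    rw [Finset.card_product, Finset.card_univ, Fintype.card_fin] at h2
    have h3 := Finset.card_union_le T T'
    omega
  have h4 : T.card = ∑ q : Fin L.length, (Finset.univ.filter (fun p => N p ⊆ A q)).card := by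
    rw [hT, Finset.card_filter, Finset.sum_product_right]
    apply Finset.sum_congr rfl
    intro q _
    rw [Finset.card_filter]
  have h5 : ∀ q, 2 * (Finset.univ.filter (fun p => N p ⊆ A q)).card ≤ 2 * M := by
    intro q
    refine le_trans ?_ (hA q)
    have h6 : ((Finset.univ.filter (fun p => N p ⊆ A q)).biUnion N).card
        = ∑ p ∈ Finset.univ.filter (fun p => N p ⊆ A q), (N p).card :=
      Finset.card_biUnion (fun i _ j _ hij => hNdis i j hij)
    have h7 : (Finset.univ.filter (fun p => N p ⊆ A q)).biUnion N ⊆ A q := by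
      rw [Finset.biUnion_subset]
      intro p hp
      exact (Finset.mem_filter.mp hp).2
    have h8 := Finset.card_le_card h7
    rw [h6, Finset.sum_congr rfl (fun p _ => hNcard p), Finset.sum_const, smul_eq_mul] at h8
    omega
  have h9 : 2 * T.card ≤ L.length * (2 * M) := by
    rw [h4, Finset.mul_sum]
    calc ∑ q : Fin L.length, 2 * (Finset.univ.filter (fun p => N p ⊆ A q)).card
        ≤ ∑ q : Fin L.length, 2 * M := Finset.sum_le_sum fun q _ => h5 q
      _ = L.length * (2 * M) := by simp
  have h10 : L.length * L.length ≤ L.length * (2 * M) := h1.trans h9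
  rcases Nat.eq_zero_or_pos L.length with h0 | h0
  · omega
  · exact Nat.le_of_mul_le_mul_left h10 h0

end Pool.Agent.W722.PO
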