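import Pool.Agent.W722.PO.Stm

set_option autoImplicit false

namespace Pool.Agent.W722.PO

lemma FLOWx.union_val_add {α : Type} [DecidableEq α] {s t : Finset α} (h : Disjoint s t) :
    (s ∪ t).val = s.val + t.val := by
  rw [← Finset.disjUnion_eq_union s t h]
  rfl

theorem FLOW_holds : FLOW := by
  intro I _ H F hd en Y hdis hinj hY hex
  classical
  rcases isEmpty_or_nonempty I with hI | hI
  · have hYe : Y = ∅ := by
      by_contra hne
      obtain ⟨v, hv⟩ := Finset.nonempty_iff_ne_empty.2 hne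
      obtain ⟨i, _⟩ := hex v (Finset.mem_union_left _ hv)
      exact hI.elim i
    subst hYe
    exact ⟨∅, ∅, by simp, by simp, by simp, by simp⟩
  · choose! σ hσ using hex
    have hRex : ∃ R : Finset ℕ, R ⊆ Y ∪ H.image hd ∧ Y ⊆ R ∧ (∀ u ∈ R, σ u ∈ H → hd (σ u) ∈ R) ∧
        ∀ S : Finset ℕ, S ⊆ Y ∪ H.image hd → Y ⊆ S → (∀ u ∈ S, σ u ∈ H → hd (σ u) ∈ S) → R ⊆ S := by
      refine ⟨(Y ∪ H.image hd).filter (fun v => ∀ S : Finset ℕ, S ⊆ Y ∪ H.image hd → Y ⊆ S →
        (∀ u ∈ S, σ u ∈ H → hd (σ u) ∈ S) → v ∈ S), Finset.filter_subset _ _, ?_, ?_, ?_⟩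
      · intro v hv
        exact Finset.mem_filter.2 ⟨Finset.mem_union_left _ hv, fun S _ h2 _ => h2 hv⟩
      · intro u hu hh
        rw [Finset.mem_filter] at hu
        exact Finset.mem_filter.2 ⟨Finset.mem_union_right _ (Finset.mem_image_of_mem _ hh),
          fun S h1 h2 h3 => h3 u (hu.2 S h1 h2 h3) hh⟩
      · intro S h1 h2 h3 v hv
        exact (Finset.mem_filter.1 hv).2 S h1 h2 h3
    obtain ⟨R, hRD, hYR, hRc, hmin⟩ := hRex
    have hσ1 : ∀ u ∈ R, σ u ∈ H ∪ F := fun u hu => (hσ u (hRD hu)).1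
    have hσ2 : ∀ u ∈ R, en (σ u) = u := fun u hu => (hσ u (hRD hu)).2
    have hσinj : Set.InjOn σ (R : Set ℕ) := by
      intro u hu v hv he
      rw [← hσ2 u (Finset.mem_coe.1 hu), ← hσ2 v (Finset.mem_coe.1 hv), he]
    have hAH : (R.image σ).filter (· ∈ H) ⊆ H := fun i hi => (Finset.mem_filter.1 hi).2
    have hBF : (R.image σ).filter (· ∈ F) ⊆ F := fun i hi => (Finset.mem_filter.1 hi).2
    have hAB : (R.image σ).filter (· ∈ H) ∪ (R.image σ).filter (· ∈ F) = R.image σ := by
      ext i
      simp only [Finset.mem_union, Finset.mem_filter]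
      constructor
      · rintro (h | h)
        · exact h.1
        · exact h.1
      · intro h
        obtain ⟨u, hu, rfl⟩ := Finset.mem_image.1 h
        rcases Finset.mem_union.1 (hσ1 u hu) with h1 | h1
        · exact Or.inl ⟨h, h1⟩
        · exact Or.inr ⟨h, h1⟩
    have hABd : Disjoint ((R.image σ).filter (· ∈ H)) ((R.image σ).filter (· ∈ F)) :=
      Finset.disjoint_of_subset_left hAH (Finset.disjoint_of_subset_right hBF hdis)
    refine ⟨(R.image σ).filter (· ∈ H), (R.image σ).filter (· ∈ F), hAH, hBF, ?_, ?_⟩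
    · have e1 : R.val = ((R.image σ).filter (· ∈ H)).val.map en +
          ((R.image σ).filter (· ∈ F)).val.map en := by
        rw [← Multiset.map_add, ← FLOWx.union_val_add hABd, hAB,
          Finset.image_val_of_injOn hσinj, Multiset.map_map]
        conv_lhs => rw [← Multiset.map_id R.val]
        refine Multiset.map_congr rfl fun u hu => ?_
        exact (hσ2 u hu).symm
      have e2 : R = Y ∪ ((R.image σ).filter (· ∈ H)).image hd := by
        have hs : Y ∪ ((R.image σ).filter (· ∈ H)).image hd ⊆ R := by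
          apply Finset.union_subset hYR
          intro v hv
          obtain ⟨i, hi, rfl⟩ := Finset.mem_image.1 hv
          obtain ⟨hi1, hi2⟩ := Finset.mem_filter.1 hi
          obtain ⟨u, hu, rfl⟩ := Finset.mem_image.1 hi1
          exact hRc u hu hi2
        apply Finset.Subset.antisymm _ hs
        apply hmin _ (hs.trans hRD) Finset.subset_union_left
        intro u hu hh
        exact Finset.mem_union_right _ (Finset.mem_image_of_mem _
          (Finset.mem_filter.2 ⟨Finset.mem_image_of_mem _ (hs hu), hh⟩))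
      have hd1 : Disjoint Y (((R.image σ).filter (· ∈ H)).image hd) := by
        rw [Finset.disjoint_left]
        intro v hv hv2
        obtain ⟨i, hi, rfl⟩ := Finset.mem_image.1 hv2
        exact hY i (hAH hi) hv
      have hd2 : Set.InjOn hd (((R.image σ).filter (· ∈ H) : Finset I) : Set I) :=
        hinj.mono (Finset.coe_subset.2 hAH)
      have e3 : R.val = Y.val + ((R.image σ).filter (· ∈ H)).val.map hd := by
        conv_lhs => rw [e2]
        rw [FLOWx.union_val_add hd1, Finset.image_val_of_injOn hd2]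
      rw [← e1, e3, add_comm]
    · rw [hAB]
      intro i hi j hj he
      obtain ⟨u, hu, rfl⟩ := Finset.mem_image.1 (Finset.mem_coe.1 hi)
      obtain ⟨v, hv, rfl⟩ := Finset.mem_image.1 (Finset.mem_coe.1 hj)
      rw [hσ2 u hu, hσ2 v hv] at he
      rw [he]

end Pool.Agent.W722.PO
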