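import Pool.Agent.W722.PO.Stm

set_option autoImplicit false

namespace Pool.Agent.W722.PO

theorem GE_holds : GE := by
  classical
  intro n G
  set E : Finset (Sym2 ℕ) :=
    ((Finset.univ : Finset (Sym2 (Fin n))).filter (fun e => e ∈ G.edgeSet)).image
      (Sym2.map Fin.val) with hE
  have hmem : ∀ e : Sym2 ℕ, e ∈ E ↔ ∃ a b : Fin n, G.Adj a b ∧ s((a : ℕ), (b : ℕ)) = e := by
    intro e
    rw [hE]
    simp only [Finset.mem_image, Finset.mem_filter, Finset.mem_univ, true_and]
    constructor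
    · rintro ⟨f, hf, rfl⟩
      induction f using Sym2.ind with
      | _ a b => exact ⟨a, b, by simpa using hf, by simp⟩
    · rintro ⟨a, b, hab, rfl⟩
      exact ⟨s(a, b), by simpa using hab, by simp⟩
  refine ⟨E, ?_, ?_, ?_⟩
  · intro e he hd
    obtain ⟨a, b, hab, rfl⟩ := (hmem e).1 he
    exact hab.ne (Fin.ext (by simpa using hd))
  · intro v hv
    unfold supp at hv
    obtain ⟨e, he, hve⟩ := Finset.mem_biUnion.1 hv
    obtain ⟨a, b, hab, rfl⟩ := (hmem e).1 he
    rw [Sym2.mem_toFinset, Sym2.mem_iff] at hve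
    rcases hve with h | h
    · rw [h]; exact a.isLt
    · rw [h]; exact b.isLt
  · intro a b hab
    have key : s((a : ℕ), (b : ℕ)) ∈ E ↔ G.Adj a b := by
      rw [hmem]
      constructor
      · rintro ⟨c, d, hcd, h⟩
        rw [Sym2.eq_iff] at h
        rcases h with ⟨h1, h2⟩ | ⟨h1, h2⟩
        · rw [← Fin.ext h1, ← Fin.ext h2]; exact hcd
        · rw [← Fin.ext h1, ← Fin.ext h2]; exact hcd.symm
      · intro h
        exact ⟨a, b, h, rfl⟩
    unfold par
    by_cases h : G.Adj a b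
    · have h1 : E.val.count s((a : ℕ), (b : ℕ)) = 1 :=
        Multiset.count_eq_one_of_mem E.nodup (key.2 h)
      rw [h1]
      simp [h]
    · have h1 : E.val.count s((a : ℕ), (b : ℕ)) = 0 :=
        Multiset.count_eq_zero_of_notMem (fun hh => h (key.1 hh))
      rw [h1]
      simp [h]

theorem FINAL_holds : MAIN → CONV → GE → FINAL := by
  intro hM hC hG n j G hj
  obtain ⟨E, hE1, hE2, hE3⟩ := hG n G
  obtain ⟨Ps, hP1, hP2, hP3, hP4⟩ := hM E n j hE1 hE2 hj
  obtain ⟨u, v, P, hp, hadj⟩ := hC n G Ps hP1 hP3 (by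
    intro a b hab
    rw [← hP4]
    exact hE3 a b hab)
  exact ⟨Ps.length, u, v, P, hP2, hp, hadj⟩

end Pool.Agent.W722.PO
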