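import Pool.Agent.W722.PO.Stm2

set_option autoImplicit false

namespace Pool.Agent.W722.PO

namespace MAIN2x

theorem par_add (S T : Multiset (Sym2 ℕ)) : par (S + T) = par S + par T := by
  funext e
  simp [par, Multiset.count_add]

theorem psum_append (A B : List (List ℕ)) : psum (A ++ B) = psum A + psum B := by
  simp [psum]

theorem num (m c : ℕ) (h : c < 2 ^ m) : 14 ^ (11 * m) * c < 15 ^ (11 * m) := by
  calc 14 ^ (11 * m) * c < 14 ^ (11 * m) * 2 ^ m :=
        Nat.mul_lt_mul_of_pos_left h (pow_pos (by norm_num) _)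
    _ = (14 ^ 11 * 2) ^ m := by rw [pow_mul, mul_pow]
    _ ≤ (15 ^ 11) ^ m := Nat.pow_le_pow_left (by norm_num) m
    _ = 15 ^ (11 * m) := by rw [pow_mul]

end MAIN2x

open MAIN2x

theorem MAIN2_holds : LOV → VS → PAIRS → SCAL → MAIN2 := by
  intro hL hV hPr hS E n m hNL hs hm
  obtain ⟨Ps, Cs, ⟨hP, hC, hE⟩, hlen, hvP, hvC⟩ := hV E hNL (hL E hNL)
  have hcard : (supp E).card ≤ n := by
    have h1 : supp E ⊆ Finset.range n := by
      intro v hv
      exact Finset.mem_range.2 (hs v hv)
    simpa using Finset.card_le_card h1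
  have hnd : (csum Cs).Nodup := by
    refine Multiset.nodup_of_le ?_ E.nodup
    rw [← hE]
    exact Multiset.le_add_left _ _
  obtain ⟨Ps1, Cs', hP1, hC', hlen1, hsum, hv1, hpw⟩ := hPr Cs hC
  have hnd' : (csum Cs').Nodup := by
    refine Multiset.nodup_of_le ?_ hnd
    rw [hsum]
    exact Multiset.le_add_left _ _
  have hlenC : ∀ C ∈ Cs', C.length < 2 ^ m := by
    intro C hC0
    have h1 := hC C (hC' C hC0)
    have h2 : C.toFinset ⊆ Finset.range n := by
      intro v hv
      rw [List.mem_toFinset] at hv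
      exact Finset.mem_range.2 (hs v (hvC C (hC' C hC0) v hv))
    have h3 := Finset.card_le_card h2
    rw [List.toFinset_card_of_nodup h1.2, Finset.card_range] at h3
    omega
  obtain ⟨Ps2, hP2, hlen2, hv2, hpar⟩ := hS m (11 * m) Cs'
    (fun C hC0 => hC C (hC' C hC0)) hnd' hpw hlenC (num m _ (by omega))
  refine ⟨Ps ++ (Ps1 ++ Ps2), ?_, ?_, ?_, ?_⟩
  · intro p hp
    rcases List.mem_append.1 hp with h | h
    · exact hP p h
    · rcases List.mem_append.1 h with h | h
      · exact hP1 p h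
      · exact hP2 p h
  · rw [List.length_append, List.length_append]
    have h1 : m * (11 * m) = 11 * m ^ 2 := by ring
    rw [h1] at hlen2
    omega
  · intro p hp v hv
    rcases List.mem_append.1 hp with h | h
    · exact hs v (hvP p h v hv)
    · rcases List.mem_append.1 h with h | h
      · obtain ⟨c, hc, hvc⟩ := hv1 p h v hv
        exact hs v (hvC c hc v hvc)
      · obtain ⟨c, hc, hvc⟩ := hv2 p h v hv
        exact hs v (hvC c (hC' c hc) v hvc)
  · rw [← hE, hsum, par_add, par_add, psum_append, psum_append, par_add, par_add, hpar]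

theorem FINAL2_holds : MAIN2 → CONV → GE → FINAL2 := by
  intro hM hC hG n m G hm
  obtain ⟨E, hE1, hE2, hE3⟩ := hG n G
  obtain ⟨Ps, hP1, hP2, hP3, hP4⟩ := hM E n m hE1 hE2 hm
  obtain ⟨u, v, P, hp, hadj⟩ := hC n G Ps hP1 hP3 (by
    intro a b hab
    rw [← hP4]
    exact hE3 a b hab)
  exact ⟨Ps.length, u, v, P, hP2, hp, hadj⟩

end Pool.Agent.W722.PO
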