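import Pool.Agent.W722.PO.Stm

set_option autoImplicit false

namespace Pool.Agent.W722.PO

namespace MEASx

theorem mem_supp {E : Finset (Sym2 ℕ)} {v : ℕ} : v ∈ supp E ↔ ∃ e ∈ E, v ∈ e := by
  unfold supp
  simp only [Finset.mem_biUnion, Sym2.mem_toFinset]

theorem card_supp_le (E : Finset (Sym2 ℕ)) : (supp E).card ≤ E.card * 2 := by
  unfold supp
  refine Finset.card_biUnion_le_card_mul _ _ _ ?_
  intro e _
  rw [Sym2.card_toFinset]
  split_ifs <;> omega

theorem other {E : Finset (Sym2 ℕ)} {v : ℕ} (h : 2 ≤ deg E v) (e : Sym2 ℕ) :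
    ∃ e' ∈ E, v ∈ e' ∧ e' ≠ e := by
  unfold deg at h
  obtain ⟨a, ha, b, hb, hab⟩ := Finset.one_lt_card.1 (show 1 < (E.filter (fun e => v ∈ e)).card by
    omega)
  rw [Finset.mem_filter] at ha hb
  by_cases h1 : a = e
  · exact ⟨b, hb.1, hb.2, fun h2 => hab (h1.trans h2.symm)⟩
  · exact ⟨a, ha.1, ha.2, h1⟩

theorem deg_pos {E : Finset (Sym2 ℕ)} {v : ℕ} {e : Sym2 ℕ} (he : e ∈ E) (hv : v ∈ e) :
    0 < deg E v := by
  unfold deg
  exact Finset.card_pos.2 ⟨e, Finset.mem_filter.2 ⟨he, hv⟩⟩

end MEASx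

open MEASx

theorem MEAS1_holds : MEAS1 := by
  classical
  intro E x hE hY
  set Y := evn E x with hYd
  set R := Y.image (fun y => s(x, y)) with hR
  have hYm : ∀ y ∈ Y, s(x, y) ∈ E ∧ Even (deg E y) := by
    intro y hy
    rw [hYd] at hy
    unfold evn at hy
    exact (Finset.mem_filter.1 hy).2
  have hRE : R ⊆ E := by
    intro e he
    rw [hR, Finset.mem_image] at he
    obtain ⟨y, hy, rfl⟩ := he
    exact (hYm y hy).1
  have hRc : R.card = Y.card := by
    rw [hR]
    apply Finset.card_image_of_injective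
    intro a b hab
    exact Sym2.congr_right.1 hab
  have h1 : (E \ R).card + Y.card = E.card := by
    rw [← hRc]
    exact Finset.card_sdiff_add_card_eq_card hRE
  have h2 : 1 ≤ Y.card := Finset.card_pos.2 hY
  have h3 : supp E ⊆ insert x (supp (E \ R)) := by
    intro v hv
    rw [Finset.mem_insert]
    by_cases hvx : v = x
    · exact Or.inl hvx
    right
    obtain ⟨e, he, hve⟩ := mem_supp.1 hv
    rw [mem_supp]
    by_cases heR : e ∈ R
    · rw [hR, Finset.mem_image] at heR
      obtain ⟨y, hy, rfl⟩ := heR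
      have hvy : v = y := by
        rcases Sym2.mem_iff.1 hve with h | h
        · exact absurd h hvx
        · exact h
      subst hvy
      have h4 := (hYm v hy).2
      have h5 := deg_pos he hve
      have h6 : 2 ≤ deg E v := by
        obtain ⟨k, hk⟩ := h4
        omega
      obtain ⟨e', he', hve', hne⟩ := other h6 s(x, v)
      refine ⟨e', Finset.mem_sdiff.2 ⟨he', ?_⟩, hve'⟩
      intro hc
      rw [hR, Finset.mem_image] at hc
      obtain ⟨y', hy', rfl⟩ := hc
      rcases Sym2.mem_iff.1 hve' with h | h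
      · exact hvx h
      · exact hne (by rw [← h])
    · exact ⟨e, Finset.mem_sdiff.2 ⟨he, heR⟩, hve⟩
  have h4 : (supp E).card ≤ (supp (E \ R)).card + 1 :=
    (Finset.card_le_card h3).trans (Finset.card_insert_le _ _)
  have h5 := card_supp_le E
  have h6 := card_supp_le (E \ R)
  unfold mu
  omega

theorem MEAS2_holds : MEAS2 := by
  classical
  intro E x y z hE hodd hxy hx hz
  have hzE : ∀ e ∈ E, z ∉ e := fun e he hc => hz (mem_supp.2 ⟨e, he, hc⟩)
  have hzy : z ≠ y := by
    rintro rfl
    exact hzE _ hxy (Sym2.mem_mk_right _ _)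
  constructor
  · intro e he
    rw [Finset.mem_insert] at he
    rcases he with rfl | he
    · rw [Sym2.mk_isDiag_iff]
      exact hzy
    · exact hE e (Finset.mem_of_mem_erase he)
  · have h1 : s(z, y) ∉ E.erase s(x, y) := by
      intro hc
      exact hzE _ (Finset.mem_of_mem_erase hc) (Sym2.mem_mk_left _ _)
    have h2 : (insert s(z, y) (E.erase s(x, y))).card = E.card := by
      rw [Finset.card_insert_of_notMem h1, Finset.card_erase_of_mem hxy]
      have := Finset.card_pos.2 ⟨_, hxy⟩
      omega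
    have h3 : insert z (supp E) ⊆ supp (insert s(z, y) (E.erase s(x, y))) := by
      intro v hv
      rw [mem_supp]
      rw [Finset.mem_insert] at hv
      rcases hv with rfl | hv
      · exact ⟨_, Finset.mem_insert_self _ _, Sym2.mem_mk_left _ _⟩
      obtain ⟨e, he, hve⟩ := mem_supp.1 hv
      by_cases h4 : e = s(x, y)
      · subst h4
        rcases Sym2.mem_iff.1 hve with rfl | rfl
        · obtain ⟨e', he', hve', hne⟩ := other (show 2 ≤ deg E v by omega) s(v, y)
          exact ⟨e', Finset.mem_insert_of_mem (Finset.mem_erase.2 ⟨hne, he'⟩), hve'⟩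
        · exact ⟨_, Finset.mem_insert_self _ _, Sym2.mem_mk_right _ _⟩
      · exact ⟨e, Finset.mem_insert_of_mem (Finset.mem_erase.2 ⟨h4, he⟩), hve⟩
    have h4 := Finset.card_le_card h3
    rw [Finset.card_insert_of_notMem hz] at h4
    have h5 := card_supp_le (insert s(z, y) (E.erase s(x, y)))
    unfold mu
    omega

end Pool.Agent.W722.PO
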