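import Pool.Agent.W722.PO.Stm2

set_option autoImplicit false

namespace Pool.Agent.W722.PO

namespace PAIRx

theorem pm_append (l : List ℕ) (a : ℕ) (r : List ℕ) :
    pm (l ++ a :: r) = pm (l ++ [a]) + pm (a :: r) := by
  induction l with
  | nil => simp [pm]
  | cons b l ih =>
    cases l with
    | nil => simp [pm]
    | cons c l =>
      simp only [List.cons_append, pm] at ih ⊢
      rw [ih, Multiset.cons_add]

theorem pm_reverse (l : List ℕ) : pm l.reverse = pm l := by
  induction l with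
  | nil => rfl
  | cons a l ih =>
    cases l with
    | nil => rfl
    | cons b t =>
      have h : (a :: b :: t).reverse = t.reverse ++ b :: [a] := by simp
      rw [h, pm_append]
      have h2 : t.reverse ++ [b] = (b :: t).reverse := by simp
      rw [h2, ih]
      show pm (b :: t) + (s(b, a) ::ₘ (0 : Multiset (Sym2 ℕ))) = s(a, b) ::ₘ pm (b :: t)
      rw [Sym2.eq_swap (a := b) (b := a), Multiset.add_cons, add_zero]

theorem cm_rot (l : List ℕ) (v : ℕ) (t : List ℕ) : cm (l ++ v :: t) = cm (v :: (t ++ l)) := by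
  cases l with
  | nil => simp
  | cons a l =>
    have h1 : cm (a :: l ++ v :: t) = pm ((a :: l) ++ v :: (t ++ [a])) := by
      simp [cm]
    have h2 : cm (v :: (t ++ a :: l)) = pm ((v :: t) ++ a :: (l ++ [v])) := by
      simp [cm]
    rw [h1, h2, pm_append, pm_append (v :: t)]
    have h3 : (a :: l) ++ [v] = a :: (l ++ [v]) := by simp
    have h4 : (v :: t) ++ [a] = v :: (t ++ [a]) := by simp
    rw [h3, h4, add_comm]

theorem cm_rev (v : ℕ) (t : List ℕ) : cm (v :: t.reverse) = cm (v :: t) := by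
  show pm (v :: (t.reverse ++ [v])) = pm (v :: (t ++ [v]))
  rw [← pm_reverse (v :: (t ++ [v]))]
  congr 1
  simp

theorem mem_pm : ∀ (l : List ℕ) (e : Sym2 ℕ), e ∈ pm l → ∀ v ∈ e, v ∈ l
  | [], e, he, v, _ => by simp [pm] at he
  | [_], e, he, v, _ => by simp [pm] at he
  | a :: b :: t, e, he, v, hv => by
    rw [pm, Multiset.mem_cons] at he
    rcases he with rfl | he
    · rcases Sym2.mem_iff.1 hv with rfl | rfl
      · simp
      · simp
    · exact List.mem_cons_of_mem _ (mem_pm (b :: t) e he v hv)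

theorem headEdge (x a : ℕ) (w : List ℕ) (hx : x ∉ w) (h : s(x, a) ∈ pm (x :: w)) :
    ∃ w', w = a :: w' := by
  cases w with
  | nil => simp [pm] at h
  | cons b w' =>
    rw [pm, Multiset.mem_cons] at h
    rcases h with h | h
    · have h2 : a = b := Sym2.congr_right.1 h
      exact ⟨w', by rw [h2]⟩
    · exact absurd (mem_pm _ _ h x (Sym2.mem_mk_left x a)) hx

theorem rotTo (C : List ℕ) (hC : IsC C) (x a : ℕ) (h : s(x, a) ∈ cm C) (hxC : x ∈ C) :
    ∃ t, (x :: a :: t).Nodup ∧ (∀ v, v ∈ x :: a :: t ↔ v ∈ C) ∧ cm (x :: a :: t) = cm C := by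
  obtain ⟨l, r, rfl⟩ := List.append_of_mem hxC
  have hp : (l ++ x :: r).Perm (x :: (r ++ l)) := by
    have h1 : (l ++ x :: r).Perm (x :: r ++ l) := List.perm_append_comm
    simpa using h1
  have hnd : (x :: (r ++ l)).Nodup := hp.nodup_iff.1 hC.2
  have hlen : 3 ≤ (x :: (r ++ l)).length := by rw [← hp.length_eq]; exact hC.1
  rw [cm_rot] at h
  rw [cm_rot]
  have hmem : ∀ v, v ∈ x :: (r ++ l) ↔ v ∈ l ++ x :: r := fun v => hp.symm.mem_iff
  generalize r ++ l = u at h hnd hlen hmem
  have hxu : x ∉ u := (List.nodup_cons.1 hnd).1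
  have h0 : s(x, a) ∈ pm (x :: (u ++ [x])) := h
  cases u with
  | nil => simp at hlen
  | cons b u' =>
    have h1 : pm (x :: ((b :: u') ++ [x])) = s(x, b) ::ₘ pm ((b :: u') ++ [x]) := rfl
    rw [h1, Multiset.mem_cons] at h0
    rcases h0 with h0 | h0
    · have h2 : a = b := Sym2.congr_right.1 h0
      subst h2
      exact ⟨u', hnd, hmem, rfl⟩
    · rw [← pm_reverse] at h0
      have h3 : ((b :: u') ++ [x]).reverse = x :: (b :: u').reverse := by simp
      rw [h3] at h0
      have h4 : x ∉ (b :: u').reverse := by rw [List.mem_reverse]; exact hxu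
      obtain ⟨t, ht⟩ := headEdge x a _ h4 h0
      refine ⟨t, ?_, ?_, ?_⟩
      · rw [← ht]
        exact List.nodup_cons.2 ⟨h4, List.nodup_reverse.2 (List.nodup_cons.1 hnd).2⟩
      · intro v
        rw [← ht, ← hmem v, List.mem_cons, List.mem_cons, List.mem_reverse]
      · rw [← ht, cm_rev]

theorem nodupP (x a b : ℕ) (t : List ℕ) (h : (x :: a :: t).Nodup) (hb : b ∉ x :: a :: t) :
    ((a :: t) ++ [x, b]).Nodup := by
  have h1 := List.nodup_cons.1 h
  have hbx : b ≠ x := fun e => hb (by rw [e]; simp)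
  have hb2 : b ∉ a :: t := fun e => hb (List.mem_cons_of_mem _ e)
  rw [List.nodup_append]
  refine ⟨h1.2, ?_, ?_⟩
  · simp [Ne.symm hbx]
  · intro v hv w hw
    rcases List.mem_cons.1 hw with rfl | hw
    · rintro rfl
      exact h1.1 hv
    · rw [List.mem_singleton] at hw
      subst hw
      rintro rfl
      exact hb2 hv

end PAIRx

open PAIRx in
theorem PAIR_holds : PAIR := by
  intro C D hC hD hS
  unfold Star at hS
  push Not at hS
  obtain ⟨x, hxC, hxD, ⟨a, ha, haD⟩, ⟨b, hb, hbC⟩⟩ := hS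
  obtain ⟨t, ht1, ht2, ht3⟩ := rotTo C hC x a ha hxC
  obtain ⟨r, hr1, hr2, hr3⟩ := rotTo D hD x b hb hxD
  have hb' : b ∉ x :: a :: t := fun h => hbC ((ht2 b).1 h)
  have ha' : a ∉ x :: b :: r := fun h => haD ((hr2 a).1 h)
  refine ⟨(a :: t) ++ [x, b], (b :: r) ++ [x, a], ⟨by simp, nodupP x a b t ht1 hb'⟩,
    ⟨by simp, nodupP x b a r hr1 ha'⟩, ?_, ?_, ?_⟩
  · intro v hv
    rw [List.mem_append] at hv
    rcases hv with hv | hv
    · exact Or.inl ((ht2 v).1 (List.mem_cons_of_mem _ hv))
    · rcases List.mem_cons.1 hv with rfl | hv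
      · exact Or.inl hxC
      · rw [List.mem_singleton] at hv
        subst hv
        exact Or.inr ((hr2 _).1 (by simp))
  · intro v hv
    rw [List.mem_append] at hv
    rcases hv with hv | hv
    · exact Or.inr ((hr2 v).1 (List.mem_cons_of_mem _ hv))
    · rcases List.mem_cons.1 hv with rfl | hv
      · exact Or.inl hxC
      · rw [List.mem_singleton] at hv
        subst hv
        exact Or.inl ((ht2 _).1 (by simp))
  · rw [← ht3, ← hr3, pm_append (a :: t) x [b], pm_append (b :: r) x [a]]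
    have e1 : cm (x :: a :: t) = {s(x, a)} + pm ((a :: t) ++ [x]) := rfl
    have e2 : cm (x :: b :: r) = {s(x, b)} + pm ((b :: r) ++ [x]) := rfl
    have e3 : pm [x, b] = {s(x, b)} := rfl
    have e4 : pm [x, a] = {s(x, a)} := rfl
    rw [e1, e2, e3, e4]
    abel

end Pool.Agent.W722.PO
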