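import Pool.Agent.W722.PO.Stm2

set_option autoImplicit false

namespace Pool.Agent.W722.PO

namespace PAIRSx

theorem csum_cons (C : List ℕ) (Cs : List (List ℕ)) : csum (C :: Cs) = cm C + csum Cs := by
  simp [csum]

theorem psum_cons (C : List ℕ) (Cs : List (List ℕ)) : psum (C :: Cs) = pm C + psum Cs := by
  simp [psum]

theorem csum_perm {Cs Ds : List (List ℕ)} (h : Cs.Perm Ds) : csum Cs = csum Ds := by
  unfold csum
  exact (h.map cm).sum_eq

end PAIRSx

open PAIRSx in
theorem PAIRS_holds : PAIR → PAIRS := by
  classical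
  intro hP Cs
  induction Cs with
  | nil =>
    intro _
    refine ⟨[], [], ?_, ?_, ?_, ?_, ?_, ?_⟩ <;> simp [csum, psum]
  | cons C Cs ih =>
    intro hC
    obtain ⟨Ps, Cs', h1, h2, h3, h4, h5, h6⟩ := ih (fun D hD => hC D (List.mem_cons_of_mem _ hD))
    by_cases hs : ∀ D ∈ Cs', Star C D
    · refine ⟨Ps, C :: Cs', h1, ?_, ?_, ?_, ?_, ?_⟩
      · intro c hc
        rcases List.mem_cons.1 hc with rfl | hc
        · exact List.mem_cons_self
        · exact List.mem_cons_of_mem _ (h2 c hc)
      · simp only [List.length_cons]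
        omega
      · rw [csum_cons, csum_cons, h4]
        abel
      · intro p hp v hv
        obtain ⟨c, hc, hvc⟩ := h5 p hp v hv
        exact ⟨c, List.mem_cons_of_mem _ hc, hvc⟩
      · exact List.pairwise_cons.2 ⟨hs, h6⟩
    · push Not at hs
      obtain ⟨D, hD, hst⟩ := hs
      obtain ⟨P, Q, hP1, hQ1, hPv, hQv, hsum⟩ := hP C D (hC C List.mem_cons_self)
        (hC D (List.mem_cons_of_mem _ (h2 D hD))) hst
      have hlen : (Cs'.erase D).length = Cs'.length - 1 := List.length_erase_of_mem hD
      have hpos : 0 < Cs'.length := List.length_pos_of_mem hD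
      have hcs : csum Cs' = cm D + csum (Cs'.erase D) := by
        rw [csum_perm (List.perm_cons_erase hD), csum_cons]
      refine ⟨P :: Q :: Ps, Cs'.erase D, ?_, ?_, ?_, ?_, ?_, ?_⟩
      · intro p hp
        rcases List.mem_cons.1 hp with rfl | hp
        · exact hP1
        rcases List.mem_cons.1 hp with rfl | hp
        · exact hQ1
        · exact h1 p hp
      · intro c hc
        exact List.mem_cons_of_mem _ (h2 c (List.mem_of_mem_erase hc))
      · simp only [List.length_cons]
        omega
      · rw [csum_cons, psum_cons, psum_cons, h4, hcs]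
        calc cm C + (psum Ps + (cm D + csum (Cs'.erase D))) =
            (cm C + cm D) + psum Ps + csum (Cs'.erase D) := by abel
          _ = _ := by rw [hsum]; abel
      · intro p hp v hv
        rcases List.mem_cons.1 hp with rfl | hp
        · rcases hPv v hv with h | h
          · exact ⟨C, List.mem_cons_self, h⟩
          · exact ⟨D, List.mem_cons_of_mem _ (h2 D hD), h⟩
        rcases List.mem_cons.1 hp with rfl | hp
        · rcases hQv v hv with h | h
          · exact ⟨C, List.mem_cons_self, h⟩
          · exact ⟨D, List.mem_cons_of_mem _ (h2 D hD), h⟩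
        · obtain ⟨c, hc, hvc⟩ := h5 p hp v hv
          exact ⟨c, List.mem_cons_of_mem _ hc, hvc⟩
      · exact h6.sublist List.erase_sublist

end Pool.Agent.W722.PO
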