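import Pool.Agent.W722.PO.Stm

set_option autoImplicit false

namespace Pool.Agent.W722.PO.PARx

open Pool.Agent.W722.PO

/-- number of edges at `v` -/
def cv (v : ℕ) (S : Multiset (Sym2 ℕ)) : ℕ := S.countP (fun e => v ∈ e)

theorem cv_add (v : ℕ) (S T : Multiset (Sym2 ℕ)) : cv v (S + T) = cv v S + cv v T := by
  unfold cv; exact Multiset.countP_add _ _ _

theorem par_list (v : ℕ) : ∀ l : List ℕ, l.IsChain (· ≠ ·) →
    Even (cv v (pm l) + (if l.head? = some v then 1 else 0) +
      (if l.getLast? = some v then 1 else 0))
  | [], _ => by simp [pm, cv]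
  | [a], _ => by
      by_cases h : a = v
      · simp [pm, cv, h]
      · simp [pm, cv, h]
  | a :: b :: t, hc => by
      have hab : a ≠ b := by
        rw [List.isChain_cons_cons] at hc
        exact hc.1
      have hc' : (b :: t).IsChain (· ≠ ·) := by
        rw [List.isChain_cons_cons] at hc
        exact hc.2
      have ih := par_list v (b :: t) hc'
      have e1 : cv v (pm (a :: b :: t)) =
          cv v (pm (b :: t)) + ((if a = v then 1 else 0) + (if b = v then 1 else 0)) := by
        have : pm (a :: b :: t) = s(a, b) ::ₘ pm (b :: t) := rfl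
        rw [this]
        unfold cv
        rw [Multiset.countP_cons]
        congr 1
        by_cases h1 : a = v
        · have h2 : b ≠ v := fun h => hab (h1.trans h.symm)
          simp [h1, h2]
        · by_cases h2 : b = v
          · simp [h1, h2]
          · have h3 : ¬ (v ∈ s(a, b)) := by
              rw [Sym2.mem_iff]
              rintro (h | h)
              · exact h1 h.symm
              · exact h2 h.symm
            simp [h1, h2, h3]
      have e2 : (a :: b :: t).getLast? = (b :: t).getLast? := by
        simp [List.getLast?_cons_cons]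
      have e3 : (if (b :: t).head? = some v then 1 else 0) = (if b = v then 1 else 0) := by
        simp
      have e4 : (if (a :: b :: t).head? = some v then 1 else 0) = (if a = v then 1 else 0) := by
        simp
      rw [e1, e2, e4]
      rw [e3] at ih
      have : cv v (pm (b :: t)) + ((if a = v then 1 else 0) + (if b = v then 1 else 0)) +
          (if a = v then 1 else 0) + (if (b :: t).getLast? = some v then 1 else 0) =
          (cv v (pm (b :: t)) + (if b = v then 1 else 0) +
            (if (b :: t).getLast? = some v then 1 else 0)) + 2 * (if a = v then 1 else 0) := by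
        ring
      rw [this]
      exact ih.add (even_two_mul _)

theorem nodup_chain {l : List ℕ} (h : l.Nodup) : l.IsChain (· ≠ ·) := by
  exact List.Pairwise.isChain h

theorem even_path {v : ℕ} {p : List ℕ} (hp : IsP p) (h : ¬ IsEnd v p) : Even (cv v (pm p)) := by
  have h1 := par_list v p (nodup_chain hp.2)
  unfold IsEnd at h
  push Not at h
  rw [if_neg h.1, if_neg h.2] at h1
  simpa using h1

theorem even_cycle (v : ℕ) {c : List ℕ} (hc : IsC c) : Even (cv v (cm c)) := by
  obtain ⟨h3, hn⟩ := hc
  match c, h3, hn with
  | a :: t, h3, hn =>
    have hn' := hn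
    rw [List.nodup_cons] at hn
    have ht : t ≠ [] := by
      rintro rfl
      simp at h3
    have hch : (a :: (t ++ [a])).IsChain (· ≠ ·) := by
      have e : a :: (t ++ [a]) = (a :: t) ++ [a] := by simp
      rw [e, List.isChain_append]
      refine ⟨nodup_chain hn', by simp, ?_⟩
      intro x hx y hy
      simp only [List.head?_cons, Option.mem_def, Option.some.injEq] at hy
      subst hy
      intro hxa
      have hx' : (a :: t).getLast? = some x := Option.mem_def.1 hx
      have h4 : (a :: t).getLast? = t.getLast? := by
        obtain ⟨b, s, rfl⟩ := List.exists_cons_of_ne_nil ht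
        simp [List.getLast?_cons_cons]
      rw [h4] at hx'
      have h5 := List.mem_of_getLast? hx'
      exact hn.1 (hxa ▸ h5)
    have h1 := par_list v _ hch
    have e1 : (a :: (t ++ [a])).head? = some a := rfl
    have e2 : (a :: (t ++ [a])).getLast? = some a := by
      have e : a :: (t ++ [a]) = (a :: t) ++ [a] := by simp
      rw [e, List.getLast?_append]
      simp
    rw [e1, e2] at h1
    have h2 : cm (a :: t) = pm (a :: (t ++ [a])) := rfl
    rw [h2]
    have h5 : cv v (pm (a :: (t ++ [a]))) + (if some a = some v then 1 else 0) +
        (if some a = some v then 1 else 0) =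
        cv v (pm (a :: (t ++ [a]))) + 2 * (if some a = some v then 1 else 0) := by ring
    rw [h5, Nat.even_add] at h1
    exact h1.2 (even_two_mul _)

theorem even_sum (v : ℕ) (f : List ℕ → Multiset (Sym2 ℕ)) : ∀ L : List (List ℕ),
    (∀ l ∈ L, Even (cv v (f l))) → Even (cv v (L.map f).sum)
  | [], _ => by simp [cv]
  | l :: L, h => by
      rw [List.map_cons, List.sum_cons, cv_add]
      exact (h l (by simp)).add (even_sum v f L fun l' hl' => h l' (by simp [hl']))

end Pool.Agent.W722.PO.PARx

namespace Pool.Agent.W722.PO

open PARx

theorem PAR_holds : PAR := by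
  intro E Ps Cs v _ hD hodd
  obtain ⟨hP, hC, hE⟩ := hD
  by_contra hcon
  push Not at hcon
  have h1 : Even (cv v (psum Ps + csum Cs)) := by
    rw [cv_add]
    refine Even.add ?_ ?_
    · exact even_sum v pm Ps fun p hp => even_path (hP p hp) (hcon p hp)
    · exact even_sum v cm Cs fun c hc => even_cycle v (hC c hc)
  rw [hE] at h1
  have h2 : cv v E.val = deg E v := by
    unfold cv deg
    rw [Multiset.countP_eq_card_filter]
    rfl
  rw [h2] at h1
  exact (Nat.not_even_iff_odd.2 hodd) h1

end Pool.Agent.W722.PO
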