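import Pool.Agent.W722.PO.Stm2

set_option autoImplicit false

namespace Pool.Agent.W722.PO

namespace PHASE2x

lemma par_add (S T : Multiset (Sym2 ℕ)) : par (S + T) = par S + par T := by
  funext e
  simp [par, Multiset.count_add]

lemma par_zero : par 0 = 0 := by
  funext e
  simp [par]

lemma csum_erase {Cs : List (List ℕ)} {C : List ℕ} (h : C ∈ Cs) :
    csum Cs = cm C + csum (Cs.erase C) := by
  unfold csum
  have h1 := ((List.perm_cons_erase h).map cm).sum_eq
  rw [h1]
  simp

lemma csum_le {Cs' Cs : List (List ℕ)} (h : Cs'.Sublist Cs) : csum Cs' ≤ csum Cs := by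
  induction h with
  | slnil => exact le_rfl
  | cons a _ ih =>
    refine ih.trans ?_
    simp only [csum, List.map_cons, List.sum_cons]
    exact Multiset.le_add_left _ _
  | cons_cons a _ ih =>
    simp only [csum, List.map_cons, List.sum_cons] at ih ⊢
    exact (add_le_add_iff_left _).2 ih

lemma good_sub {M : ℕ} {Cs' Cs : List (List ℕ)} (h : Cs'.Sublist Cs) (hg : Good M Cs) :
    Good M Cs' :=
  ⟨fun C hC => hg.1 C (h.subset hC), Multiset.nodup_of_le (csum_le h) hg.2.1,
    hg.2.2.1.sublist h, fun C hC => hg.2.2.2 C (h.subset hC)⟩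

lemma not_cov {b0 : ℕ} {C : List ℕ} (hC : IsC C) (h : Cov [b0] C) : False := by
  obtain ⟨hl, hnd⟩ := hC
  match C, hl, hnd, h with
  | a :: b :: c :: t, _, hnd, h =>
    have hcm : cm (a :: b :: c :: t) = pm (a :: b :: c :: (t ++ [a])) := rfl
    obtain ⟨d, L, hdL⟩ : ∃ d L, t ++ [a] = d :: L :=
      List.exists_cons_of_ne_nil (by simp)
    have hd : d ∈ t ∨ d = a := by
      have : d ∈ t ++ [a] := by rw [hdL]; simp
      simpa using this
    have hpm : pm (a :: b :: c :: (t ++ [a])) =
        s(a, b) ::ₘ s(b, c) ::ₘ s(c, d) ::ₘ pm (d :: L) := by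
      rw [hdL]; rfl
    rw [hpm] at hcm
    have e1 := h a b (by rw [hcm]; simp)
    have e2 := h b c (by rw [hcm]; simp)
    have e3 := h c d (by rw [hcm]; simp)
    simp only [List.mem_singleton] at e1 e2 e3
    simp only [List.nodup_cons, List.mem_cons, not_or] at hnd
    obtain ⟨⟨hab, hac, hat⟩, ⟨hbc, hbt⟩, hct, _⟩ := hnd
    have hdb : d ≠ b := by
      rintro rfl
      rcases hd with h1 | h1
      · exact hbt h1
      · exact hab h1.symm
    by_cases hb : b = b0
    · rcases e3 with h1 | h1
      · exact hbc (hb.trans h1.symm)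
      · exact hdb (h1.trans hb.symm)
    · rcases e1 with h1 | h1
      · rcases e2 with h2 | h2
        · exact hb h2
        · exact hac (h1.trans h2.symm)
      · exact hb h1

lemma step (habs : ABS2) (hA : CNTA) (hCc : CNTC) (M : ℕ) (Cs : List (List ℕ))
    (hG : Good M Cs) (n : ℕ) :
    ∀ (B : List ℕ) (s : ℕ) (Ps Cs' : List (List ℕ)), Cs'.length = n → IsP B →
      B.length ≤ 2 * s + 1 → (∀ p ∈ Ps, IsP p) → Ps.length = s → Cs'.Sublist Cs →
      Cs'.length + s = Cs.length →
      (∀ p ∈ Ps, ∀ v ∈ p, ∃ c ∈ Cs, v ∈ c) → (∀ v ∈ B, ∃ c ∈ Cs, v ∈ c) →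
      par (csum Cs) = par (psum Ps) + par (csum Cs') + par (pm B) →
      ∃ (Ps Cs' : List (List ℕ)) (s : ℕ), (∀ p ∈ Ps, IsP p) ∧ Cs'.Sublist Cs ∧
        Ps.length = s + 1 ∧ Cs'.length + s = Cs.length ∧
        (∀ p ∈ Ps, ∀ v ∈ p, ∃ c ∈ Cs, v ∈ c) ∧
        par (csum Cs) = par (psum Ps) + par (csum Cs') ∧ Cs.length ≤ 15 * s := by
  classical
  induction n with
  | zero =>
    intro B s Ps Cs' hn hB hBl hPs hPl hsub hlen hvP hvB hpar
    refine ⟨Ps ++ [B], Cs', s, ?_, hsub, by simp [hPl], hlen, ?_, ?_, by omega⟩
    · intro p hp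
      rcases List.mem_append.1 hp with h | h
      · exact hPs p h
      · rw [List.mem_singleton.1 h]; exact hB
    · intro p hp
      rcases List.mem_append.1 hp with h | h
      · exact hvP p h
      · rw [List.mem_singleton.1 h]; exact hvB
    · have h1 : psum (Ps ++ [B]) = psum Ps + pm B := by simp [psum]
      rw [h1, par_add, hpar]
      abel
  | succ n ih =>
    intro B s Ps Cs' hn hB hBl hPs hPl hsub hlen hvP hvB hpar
    have hG' := good_sub hsub hG
    by_cases hall : ∀ C ∈ Cs', TwoAt B C ∨ Cov B C
    · have hs1 : 1 ≤ s := by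
        by_contra hs
        have hs0 : s = 0 := by omega
        subst hs0
        have hB1 : B.length = 1 := by
          have := List.length_pos_iff.2 hB.1
          omega
        obtain ⟨b0, rfl⟩ := List.length_eq_one_iff.1 hB1
        obtain ⟨C, hC⟩ := List.exists_mem_of_length_pos (l := Cs') (by omega)
        rcases hall C hC with h | h
        · obtain ⟨b, u, w, _, huw, hu, hw, _⟩ := h
          rw [List.mem_singleton] at hu hw
          exact huw (hu.trans hw.symm)
        · exact not_cov (hG'.1 C hC) h
      set T := Cs'.filter (fun C => decide (TwoAt B C)) with hT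
      set U := Cs'.filter (fun C => !decide (TwoAt B C)) with hU
      have hTs : T.Sublist Cs' := List.filter_sublist
      have hUs : U.Sublist Cs' := List.filter_sublist
      have hlenTU : Cs'.length = T.length + U.length :=
        List.length_eq_length_filter_add (fun C => decide (TwoAt B C))
      have hGT := good_sub hTs hG'
      have hGU := good_sub hUs hG'
      have c1 := hA B T hB hGT.1 hGT.2.1 (by
        intro C hC
        have := (List.mem_filter.1 hC).2
        simpa using this)
      have c2 := hCc M B U hB hGU (by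
        intro C hC
        have h1 := (List.mem_filter.1 hC).2
        have h2 : ¬ TwoAt B C := by simpa using h1
        exact (hall C (List.mem_filter.1 hC).1).resolve_left h2)
      refine ⟨Ps ++ [B], Cs', s, ?_, hsub, by simp [hPl], hlen, ?_, ?_, by omega⟩
      · intro p hp
        rcases List.mem_append.1 hp with h | h
        · exact hPs p h
        · rw [List.mem_singleton.1 h]; exact hB
      · intro p hp
        rcases List.mem_append.1 hp with h | h
        · exact hvP p h
        · rw [List.mem_singleton.1 h]; exact hvB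
      · have h1 : psum (Ps ++ [B]) = psum Ps + pm B := by simp [psum]
        rw [h1, par_add, hpar]
        abel
    · push Not at hall
      obtain ⟨C, hC, hnot1, hnot2⟩ := hall
      have hCC : IsC C := hG'.1 C hC
      rcases habs B C hB hCC with h | h | ⟨P, B', hP, hB', hvP', hvB', hl', hpar'⟩
      · exact absurd h hnot1
      · exact absurd h hnot2
      · have he := csum_erase hC
        have hlen1 : (Cs'.erase C).length = n := by
          rw [List.length_erase_of_mem hC, hn]; rfl
        refine ih B' (s + 1) (P :: Ps) (Cs'.erase C) hlen1 hB' (by omega) ?_ (by simp [hPl])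
          (List.erase_sublist.trans hsub) (by omega) ?_ ?_ ?_
        · intro p hp
          rcases List.mem_cons.1 hp with h | h
          · rw [h]; exact hP
          · exact hPs p h
        · intro p hp v hv
          rcases List.mem_cons.1 hp with h | h
          · rw [h] at hv
            rcases hvP' v hv with h2 | h2
            · exact hvB v h2
            · exact ⟨C, hsub.subset hC, h2⟩
          · exact hvP p h v hv
        · intro v hv
          rcases hvB' v hv with h2 | h2
          · exact hvB v h2
          · exact ⟨C, hsub.subset hC, h2⟩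
        · have h1 : psum (P :: Ps) = pm P + psum Ps := by simp [psum]
          rw [h1, par_add, hpar, he, par_add]
          calc par (psum Ps) + (par (cm C) + par (csum (Cs'.erase C))) + par (pm B)
              = par (psum Ps) + par (csum (Cs'.erase C)) + (par (cm C) + par (pm B)) := by abel
            _ = par (psum Ps) + par (csum (Cs'.erase C)) + (par (pm P) + par (pm B')) := by
                rw [hpar']
            _ = par (pm P) + par (psum Ps) + par (csum (Cs'.erase C)) + par (pm B') := by abel

end PHASE2x

open PHASE2x in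
theorem PHASE2_holds : ABS2 → CNTA → CNTC → PHASE2 := by
  intro habs hA hCc M Cs hG hne
  obtain ⟨c, t, rfl⟩ := List.exists_cons_of_ne_nil hne
  have hc : IsC c := hG.1 c (by simp)
  have hcne : c ≠ [] := by
    intro h
    have := hc.1
    rw [h] at this
    simp at this
  obtain ⟨b0, u, rfl⟩ := List.exists_cons_of_ne_nil hcne
  refine step habs hA hCc M _ hG _ [b0] 0 [] ((b0 :: u) :: t) rfl ⟨by simp, by simp⟩ (by simp)
    (by simp) rfl (List.Sublist.refl _) (by simp) (by simp) ?_ ?_
  · intro v hv
    rw [List.mem_singleton.1 hv]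
    exact ⟨b0 :: u, by simp, by simp⟩
  · have h1 : psum [] = 0 := by simp [psum]
    have h2 : pm [b0] = 0 := rfl
    rw [h1, h2, par_zero]
    simp

end Pool.Agent.W722.PO
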