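import Pool.Agent.W722.PO.Stm

set_option autoImplicit false

namespace Pool.Agent.W722.PO

namespace S1x

theorem csum_append (a b : List (List ℕ)) : csum (a ++ b) = csum a + csum b := by
  simp [csum]

theorem sym_inj {x : ℕ} {y z : ℕ} (h : s(x, y) = s(x, z)) : y = z := by
  rw [Sym2.eq_iff] at h
  rcases h with ⟨_, h⟩ | ⟨h1, h2⟩
  · exact h
  · rw [h2, h1]

theorem mem_psum_of {E' : Finset (Sym2 ℕ)} {Ps Cs : List (List ℕ)}
    (h : psum Ps + csum Cs = E'.val) {e : Sym2 ℕ} (he : e ∈ psum Ps) : e ∈ E' := by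
  have h1 : e ∈ psum Ps + csum Cs := Multiset.mem_add.2 (Or.inl he)
  rw [h] at h1
  exact h1

end S1x

open S1x in
theorem S1_holds : PAR → CHN → S1 := by
  intro hPAR hCHN E x hE hY hBd
  set Y := evn E x with hYdef
  set I := Y.image (fun y => s(x, y)) with hI
  have hYmem : ∀ y, y ∈ Y ↔ y ∈ supp E ∧ s(x, y) ∈ E ∧ Even (deg E y) := by
    intro y
    rw [hYdef, evn, Finset.mem_filter]
  have hIE : I ⊆ E := by
    intro e he
    rw [hI, Finset.mem_image] at he
    obtain ⟨y, hy, rfl⟩ := he
    exact ((hYmem y).1 hy).2.1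
  have hIff : ∀ v, s(x, v) ∈ I ↔ v ∈ Y := by
    intro v
    rw [hI, Finset.mem_image]
    constructor
    · rintro ⟨y, hy, hyv⟩
      rw [← sym_inj hyv]
      exact hy
    · intro hv
      exact ⟨v, hv, rfl⟩
  have hxv : ∀ v, s(x, v) ∈ E → v ≠ x := by
    intro v hv h0
    subst h0
    exact hE _ hv (by simp)
  have hE' : NoLoop (E \ I) := fun e he => hE e (Finset.mem_sdiff.1 he).1
  obtain ⟨Ps, Cs, ⟨hP, hC, hsum⟩, hlen⟩ := hBd
  have hnd : (psum Ps).Nodup := by
    refine Multiset.nodup_of_le ?_ (E \ I).nodup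
    rw [← hsum]
    exact Multiset.le_add_right _ _
  have hxY : x ∉ Y := fun h => hxv x ((hYmem x).1 h).2.1 rfl
  have hdisj : ∀ y ∈ Y, s(x, y) ∉ psum Ps := by
    intro y hy h
    have h1 := mem_psum_of hsum h
    exact (Finset.mem_sdiff.1 h1).2 ((hIff y).2 hy)
  have hends : ∀ v, (v ∈ Y ∨ s(x, v) ∈ psum Ps) → ∃ p ∈ Ps, IsEnd v p := by
    intro v hv
    apply hPAR (E \ I) Ps Cs v hE' ⟨hP, hC, hsum⟩
    rcases hv with hv | hv
    · obtain ⟨_, h2, h3⟩ := (hYmem v).1 hv
      have hvx := hxv v h2
      have h4 : (E \ I).filter (fun e => v ∈ e) = (E.filter (fun e => v ∈ e)).erase s(x, v) := by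
        ext e
        simp only [Finset.mem_filter, Finset.mem_sdiff, Finset.mem_erase]
        constructor
        · rintro ⟨⟨ha, hb⟩, hc⟩
          refine ⟨?_, ha, hc⟩
          rintro rfl
          exact hb ((hIff v).2 hv)
        · rintro ⟨ha, hb, hc⟩
          refine ⟨⟨hb, ?_⟩, hc⟩
          intro hd
          rw [hI, Finset.mem_image] at hd
          obtain ⟨y, hy, rfl⟩ := hd
          rw [Sym2.mem_iff] at hc
          rcases hc with hc | hc
          · exact hvx hc
          · subst hc
            exact ha rfl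
      have h5 : s(x, v) ∈ E.filter (fun e => v ∈ e) := by
        rw [Finset.mem_filter]
        exact ⟨h2, Sym2.mem_mk_right x v⟩
      have h6 : deg (E \ I) v + 1 = deg E v := by
        unfold deg
        rw [h4]
        exact Finset.card_erase_add_one h5
      rw [← h6] at h3
      rcases Nat.even_or_odd (deg (E \ I) v) with h7 | h7
      · exact absurd h3 (by rw [Nat.even_add_one]; exact fun h => h h7)
      · exact h7
    · have h1 := mem_psum_of hsum hv
      obtain ⟨h2, h3⟩ := Finset.mem_sdiff.1 h1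
      have hvY : v ∉ Y := fun h => h3 ((hIff v).2 h)
      have hvx := hxv v h2
      have hsupp : v ∈ supp E := by
        rw [supp, Finset.mem_biUnion]
        refine ⟨s(x, v), h2, ?_⟩
        rw [Sym2.mem_toFinset]
        exact Sym2.mem_mk_right x v
      have h4 : (E \ I).filter (fun e => v ∈ e) = E.filter (fun e => v ∈ e) := by
        ext e
        simp only [Finset.mem_filter, Finset.mem_sdiff]
        constructor
        · rintro ⟨⟨ha, hb⟩, hc⟩
          exact ⟨ha, hc⟩
        · rintro ⟨hb, hc⟩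
          refine ⟨⟨hb, ?_⟩, hc⟩
          intro hd
          rw [hI, Finset.mem_image] at hd
          obtain ⟨y, hy, rfl⟩ := hd
          rw [Sym2.mem_iff] at hc
          rcases hc with hc | hc
          · exact hvx hc
          · subst hc
            exact hvY hy
      have h5 : deg (E \ I) v = deg E v := by
        unfold deg
        rw [h4]
      rw [h5, ← Nat.not_even_iff_odd]
      intro h6
      exact hvY ((hYmem v).2 ⟨hsupp, h2, h6⟩)
  obtain ⟨Ps', Cs', hP', hC', hl, hs⟩ := hCHN Ps x Y hP hnd hxY hdisj hends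
  refine ⟨Ps', Cs' ++ Cs, ⟨hP', ?_, ?_⟩, ?_⟩
  · intro c hc
    rcases List.mem_append.1 hc with hc | hc
    · exact hC' c hc
    · exact hC c hc
  · rw [csum_append, ← add_assoc, hs]
    have h1 : Y.val.map (fun y => s(x, y)) = I.val := by
      rw [hI]
      symm
      apply Finset.image_val_of_injOn
      intro a _ b _ hab
      exact sym_inj hab
    rw [h1]
    have h2 : psum Ps + I.val + csum Cs = (psum Ps + csum Cs) + I.val := by
      rw [add_assoc, add_comm I.val, ← add_assoc]
    rw [h2, hsum, Finset.sdiff_val]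
    exact tsub_add_cancel_of_le (Finset.val_le_iff.2 hIE)
  · rw [List.length_append]
    have h1 : supp (E \ I) ⊆ supp E := by
      unfold supp
      exact Finset.biUnion_subset_biUnion_of_subset_left _ Finset.sdiff_subset
    have h2 := Nat.div_le_div_right (c := 2) (Finset.card_le_card h1)
    omega

end Pool.Agent.W722.PO
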