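import Pool.Agent.W722.PO.Stm

set_option autoImplicit false

/-! S2: splitting off a new vertex -/

namespace Pool.Agent.W722.PO
namespace S2x

theorem pm_concat (t : List ℕ) (y z : ℕ) : pm (t ++ [y, z]) = s(y, z) ::ₘ pm (t ++ [y]) := by
  induction t with
  | nil => rfl
  | cons a t ih =>
    cases t with
    | nil =>
      show s(a, y) ::ₘ s(y, z) ::ₘ (0 : Multiset (Sym2 ℕ)) = s(y, z) ::ₘ s(a, y) ::ₘ 0
      exact Multiset.cons_swap _ _ _
    | cons b t =>
      show s(a, b) ::ₘ pm ((b :: t) ++ [y, z]) = s(y, z) ::ₘ s(a, b) ::ₘ pm ((b :: t) ++ [y])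
      rw [ih]
      exact Multiset.cons_swap _ _ _

theorem endcase (z y : ℕ) : ∀ p : List ℕ, p.Nodup → s(z, y) ∈ pm p →
    (∀ w, s(z, w) ∈ pm p → w = y) → (∃ t, p = z :: y :: t) ∨ (∃ t, p = t ++ [y, z]) := by
  intro p
  induction p with
  | nil =>
    intro _ h
    exact absurd h (Multiset.notMem_zero _)
  | cons a q ih =>
    intro hn hm hw
    cases q with
    | nil => exact absurd hm (Multiset.notMem_zero _)
    | cons b t =>
      have hpm : pm (a :: b :: t) = s(a, b) ::ₘ pm (b :: t) := rfl
      rw [hpm] at hm hw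
      rcases Multiset.mem_cons.1 hm with h | h
      · rcases Sym2.eq_iff.1 h with ⟨h1, h2⟩ | ⟨h1, h2⟩
        · left
          exact ⟨t, by rw [h1, h2]⟩
        · cases t with
          | nil =>
            right
            exact ⟨[], by rw [h1, h2]; rfl⟩
          | cons d t' =>
            exfalso
            have h3 : d = y := hw d (Multiset.mem_cons_of_mem (by
              rw [h1]
              exact Multiset.mem_cons_self _ _))
            rw [h3, ← h2] at hn
            simp at hn
      · have hn' : (b :: t).Nodup := (List.nodup_cons.1 hn).2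
        rcases ih hn' h (fun w hw' => hw w (Multiset.mem_cons_of_mem hw')) with ⟨t', ht'⟩ | ⟨t', ht'⟩
        · exfalso
          have hb : b = z := (List.cons.inj ht').1
          have ha : a = y := hw a (by
            rw [hb, Sym2.eq_swap]
            exact Multiset.mem_cons_self _ _)
          rw [ht', ha] at hn
          simp at hn
        · right
          exact ⟨a :: t', by rw [ht']; rfl⟩

theorem cut (z y : ℕ) (p : List ℕ) (hn : p.Nodup) (hm : s(z, y) ∈ pm p)
    (hw : ∀ w, s(z, w) ∈ pm p → w = y) :
    ∃ p1 : List ℕ, IsP p1 ∧ pm p = s(z, y) ::ₘ pm p1 ∧ IsEnd y p1 ∧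
      ∀ v, IsEnd v p → v = z ∨ IsEnd v p1 := by
  rcases endcase z y p hn hm hw with ⟨t, rfl⟩ | ⟨t, rfl⟩
  · refine ⟨y :: t, ⟨by simp, (List.nodup_cons.1 hn).2⟩, rfl, Or.inl rfl, ?_⟩
    intro v hv
    rcases hv with hv | hv
    · left
      simpa using hv.symm
    · right
      right
      rw [← hv]
      rw [List.getLast?_cons_cons]
  · refine ⟨t ++ [y], ⟨by simp, ?_⟩, ?_, ?_, ?_⟩
    · have h : t ++ [y, z] = (t ++ [y]) ++ [z] := by simp
      rw [h] at hn
      exact (List.nodup_append.1 hn).1
    · rw [pm_concat, Sym2.eq_swap]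
    · right
      simp
    · intro v hv
      rcases hv with hv | hv
      · right
        left
        rw [← hv]
        cases t <;> rfl
      · left
        have h : t ++ [y, z] = (t ++ [y]) ++ [z] := by simp
        rw [h, List.getLast?_append] at hv
        simpa using hv.symm

theorem psum_append (A B : List (List ℕ)) : psum (A ++ B) = psum A + psum B := by
  unfold psum
  rw [List.map_append, List.sum_append]

theorem csum_append (A B : List (List ℕ)) : csum (A ++ B) = csum A + csum B := by
  unfold csum
  rw [List.map_append, List.sum_append]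

theorem psum_cons (p : List ℕ) (B : List (List ℕ)) : psum (p :: B) = pm p + psum B := by
  unfold psum
  rw [List.map_cons, List.sum_cons]

theorem mem_psum {e : Sym2 ℕ} {Ps : List (List ℕ)} (h : e ∈ psum Ps) : ∃ p ∈ Ps, e ∈ pm p := by
  induction Ps with
  | nil => exact absurd h (Multiset.notMem_zero _)
  | cons p q ih =>
    rw [psum_cons, Multiset.mem_add] at h
    rcases h with h | h
    · exact ⟨p, List.mem_cons_self, h⟩
    · obtain ⟨p', hp', h'⟩ := ih h
      exact ⟨p', List.mem_cons_of_mem _ hp', h'⟩

theorem mem_csum {e : Sym2 ℕ} {Cs : List (List ℕ)} (h : e ∈ csum Cs) : ∃ p ∈ Cs, e ∈ cm p := by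
  induction Cs with
  | nil => exact absurd h (Multiset.notMem_zero _)
  | cons p q ih =>
    have h0 : csum (p :: q) = cm p + csum q := by
      unfold csum
      rw [List.map_cons, List.sum_cons]
    rw [h0, Multiset.mem_add] at h
    rcases h with h | h
    · exact ⟨p, List.mem_cons_self, h⟩
    · obtain ⟨p', hp', h'⟩ := ih h
      exact ⟨p', List.mem_cons_of_mem _ hp', h'⟩

theorem cm_le {c : List ℕ} {Cs : List (List ℕ)} (h : c ∈ Cs) : cm c ≤ csum Cs := by
  induction Cs with
  | nil => exact absurd h List.not_mem_nil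
  | cons p q ih =>
    have h0 : csum (p :: q) = cm p + csum q := by
      unfold csum
      rw [List.map_cons, List.sum_cons]
    rw [h0]
    rcases List.mem_cons.1 h with h | h
    · rw [h]
      exact Multiset.le_add_right _ _
    · exact (ih h).trans (Multiset.le_add_left _ _)

theorem pm_le {c : List ℕ} {Ps : List (List ℕ)} (h : c ∈ Ps) : pm c ≤ psum Ps := by
  induction Ps with
  | nil => exact absurd h List.not_mem_nil
  | cons p q ih =>
    rw [psum_cons]
    rcases List.mem_cons.1 h with h | h
    · rw [h]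
      exact Multiset.le_add_right _ _
    · exact (ih h).trans (Multiset.le_add_left _ _)

theorem mem_supp {E : Finset (Sym2 ℕ)} {v : ℕ} : v ∈ supp E ↔ ∃ e ∈ E, v ∈ e := by
  unfold supp
  simp [Finset.mem_biUnion]

theorem even_supp (E : Finset (Sym2 ℕ)) (hE : NoLoop E) (hodd : ∀ v ∈ supp E, Odd (deg E v)) :
    Even (supp E).card := by
  have h1 : ∑ v ∈ supp E, deg E v = ∑ e ∈ E, ((supp E).filter (fun v => v ∈ e)).card :=
    Finset.sum_card_bipartiteAbove_eq_sum_card_bipartiteBelow (fun (v : ℕ) (e : Sym2 ℕ) => v ∈ e)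
  have h2 : ∀ e ∈ E, ((supp E).filter (fun v => v ∈ e)).card = 2 := by
    intro e he
    have h3 : (supp E).filter (fun v => v ∈ e) = e.toFinset := by
      ext v
      rw [Finset.mem_filter, Sym2.mem_toFinset, mem_supp]
      exact ⟨fun h => h.2, fun h => ⟨⟨e, he, h⟩, h⟩⟩
    rw [h3, Sym2.card_toFinset_of_not_isDiag e (hE e he)]
  rw [Finset.sum_congr rfl h2, Finset.sum_const, smul_eq_mul] at h1
  have h4 : Even (∑ v ∈ supp E, deg E v) := by
    rw [h1]
    exact Even.mul_left even_two _
  have h5 := (Finset.odd_sum_iff_odd_card_odd (s := supp E) (deg E)).not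
  rw [Nat.not_odd_iff_even, Nat.not_odd_iff_even] at h5
  have h6 := h5.1 h4
  rw [Finset.filter_true_of_mem hodd] at h6
  exact h6

end S2x

open S2x

theorem S2_holds : PAR → CHN → S2 := by
  intro hPAR hCHN E x y z hE hodd hxy _ hz hB
  obtain ⟨Ps, Cs, ⟨hP, hC, hsum⟩, hlen⟩ := hB
  have hxs : x ∈ supp E := mem_supp.2 ⟨_, hxy, Sym2.mem_mk_left _ _⟩
  have hys : y ∈ supp E := mem_supp.2 ⟨_, hxy, Sym2.mem_mk_right _ _⟩
  have hzx : z ≠ x := fun h => hz (h ▸ hxs)
  have hzy : z ≠ y := fun h => hz (h ▸ hys)
  have hxyn : x ≠ y := by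
    intro h
    exact hE _ hxy (by rw [h]; exact Sym2.mk_isDiag_iff.2 rfl)
  have hzE : ∀ e ∈ E, z ∉ e := fun e he hze => hz (mem_supp.2 ⟨e, he, hze⟩)
  set E2 := insert s(z, y) (E.erase s(x, y)) with hE2
  have hnot : s(z, y) ∉ E.erase s(x, y) := by
    intro h
    exact hzE _ (Finset.mem_of_mem_erase h) (Sym2.mem_mk_left _ _)
  have hval : E2.val = s(z, y) ::ₘ (E.erase s(x, y)).val := by
    rw [hE2, Finset.insert_val_of_notMem hnot]
  have hNL : NoLoop E2 := by
    intro e he
    rw [hE2, Finset.mem_insert] at he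
    rcases he with rfl | he
    · rw [Sym2.mk_isDiag_iff]
      exact hzy
    · exact hE e (Finset.mem_of_mem_erase he)
  have hzonly : ∀ e ∈ E2, z ∈ e → e = s(z, y) := by
    intro e he hze
    rw [hE2, Finset.mem_insert] at he
    rcases he with he | he
    · exact he
    · exact absurd hze (hzE e (Finset.mem_of_mem_erase he))
  have hmemE2 : ∀ e, e ∈ psum Ps + csum Cs → e ∈ E2 := by
    intro e he
    rw [hsum] at he
    exact he
  have hnd : (psum Ps + csum Cs).Nodup := by
    rw [hsum]
    exact E2.nodup
  -- the new edge is not in a cycle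
  have hnc : s(z, y) ∉ csum Cs := by
    intro h
    obtain ⟨c, hc, hmem⟩ := mem_csum h
    have hle : cm c ≤ psum Ps + csum Cs := (cm_le hc).trans (Multiset.le_add_left _ _)
    have hndc : (cm c).Nodup := Multiset.nodup_of_le hle hnd
    let Ec : Finset (Sym2 ℕ) := ⟨cm c, hndc⟩
    have hsub : ∀ e ∈ Ec, e ∈ E2 := fun e he => hmemE2 e (Multiset.mem_of_le hle he)
    have hdec : Dec Ec [] [c] := by
      refine ⟨fun p hp => absurd hp List.not_mem_nil, fun c' hc' => ?_, ?_⟩
      · rw [List.mem_singleton.1 hc']
        exact hC c hc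
      · show psum [] + csum [c] = cm c
        unfold psum csum
        simp
    have hne : ¬ Odd (deg Ec z) := by
      intro ho
      obtain ⟨p, hp, -⟩ := hPAR Ec [] [c] z (fun e he => hNL e (hsub e he)) hdec ho
      exact absurd hp List.not_mem_nil
    have hdeg : deg Ec z = 1 := by
      unfold deg
      rw [Finset.card_eq_one]
      refine ⟨s(z, y), ?_⟩
      ext e
      rw [Finset.mem_filter, Finset.mem_singleton]
      constructor
      · rintro ⟨h1, h2⟩
        exact hzonly e (hsub e h1) h2
      · rintro rfl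
        exact ⟨hmem, Sym2.mem_mk_left _ _⟩
    rw [hdeg] at hne
    exact hne odd_one
  have hin : s(z, y) ∈ psum Ps := by
    have h1 : s(z, y) ∈ psum Ps + csum Cs := by
      rw [hsum, hval]
      exact Multiset.mem_cons_self _ _
    rcases Multiset.mem_add.1 h1 with h | h
    · exact h
    · exact absurd h hnc
  obtain ⟨p, hp, hmem⟩ := mem_psum hin
  have hpE2 : ∀ e ∈ pm p, e ∈ E2 := fun e he =>
    hmemE2 e (Multiset.mem_add.2 (Or.inl (Multiset.mem_of_le (pm_le hp) he)))
  obtain ⟨p1, hp1, hpm, hend, hends⟩ := cut z y p (hP p hp).2 hmem (by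
    intro w hw
    have h1 := hzonly _ (hpE2 _ hw) (Sym2.mem_mk_left _ _)
    exact Sym2.congr_right.1 h1)
  obtain ⟨L1, L2, hL⟩ := List.append_of_mem hp
  set Ps1 := L1 ++ p1 :: L2 with hPs1
  have hpsum : psum Ps = s(z, y) ::ₘ psum Ps1 := by
    rw [hL, hPs1, psum_append, psum_append, psum_cons, psum_cons, hpm]
    simp only [Multiset.cons_add, Multiset.add_cons]
  have hrest : psum Ps1 + csum Cs = (E.erase s(x, y)).val := by
    have h1 := hsum
    rw [hpsum, hval, Multiset.cons_add] at h1
    exact (Multiset.cons_inj_right _).1 h1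
  have hmemE : ∀ e ∈ psum Ps1, e ∈ E.erase s(x, y) := by
    intro e he
    have h1 : e ∈ psum Ps1 + csum Cs := Multiset.mem_add.2 (Or.inl he)
    rw [hrest] at h1
    exact h1
  have hPP : ∀ q ∈ Ps1, IsP q := by
    intro q hq
    rw [hPs1, List.mem_append, List.mem_cons] at hq
    rcases hq with hq | hq | hq
    · exact hP q (by rw [hL]; exact List.mem_append_left _ hq)
    · rw [hq]
      exact hp1
    · exact hP q (by rw [hL]; exact List.mem_append_right _ (List.mem_cons_of_mem _ hq))
  obtain ⟨Ps', Cs', hP', hC', hlen', hsum'⟩ := hCHN Ps1 x {y} hPP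
    (Multiset.nodup_of_le (Multiset.le_add_right _ _) (by rw [hrest]; exact (E.erase s(x, y)).nodup))
    (by rw [Finset.mem_singleton]; exact hxyn)
    (by
      intro w hw h
      rw [Finset.mem_singleton.1 hw] at h
      exact absurd (hmemE _ h) (Finset.notMem_erase _ _))
    (by
      intro v hv
      have hp1mem : p1 ∈ Ps1 := by
        rw [hPs1]
        exact List.mem_append_right _ List.mem_cons_self
      rcases hv with hv | hv
      · rw [Finset.mem_singleton.1 hv]
        exact ⟨p1, hp1mem, hend⟩
      · have h1 := hmemE _ hv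
        have h2 := Finset.mem_of_mem_erase h1
        have h3 := Finset.ne_of_mem_erase h1
        have hvy : v ≠ y := fun h => h3 (by rw [h])
        have hvs : v ∈ supp E := mem_supp.2 ⟨_, h2, Sym2.mem_mk_right _ _⟩
        have hvz : v ≠ z := fun h => hz (h ▸ hvs)
        have hvx : v ≠ x := by
          intro h
          exact hE _ h2 (by rw [h]; exact Sym2.mk_isDiag_iff.2 rfl)
        have hdeg : deg E2 v = deg E v := by
          unfold deg
          congr 1
          ext e
          rw [Finset.mem_filter, Finset.mem_filter, hE2, Finset.mem_insert, Finset.mem_erase]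
          constructor
          · rintro ⟨h4 | h4, h5⟩
            · rw [h4, Sym2.mem_iff] at h5
              rcases h5 with h5 | h5
              · exact absurd h5 hvz
              · exact absurd h5 hvy
            · exact ⟨h4.2, h5⟩
          · rintro ⟨h4, h5⟩
            refine ⟨Or.inr ⟨?_, h4⟩, h5⟩
            intro h6
            rw [h6, Sym2.mem_iff] at h5
            rcases h5 with h5 | h5
            · exact hvx h5
            · exact hvy h5
        obtain ⟨q, hq, hqe⟩ := hPAR E2 Ps Cs v hNL ⟨hP, hC, hsum⟩ (by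
          rw [hdeg]
          exact hodd v hvs)
        rw [hL, List.mem_append, List.mem_cons] at hq
        rcases hq with hq | hq | hq
        · exact ⟨q, by rw [hPs1]; exact List.mem_append_left _ hq, hqe⟩
        · rw [hq] at hqe
          rcases hends v hqe with h7 | h7
          · exact absurd h7 hvz
          · exact ⟨p1, hp1mem, h7⟩
        · exact ⟨q, by rw [hPs1]; exact List.mem_append_right _ (List.mem_cons_of_mem _ hq), hqe⟩)
  refine ⟨Ps', Cs' ++ Cs, ⟨hP', ?_, ?_⟩, ?_⟩
  · intro c hc
    rcases List.mem_append.1 hc with hc | hc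
    · exact hC' c hc
    · exact hC c hc
  · rw [csum_append, ← add_assoc, hsum']
    have h1 : (({y} : Finset ℕ).val.map (fun y => s(x, y))) = {s(x, y)} := rfl
    rw [h1, add_right_comm, hrest, Multiset.add_comm, Multiset.singleton_add,
      ← Finset.insert_val_of_notMem (Finset.notMem_erase _ _), Finset.insert_erase hxy]
  · have h1 : Ps1.length = Ps.length := by
      rw [hL, hPs1]
      simp
    have h2 : (supp E2).card ≤ (supp E).card + 1 := by
      refine (Finset.card_le_card (t := insert z (supp E)) ?_).trans (Finset.card_insert_le _ _)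
      intro v hv
      obtain ⟨e, he, hve⟩ := mem_supp.1 hv
      rw [hE2, Finset.mem_insert] at he
      rw [Finset.mem_insert]
      rcases he with he | he
      · rw [he, Sym2.mem_iff] at hve
        rcases hve with hve | hve
        · exact Or.inl hve
        · right
          rw [hve]
          exact hys
      · exact Or.inr (mem_supp.2 ⟨e, Finset.mem_of_mem_erase he, hve⟩)
    obtain ⟨m, hm⟩ := even_supp E hE hodd
    rw [List.length_append]
    omega

end Pool.Agent.W722.PO
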