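import Pool.Agent.W722.PO.Stm2

set_option autoImplicit false

namespace Pool.Agent.W722.PO

namespace SCALx

theorem csum_split (p : List ℕ → Bool) (Cs : List (List ℕ)) :
    csum Cs = csum (Cs.filter p) + csum (Cs.filter (fun c => !p c)) := by
  induction Cs with
  | nil => simp [csum]
  | cons c Cs ih =>
    have e : csum (c :: Cs) = cm c + csum Cs := by simp [csum]
    rw [e, ih]
    by_cases h : p c = true
    · rw [List.filter_cons_of_pos h, List.filter_cons_of_neg (by simp [h])]
      simp only [csum, List.map_cons, List.sum_cons]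
      rw [add_assoc]
    · rw [List.filter_cons_of_neg h, List.filter_cons_of_pos (by simpa using h)]
      simp only [csum, List.map_cons, List.sum_cons]
      rw [← add_assoc, add_comm (cm c), add_assoc]

theorem par_add (A B : Multiset (Sym2 ℕ)) : par (A + B) = par A + par B := by
  funext e
  simp [par, Multiset.count_add]

theorem psum_append (A B : List (List ℕ)) : psum (A ++ B) = psum A + psum B := by
  simp [psum]

end SCALx

open SCALx in
theorem SCAL_holds : ALL2 → SCAL := by
  intro hall k
  induction k with
  | zero =>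
    intro t Cs hC hN hP hL hb
    have hnil : Cs = [] := by
      apply List.eq_nil_iff_forall_not_mem.2
      intro C hCm
      have h1 := (hC C hCm).1
      have h2 := hL C hCm
      simp only [pow_zero] at h2
      omega
    subst hnil
    exact ⟨[], by simp, by simp, by simp, by simp [csum, psum]⟩
  | succ k ih =>
    intro t Cs hC hN hP hL hb
    obtain ⟨p, hp⟩ : ∃ p : List ℕ → Bool, p = fun C => decide (2 ^ k ≤ C.length) := ⟨_, rfl⟩
    have hsplit := csum_split p Cs
    have hlen : Cs.length = (Cs.filter p).length + (Cs.filter (fun c => !p c)).length :=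
      List.length_eq_length_filter_add p
    have hN1 : (csum (Cs.filter p)).Nodup :=
      Multiset.nodup_of_le (by rw [hsplit]; exact Multiset.le_add_right _ _) hN
    have hN2 : (csum (Cs.filter (fun c => !p c))).Nodup :=
      Multiset.nodup_of_le (by rw [hsplit]; exact Multiset.le_add_left _ _) hN
    have m1 : ∀ C ∈ Cs.filter p, C ∈ Cs ∧ 2 ^ k ≤ C.length := by
      intro C hCm
      have := List.mem_filter.1 hCm
      rw [hp] at this
      exact ⟨this.1, by simpa using this.2⟩
    have m2 : ∀ C ∈ Cs.filter (fun c => !p c), C ∈ Cs ∧ C.length < 2 ^ k := by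
      intro C hCm
      have := List.mem_filter.1 hCm
      rw [hp] at this
      exact ⟨this.1, by simpa using this.2⟩
    have hgood : Good (2 ^ k) (Cs.filter p) := by
      refine ⟨fun C hCm => hC C (m1 C hCm).1, hN1, hP.filter _, ?_⟩
      intro C hCm
      refine ⟨(m1 C hCm).2, ?_⟩
      have := hL C (m1 C hCm).1
      rw [pow_succ] at this
      omega
    have hb1 : 14 ^ t * (Cs.filter p).length < 15 ^ t :=
      lt_of_le_of_lt (Nat.mul_le_mul_left _ (by omega)) hb
    have hb2 : 14 ^ t * (Cs.filter (fun c => !p c)).length < 15 ^ t :=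
      lt_of_le_of_lt (Nat.mul_le_mul_left _ (by omega)) hb
    obtain ⟨P1, a1, a2, a3, a4⟩ := hall t (2 ^ k) _ hgood hb1
    obtain ⟨P2, c1, c2, c3, c4⟩ := ih t _ (fun C hCm => hC C (m2 C hCm).1) hN2 (hP.filter _)
      (fun C hCm => (m2 C hCm).2) hb2
    refine ⟨P1 ++ P2, ?_, ?_, ?_, ?_⟩
    · intro q hq
      rcases List.mem_append.1 hq with h | h
      · exact a1 q h
      · exact c1 q h
    · rw [List.length_append, hlen]
      have : (k + 1) * t = k * t + t := by ring
      omega
    · intro q hq v hv
      rcases List.mem_append.1 hq with h | h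
      · obtain ⟨c, hc, hvc⟩ := a3 q h v hv
        exact ⟨c, (m1 c hc).1, hvc⟩
      · obtain ⟨c, hc, hvc⟩ := c3 q h v hv
        exact ⟨c, (m2 c hc).1, hvc⟩
    · rw [hsplit, par_add, psum_append, par_add, a4, c4]

end Pool.Agent.W722.PO
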