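import Pool.Agent.W722.PO.Stm

set_option autoImplicit false

/-! Path odd-covers, second stage: error term of order log squared. -/

namespace Pool.Agent.W722.PO

/-- property of a pair of cycles: at each common vertex one of the two stays inside the other -/
def Star (C D : List ℕ) : Prop := ∀ x : ℕ, x ∈ C → x ∈ D →
  (∀ a, s(x, a) ∈ cm C → a ∈ D) ∨ (∀ b, s(x, b) ∈ cm D → b ∈ C)

/-- PAIR: a pair without the property is a sum of two paths -/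
def PAIR : Prop := ∀ C D : List ℕ, IsC C → IsC D → ¬ Star C D →
  ∃ P Q : List ℕ, IsP P ∧ IsP Q ∧ (∀ v ∈ P, v ∈ C ∨ v ∈ D) ∧ (∀ v ∈ Q, v ∈ C ∨ v ∈ D) ∧
    cm C + cm D = pm P + pm Q

/-- PAIRS: removing such pairs -/
def PAIRS : Prop := ∀ Cs : List (List ℕ), (∀ C ∈ Cs, IsC C) →
  ∃ Ps Cs' : List (List ℕ), (∀ p ∈ Ps, IsP p) ∧ (∀ c ∈ Cs', c ∈ Cs) ∧
    Ps.length + Cs'.length = Cs.length ∧ csum Cs = psum Ps + csum Cs' ∧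
    (∀ p ∈ Ps, ∀ v ∈ p, ∃ c ∈ Cs, v ∈ c) ∧ Cs'.Pairwise (fun C D => Star C D)

/-- a good family: edge-disjoint cycles, pairwise Star, lengths in [M, 2M) -/
def Good (M : ℕ) (Cs : List (List ℕ)) : Prop :=
  (∀ C ∈ Cs, IsC C) ∧ (csum Cs).Nodup ∧ Cs.Pairwise (fun C D => Star C D) ∧
    (∀ C ∈ Cs, M ≤ C.length ∧ C.length < 2 * M)

/-- DEGR: a vertex lies in at most 2M cycles of a good family -/
def DEGR : Prop := ∀ (M : ℕ) (Cs : List (List ℕ)) (v : ℕ), Good M Cs →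
  (Cs.filter (fun C => v ∈ C)).length ≤ 2 * M

/-- the two ways to be stuck; the head of the buffer is its last vertex -/
def TwoAt (B C : List ℕ) : Prop := ∃ b u w : ℕ, B.getLast? = some b ∧ u ≠ w ∧ u ∈ B ∧ w ∈ B ∧
  s(b, u) ∈ cm C ∧ s(b, w) ∈ cm C
def Cov (B C : List ℕ) : Prop := ∀ u w : ℕ, s(u, w) ∈ cm C → u ∈ B ∨ w ∈ B

/-- ABS2: absorbing a cycle into the buffer path -/
def ABS2 : Prop := ∀ B C : List ℕ, IsP B → IsC C → TwoAt B C ∨ Cov B C ∨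
  ∃ P B' : List ℕ, IsP P ∧ IsP B' ∧ (∀ v ∈ P, v ∈ B ∨ v ∈ C) ∧ (∀ v ∈ B', v ∈ B ∨ v ∈ C) ∧
    B'.length ≤ B.length + 2 ∧ par (cm C) + par (pm B) = par (pm P) + par (pm B')

/-- CNTA: few cycles have TwoAt -/
def CNTA : Prop := ∀ (B : List ℕ) (Cs : List (List ℕ)), IsP B → (∀ C ∈ Cs, IsC C) →
  (csum Cs).Nodup → (∀ C ∈ Cs, TwoAt B C) → 2 * Cs.length ≤ B.length

/-- CNTC: few cycles of a good family are covered -/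
def CNTC : Prop := ∀ (M : ℕ) (B : List ℕ) (Cs : List (List ℕ)), IsP B → Good M Cs →
  (∀ C ∈ Cs, Cov B C) → Cs.length ≤ 4 * B.length

/-- PHASE2 -/
def PHASE2 : Prop := ∀ (M : ℕ) (Cs : List (List ℕ)), Good M Cs → Cs ≠ [] →
  ∃ (Ps Cs' : List (List ℕ)) (s : ℕ), (∀ p ∈ Ps, IsP p) ∧ Cs'.Sublist Cs ∧
    Ps.length = s + 1 ∧ Cs'.length + s = Cs.length ∧
    (∀ p ∈ Ps, ∀ v ∈ p, ∃ c ∈ Cs, v ∈ c) ∧
    par (csum Cs) = par (psum Ps) + par (csum Cs') ∧ Cs.length ≤ 15 * s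

/-- ALL2: one scale -/
def ALL2 : Prop := ∀ (t M : ℕ) (Cs : List (List ℕ)), Good M Cs → 14 ^ t * Cs.length < 15 ^ t →
  ∃ Ps : List (List ℕ), (∀ p ∈ Ps, IsP p) ∧ Ps.length ≤ Cs.length + t ∧
    (∀ p ∈ Ps, ∀ v ∈ p, ∃ c ∈ Cs, v ∈ c) ∧ par (csum Cs) = par (psum Ps)

/-- SCAL: all scales -/
def SCAL : Prop := ∀ (k t : ℕ) (Cs : List (List ℕ)), (∀ C ∈ Cs, IsC C) → (csum Cs).Nodup →
  Cs.Pairwise (fun C D => Star C D) → (∀ C ∈ Cs, C.length < 2 ^ k) →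
  14 ^ t * Cs.length < 15 ^ t →
  ∃ Ps : List (List ℕ), (∀ p ∈ Ps, IsP p) ∧ Ps.length ≤ Cs.length + k * t ∧
    (∀ p ∈ Ps, ∀ v ∈ p, ∃ c ∈ Cs, v ∈ c) ∧ par (csum Cs) = par (psum Ps)

/-- MAIN2 on natural numbers -/
def MAIN2 : Prop := ∀ (E : Finset (Sym2 ℕ)) (n m : ℕ), NoLoop E → (∀ v ∈ supp E, v < n) →
  n < 2 ^ m →
  ∃ Ps : List (List ℕ), (∀ p ∈ Ps, IsP p) ∧ Ps.length ≤ n / 2 + 11 * m ^ 2 ∧
    (∀ p ∈ Ps, ∀ v ∈ p, v < n) ∧ par E.val = par (psum Ps)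

def FINAL2 : Prop := ∀ (n m : ℕ) (G : SimpleGraph (Fin n)), n < 2 ^ m →
  ∃ (k : ℕ) (u v : Fin k → Fin n) (P : ∀ i : Fin k, (⊤ : SimpleGraph (Fin n)).Walk (u i) (v i)),
    k ≤ n / 2 + 11 * m ^ 2 ∧ (∀ i : Fin k, (P i).IsPath) ∧
    ∀ a b : Fin n, a ≠ b →
      (G.Adj a b ↔ Odd ((Finset.univ.filter (fun i : Fin k => s(a, b) ∈ (P i).edges)).card))

end Pool.Agent.W722.PO
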