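import Pool.Agent.W722.PO.Stm

set_option autoImplicit false

namespace Pool.Agent.W722.PO

namespace VSx

theorem pm_short (l : List ℕ) (h : ¬ 2 ≤ l.length) : pm l = 0 := by
  match l with
  | [] => rfl
  | [_] => rfl
  | a :: b :: t => exact absurd (by simp) h

theorem psum_cons (p : List ℕ) (Ps : List (List ℕ)) : psum (p :: Ps) = pm p + psum Ps := by
  simp [psum]

theorem csum_cons (p : List ℕ) (Ps : List (List ℕ)) : csum (p :: Ps) = cm p + csum Ps := by
  simp [csum]

theorem psum_filter (Ps : List (List ℕ)) :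
    psum (Ps.filter (fun p => decide (2 ≤ p.length))) = psum Ps := by
  induction Ps with
  | nil => rfl
  | cons p Ps ih =>
    rw [psum_cons, List.filter_cons]
    by_cases h : 2 ≤ p.length
    · rw [if_pos (by simpa using h), psum_cons, ih]
    · rw [if_neg (by simpa using h), ih, pm_short p h, zero_add]

theorem mem_pm (v : ℕ) : ∀ l : List ℕ, 2 ≤ l.length → v ∈ l → ∃ e ∈ pm l, v ∈ e := by
  intro l
  induction l with
  | nil => intro h; simp at h
  | cons a t ih =>
    intro h hv
    match t, ih, h, hv with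
    | [], _, h, _ => simp at h
    | b :: t, ih, _, hv =>
      rcases List.mem_cons.1 hv with rfl | hv'
      · exact ⟨s(v, b), Multiset.mem_cons_self _ _, Sym2.mem_mk_left _ _⟩
      · match t, ih, hv' with
        | [], _, hv' =>
          rw [List.mem_singleton] at hv'
          subst hv'
          exact ⟨s(a, v), Multiset.mem_cons_self _ _, Sym2.mem_mk_right _ _⟩
        | c :: t, ih, hv' =>
          obtain ⟨e, he, hve⟩ := ih (by simp) hv'
          exact ⟨e, Multiset.mem_cons_of_mem he, hve⟩

theorem mem_cm (v : ℕ) (l : List ℕ) (hv : v ∈ l) : ∃ e ∈ cm l, v ∈ e := by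
  match l, hv with
  | a :: t, hv =>
    refine mem_pm v (a :: (t ++ [a])) ?_ ?_
    · simp
    · rcases List.mem_cons.1 hv with h | h
      · exact List.mem_cons.2 (Or.inl h)
      · exact List.mem_cons.2 (Or.inr (List.mem_append.2 (Or.inl h)))

theorem mem_psum (e : Sym2 ℕ) (p : List ℕ) (he : e ∈ pm p) :
    ∀ Ps : List (List ℕ), p ∈ Ps → e ∈ psum Ps := by
  intro Ps
  induction Ps with
  | nil => intro h; simp at h
  | cons q Ps ih =>
    intro h
    rw [psum_cons, Multiset.mem_add]
    rcases List.mem_cons.1 h with rfl | h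
    · exact Or.inl he
    · exact Or.inr (ih h)

theorem mem_csum (e : Sym2 ℕ) (p : List ℕ) (he : e ∈ cm p) :
    ∀ Ps : List (List ℕ), p ∈ Ps → e ∈ csum Ps := by
  intro Ps
  induction Ps with
  | nil => intro h; simp at h
  | cons q Ps ih =>
    intro h
    rw [csum_cons, Multiset.mem_add]
    rcases List.mem_cons.1 h with rfl | h
    · exact Or.inl he
    · exact Or.inr (ih h)

theorem mem_supp (E : Finset (Sym2 ℕ)) (v : ℕ) (e : Sym2 ℕ) (he : e ∈ E) (hv : v ∈ e) :
    v ∈ supp E := by
  unfold supp
  rw [Finset.mem_biUnion]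
  exact ⟨e, he, Sym2.mem_toFinset.2 hv⟩

theorem par_add (S T : Multiset (Sym2 ℕ)) : par (S + T) = par S + par T := by
  funext e
  simp [par, Multiset.count_add]

theorem psum_append (A B : List (List ℕ)) : psum (A ++ B) = psum A + psum B := by
  simp [psum]

end VSx

open VSx

theorem VS_holds : VS := by
  intro E _ hB
  obtain ⟨Ps, Cs, ⟨hP, hC, hE⟩, hlen⟩ := hB
  have hle : (Ps.filter (fun p => decide (2 ≤ p.length))).length ≤ Ps.length :=
    List.length_filter_le _ _
  refine ⟨Ps.filter (fun p => decide (2 ≤ p.length)), Cs, ⟨?_, hC, ?_⟩, ?_, ?_, ?_⟩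
  · intro p hp
    exact hP p (List.mem_of_mem_filter hp)
  · rw [psum_filter]; exact hE
  · omega
  · intro p hp v hv
    have h2 : 2 ≤ p.length := by
      have := (List.mem_filter.1 hp).2
      simpa using this
    obtain ⟨e, he, hve⟩ := mem_pm v p h2 hv
    refine mem_supp E v e ?_ hve
    have h3 : e ∈ E.val := by
      rw [← hE, Multiset.mem_add]
      exact Or.inl (mem_psum e p he Ps (List.mem_of_mem_filter hp))
    exact h3
  · intro c hc v hv
    obtain ⟨e, he, hve⟩ := mem_cm v c hv
    refine mem_supp E v e ?_ hve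
    have h3 : e ∈ E.val := by
      rw [← hE, Multiset.mem_add]
      exact Or.inr (mem_csum e c he Cs hc)
    exact h3

theorem MAIN_holds : LOV → VS → ALLC → MAIN := by
  intro hL hV hA E n j hNL hs hj
  obtain ⟨Ps, Cs, ⟨hP, hC, hE⟩, hlen, hvP, hvC⟩ := hV E hNL (hL E hNL)
  have hcard : (supp E).card ≤ n := by
    have h1 : supp E ⊆ Finset.range n := by
      intro v hv
      exact Finset.mem_range.2 (hs v hv)
    simpa using Finset.card_le_card h1
  have hnd : (csum Cs).Nodup := by
    refine Multiset.nodup_of_le ?_ E.nodup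
    rw [← hE]
    exact Multiset.le_add_left _ _
  obtain ⟨Ps2, hP2, hlen2, hv2, hpar⟩ := hA j Cs hC hnd (by omega)
  refine ⟨Ps ++ Ps2, ?_, ?_, ?_, ?_⟩
  · intro p hp
    rcases List.mem_append.1 hp with h | h
    · exact hP p h
    · exact hP2 p h
  · rw [List.length_append]
    omega
  · intro p hp v hv
    rcases List.mem_append.1 hp with h | h
    · exact hs v (hvP p h v hv)
    · obtain ⟨c, hc, hvc⟩ := hv2 p h v hv
      exact hs v (hvC c hc v hvc)
  · rw [← hE, par_add, psum_append, par_add, hpar]

end Pool.Agent.W722.PO
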