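import Pool.Agent.W722.PO.Stm

set_option autoImplicit false

/-! Path odd-covers: all cycles (part ALLC). -/

namespace Pool.Agent.W722.PO.ALLCx

open Pool.Agent.W722.PO

theorem psum_append (Ps Qs : List (List ℕ)) : psum (Ps ++ Qs) = psum Ps + psum Qs := by
  simp [psum]

theorem par_add (S T : Multiset (Sym2 ℕ)) : par (S + T) = par S + par T := by
  funext e
  simp [par, Multiset.count_add]

theorem par_zero : par 0 = 0 := by
  funext e
  simp [par]

theorem csum_nil : csum [] = 0 := by simp [csum]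

theorem psum_nil : psum [] = 0 := by simp [psum]

theorem arith (j c c' s : ℕ) (h4 : 4 * c ≤ (j + 1) ^ 2) (h6 : c' + s = c)
    (h10 : 2 * c ≤ 2 * s ^ 2 + 3 * s) : 4 * c' ≤ j ^ 2 := by
  by_contra hcon
  rw [not_le] at hcon
  rcases Nat.even_or_odd' j with ⟨i, hi | hi⟩
  · -- j = 2 i, j + 1 = 2 i + 1
    subst hi
    have h1 : c ≤ i ^ 2 + i := by
      have : 4 * c ≤ 4 * (i ^ 2 + i) + 1 := by
        calc 4 * c ≤ (2 * i + 1) ^ 2 := h4
          _ = 4 * (i ^ 2 + i) + 1 := by ring
      omega
    have h2 : i ^ 2 + 1 ≤ c' := by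
      have : 4 * i ^ 2 < 4 * c' := by
        calc 4 * i ^ 2 = (2 * i) ^ 2 := by ring
          _ < 4 * c' := hcon
      omega
    have h3 : s + 1 ≤ i := by omega
    have h5 : s * s ≤ s * i := Nat.mul_le_mul_left s (by omega)
    have h7 : (s + 1) * (s + 1) ≤ i * i := Nat.mul_le_mul h3 h3
    have h8 : i ^ 2 = i * i := sq i
    have h9 : s ^ 2 = s * s := sq s
    rw [h8] at h1 h2
    rw [h9] at h10
    nlinarith
  · -- j = 2 i + 1, j + 1 = 2 (i + 1)
    subst hi
    have h1 : c ≤ (i + 1) ^ 2 := by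
      have : 4 * c ≤ 4 * (i + 1) ^ 2 := by
        calc 4 * c ≤ (2 * i + 1 + 1) ^ 2 := h4
          _ = 4 * (i + 1) ^ 2 := by ring
      omega
    have h2 : i ^ 2 + i + 1 ≤ c' := by
      have : 4 * (i ^ 2 + i) + 1 < 4 * c' := by
        calc 4 * (i ^ 2 + i) + 1 = (2 * i + 1) ^ 2 := by ring
          _ < 4 * c' := hcon
      omega
    have h3 : s ≤ i := by nlinarith
    have h7 : s * s ≤ i * i := Nat.mul_le_mul h3 h3
    have h8 : i ^ 2 = i * i := sq i
    have h9 : s ^ 2 = s * s := sq s
    rw [h8] at h2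
    rw [h9] at h10
    nlinarith

end Pool.Agent.W722.PO.ALLCx

namespace Pool.Agent.W722.PO

open ALLCx

theorem ALLC_holds : PHASE → ALLC := by
  intro hP j
  induction j with
  | zero =>
    intro Cs hC hn h4
    have h0 : Cs.length = 0 := by
      simp at h4
      rw [h4]
      rfl
    have h1 : Cs = [] := List.length_eq_zero_iff.1 h0
    subst h1
    exact ⟨[], by simp, by simp, by simp, by rw [csum_nil, psum_nil]⟩
  | succ j ih =>
    intro Cs hC hn h4
    by_cases hCs : Cs = []
    · subst hCs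
      exact ⟨[], by simp, by simp, by simp, by rw [csum_nil, psum_nil]⟩
    · obtain ⟨Ps, Cs', s, h1, h2, h3, h5, h6, h7, h8, h9⟩ := hP Cs hC hn hCs
      by_cases hC' : Cs' = []
      · subst hC'
        refine ⟨Ps, h1, ?_, h7, ?_⟩
        · simp at h6
          omega
        · rw [h8, csum_nil, par_zero, add_zero]
      · have h10 := h9.resolve_left hC'
        have key : 4 * Cs'.length ≤ j ^ 2 := arith j Cs.length Cs'.length s h4 h6 h10
        obtain ⟨Qs, q1, q2, q3, q4⟩ := ih Cs' (fun C hC2 => hC C (h2 C hC2)) h3 key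
        refine ⟨Ps ++ Qs, ?_, ?_, ?_, ?_⟩
        · intro p hp
          rcases List.mem_append.1 hp with h | h
          · exact h1 p h
          · exact q1 p h
        · rw [List.length_append]
          omega
        · intro p hp v hv
          rcases List.mem_append.1 hp with h | h
          · exact h7 p h v hv
          · obtain ⟨c, hc, hvc⟩ := q3 p h v hv
            exact ⟨c, h2 c hc, hvc⟩
        · rw [h8, q4, psum_append, par_add]

end Pool.Agent.W722.PO
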