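import Pool.Agent.W722.PO.Stm

set_option autoImplicit false

/-! Part CNT: few cycles are stuck. -/

namespace Pool.Agent.W722.PO

namespace CNTx

lemma pm_noloop : ∀ l : List ℕ, l.IsChain (fun a b => a ≠ b) → ∀ e ∈ pm l, ¬ e.IsDiag
  | [], _, e, he => by simp [pm] at he
  | [_], _, e, he => by simp [pm] at he
  | a :: b :: t, h, e, he => by
    rw [List.isChain_cons_cons] at h
    rw [pm, Multiset.mem_cons] at he
    rcases he with rfl | he
    · rw [Sym2.mk_isDiag_iff]; exact h.1
    · exact pm_noloop (b :: t) h.2 e he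

lemma cm_noloop (C : List ℕ) (hC : IsC C) : ∀ e ∈ cm C, ¬ e.IsDiag := by
  obtain ⟨h3, hn⟩ := hC
  cases C with
  | nil => simp at h3
  | cons a t =>
    rw [cm]
    apply pm_noloop
    have e1 : a :: (t ++ [a]) = (a :: t) ++ [a] := rfl
    rw [e1, List.isChain_append]
    refine ⟨?_, by simp, ?_⟩
    · have h1 : List.Pairwise (fun a b => a ≠ b) (a :: t) := hn
      exact h1.isChain
    · intro x hx y hy
      simp only [List.head?_cons, Option.mem_def, Option.some.injEq] at hy
      subst hy
      have ht : t ≠ [] := by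
        rintro rfl
        simp at h3
      have hx' : x ∈ t.getLast? := by
        rw [List.getLast?_cons_of_ne_nil ht] at hx
        exact hx
      have hxt : x ∈ t := List.mem_of_getLast? hx'
      have h2 := (List.nodup_cons.1 hn).1
      intro hxa
      rw [hxa] at hxt
      exact h2 hxt

/-- good edges -/
def gd (B : List ℕ) (e : Sym2 ℕ) : Prop := ¬ e.IsDiag ∧ ∀ x ∈ e, x ∈ B

open Classical in
lemma two_le (B C : List ℕ) (hC : IsC C) (h : TwoIn B C) :
    2 ≤ Multiset.card ((cm C).filter (gd B)) := by
  obtain ⟨u, v, w, huw, hu, hv, hw, h1, h2⟩ := h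
  have d1 := cm_noloop C hC _ h1
  have d2 := cm_noloop C hC _ h2
  have m1 : s(v, u) ∈ (cm C).filter (gd B) := by
    rw [Multiset.mem_filter]
    refine ⟨h1, d1, fun x hx => ?_⟩
    rw [Sym2.mem_iff] at hx
    rcases hx with rfl | rfl
    · exact hv
    · exact hu
  have m2 : s(v, w) ∈ (cm C).filter (gd B) := by
    rw [Multiset.mem_filter]
    refine ⟨h2, d2, fun x hx => ?_⟩
    rw [Sym2.mem_iff] at hx
    rcases hx with rfl | rfl
    · exact hv
    · exact hw
  have hne : s(v, u) ≠ s(v, w) := by
    intro h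
    rw [Sym2.eq_iff] at h
    rcases h with ⟨_, h⟩ | ⟨h, h'⟩
    · exact huw h
    · exact huw (h'.trans h)
  have hle : ({s(v, u), s(v, w)} : Multiset (Sym2 ℕ)) ≤ (cm C).filter (gd B) := by
    have hnd : ({s(v, u), s(v, w)} : Multiset (Sym2 ℕ)).Nodup := by
      rw [Multiset.insert_eq_cons, Multiset.nodup_cons]
      exact ⟨by rw [Multiset.mem_singleton]; exact hne, Multiset.nodup_singleton _⟩
    rw [Multiset.le_iff_subset hnd]
    intro e he
    rw [Multiset.insert_eq_cons, Multiset.mem_cons, Multiset.mem_singleton] at he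
    rcases he with rfl | rfl
    · exact m1
    · exact m2
  have := Multiset.card_le_card hle
  simpa using this

open Classical in
lemma sum_le (B : List ℕ) : ∀ Cs : List (List ℕ), (∀ C ∈ Cs, IsC C) → (∀ C ∈ Cs, TwoIn B C) →
    2 * Cs.length ≤ Multiset.card ((csum Cs).filter (gd B))
  | [], _, _ => by simp
  | C :: Cs, h1, h2 => by
    have ih := sum_le B Cs (fun D hD => h1 D (List.mem_cons_of_mem _ hD))
      (fun D hD => h2 D (List.mem_cons_of_mem _ hD))
    have h3 := two_le B C (h1 C List.mem_cons_self) (h2 C List.mem_cons_self)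
    have h4 : csum (C :: Cs) = cm C + csum Cs := by
      simp [csum]
    rw [h4, Multiset.filter_add, Multiset.card_add, List.length_cons]
    omega

end CNTx

theorem CNT_holds : CNT := by
  classical
  intro B Cs hB hCs hnd hT
  have h1 := CNTx.sum_le B Cs hCs hT
  have hnd2 : ((csum Cs).filter (CNTx.gd B)).Nodup := Multiset.Nodup.filter _ hnd
  have h2 : Multiset.card ((csum Cs).filter (CNTx.gd B)) =
      ((csum Cs).filter (CNTx.gd B)).toFinset.card :=
    (Multiset.toFinset_card_of_nodup hnd2).symm
  have h3 : ((csum Cs).filter (CNTx.gd B)).toFinset ⊆ B.toFinset.offDiag.image (Sym2.mk.uncurry) := by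
    intro e he
    rw [Multiset.mem_toFinset, Multiset.mem_filter] at he
    obtain ⟨_, hd, hx⟩ := he
    induction e using Sym2.ind with
    | _ x y =>
      rw [Finset.mem_image]
      refine ⟨(x, y), ?_, rfl⟩
      rw [Finset.mem_offDiag]
      refine ⟨?_, ?_, ?_⟩
      · rw [List.mem_toFinset]; exact hx x (Sym2.mem_mk_left x y)
      · rw [List.mem_toFinset]; exact hx y (Sym2.mem_mk_right x y)
      · rw [Sym2.mk_isDiag_iff] at hd; exact hd
  have h4 := Finset.card_le_card h3
  have h5 := Sym2.two_mul_card_image_offDiag B.toFinset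
  have h6 : B.toFinset.card = B.length := List.toFinset_card_of_nodup hB.2
  rw [Finset.offDiag_card, h6] at h5
  have h7 : B.length * B.length - B.length = B.length * (B.length - 1) := by
    rw [Nat.mul_sub, mul_one]
  rw [h7] at h5
  omega

end Pool.Agent.W722.PO
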