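import Pool.Agent.W722.PO.Stm2

set_option autoImplicit false

/-! Part CNTA: few cycles have `TwoAt`. -/

namespace Pool.Agent.W722.PO

namespace CNTAx

theorem sym_inj {b u w : ℕ} (h : s(b, u) = s(b, w)) : u = w := by
  rw [Sym2.eq_iff] at h
  rcases h with ⟨_, h⟩ | ⟨h1, h2⟩
  · exact h
  · rw [h2, h1]

theorem two_le (b u w : ℕ) (T : Finset (Sym2 ℕ)) (M : Multiset (Sym2 ℕ)) (huw : u ≠ w)
    (hu : s(b, u) ∈ M) (hw : s(b, w) ∈ M) (huT : s(b, u) ∈ T) (hwT : s(b, w) ∈ T) :
    2 ≤ (M.filter (fun e => e ∈ T)).card := by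
  have hne : s(b, u) ≠ s(b, w) := fun h => huw (sym_inj h)
  have hsub : ({s(b, u), s(b, w)} : Finset (Sym2 ℕ)) ⊆ (M.filter (fun e => e ∈ T)).toFinset := by
    intro e he
    rw [Multiset.mem_toFinset, Multiset.mem_filter]
    rw [Finset.mem_insert, Finset.mem_singleton] at he
    rcases he with rfl | rfl
    · exact ⟨hu, huT⟩
    · exact ⟨hw, hwT⟩
  calc 2 = ({s(b, u), s(b, w)} : Finset (Sym2 ℕ)).card := (Finset.card_pair hne).symm
    _ ≤ ((M.filter (fun e => e ∈ T)).toFinset).card := Finset.card_le_card hsub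
    _ ≤ (M.filter (fun e => e ∈ T)).card := Multiset.toFinset_card_le _

theorem step (b : ℕ) (T : Finset (Sym2 ℕ)) (Cs : List (List ℕ))
    (h : ∀ C ∈ Cs, ∃ u w : ℕ, u ≠ w ∧ s(b, u) ∈ T ∧ s(b, w) ∈ T ∧ s(b, u) ∈ cm C ∧
      s(b, w) ∈ cm C) :
    2 * Cs.length ≤ ((csum Cs).filter (fun e => e ∈ T)).card := by
  induction Cs with
  | nil => simp
  | cons C Cs ih =>
    have ih' := ih (fun D hD => h D (List.mem_cons_of_mem _ hD))
    obtain ⟨u, w, huw, huT, hwT, hu, hw⟩ := h C List.mem_cons_self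
    have h2 := two_le b u w T (cm C) huw hu hw huT hwT
    have hc : csum (C :: Cs) = cm C + csum Cs := by
      unfold csum
      rw [List.map_cons, List.sum_cons]
    rw [hc, Multiset.filter_add, Multiset.card_add, List.length_cons]
    omega

end CNTAx

open CNTAx in
theorem CNTA_holds : CNTA := by
  intro B Cs hB hC hnd hTwo
  rcases hCs : Cs with _ | ⟨C0, Cs0⟩
  · simp
  rw [← hCs]
  obtain ⟨b, u0, w0, hb, _⟩ := hTwo C0 (by rw [hCs]; exact List.mem_cons_self)
  obtain ⟨T, hT⟩ : ∃ T : Finset (Sym2 ℕ), T = B.toFinset.image (fun u => s(b, u)) := ⟨_, rfl⟩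
  have hmem : ∀ u ∈ B, s(b, u) ∈ T := by
    intro u hu
    rw [hT, Finset.mem_image]
    exact ⟨u, List.mem_toFinset.2 hu, rfl⟩
  have h1 : 2 * Cs.length ≤ ((csum Cs).filter (fun e => e ∈ T)).card := by
    apply step b T Cs
    intro C hCm
    obtain ⟨b', u, w, hb', huw, hu, hw, h1, h2⟩ := hTwo C hCm
    have hbb : b' = b := by
      rw [hb] at hb'
      exact (Option.some.inj hb').symm
    subst hbb
    exact ⟨u, w, huw, hmem u hu, hmem w hw, h1, h2⟩
  have hnd' : ((csum Cs).filter (fun e => e ∈ T)).Nodup := hnd.filter _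
  have h2 : ((csum Cs).filter (fun e => e ∈ T)).card ≤ T.card := by
    rw [← Multiset.toFinset_card_of_nodup hnd']
    apply Finset.card_le_card
    intro e he
    rw [Multiset.mem_toFinset, Multiset.mem_filter] at he
    exact he.2
  have h3 : T.card ≤ B.length := by
    rw [hT]
    exact Finset.card_image_le.trans (List.toFinset_card_le B)
  omega

end Pool.Agent.W722.PO
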