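import Pool.Agent.W722.PO.Stm

set_option autoImplicit false

namespace Pool.Agent.W722.PO

namespace PHASEx

lemma par_add (S T : Multiset (Sym2 ℕ)) : par (S + T) = par S + par T := by
  funext e
  simp [par, Multiset.count_add]

lemma par_zero : par 0 = 0 := by
  funext e
  simp [par]

lemma csum_erase {Cs : List (List ℕ)} {C : List ℕ} (h : C ∈ Cs) :
    csum Cs = cm C + csum (Cs.erase C) := by
  unfold csum
  have h1 := ((List.perm_cons_erase h).map cm).sum_eq
  rw [h1]
  simp

lemma step (habs : ABS) (hcnt : CNT) (Cs : List (List ℕ)) (hCs : ∀ C ∈ Cs, IsC C) (n : ℕ) :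
    ∀ (B : List ℕ) (s : ℕ) (Ps Cs' : List (List ℕ)), Cs'.length = n → IsP B →
      B.length ≤ 2 * s + 1 → (∀ p ∈ Ps, IsP p) → Ps.length = s → (∀ c ∈ Cs', c ∈ Cs) →
      (csum Cs').Nodup → Cs'.length + s = Cs.length →
      (∀ p ∈ Ps, ∀ v ∈ p, ∃ c ∈ Cs, v ∈ c) → (∀ v ∈ B, ∃ c ∈ Cs, v ∈ c) →
      par (csum Cs) = par (psum Ps) + par (csum Cs') + par (pm B) →
      ∃ (Ps Cs' : List (List ℕ)) (s : ℕ), (∀ p ∈ Ps, IsP p) ∧ (∀ c ∈ Cs', c ∈ Cs) ∧
        (csum Cs').Nodup ∧ Ps.length = s + 1 ∧ Cs'.length + s = Cs.length ∧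
        (∀ p ∈ Ps, ∀ v ∈ p, ∃ c ∈ Cs, v ∈ c) ∧
        par (csum Cs) = par (psum Ps) + par (csum Cs') ∧
        (Cs' = [] ∨ 2 * Cs.length ≤ 2 * s ^ 2 + 3 * s) := by
  induction n with
  | zero =>
    intro B s Ps Cs' hn hB hBl hPs hPl hsub hnd hlen hvP hvB hpar
    refine ⟨Ps ++ [B], Cs', s, ?_, hsub, hnd, by simp [hPl], hlen, ?_, ?_,
      Or.inl (List.length_eq_zero_iff.1 hn)⟩
    · intro p hp
      rcases List.mem_append.1 hp with h | h
      · exact hPs p h
      · rw [List.mem_singleton.1 h]; exact hB
    · intro p hp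
      rcases List.mem_append.1 hp with h | h
      · exact hvP p h
      · rw [List.mem_singleton.1 h]; exact hvB
    · have h1 : psum (Ps ++ [B]) = psum Ps + pm B := by simp [psum]
      rw [h1, par_add, hpar]
      abel
  | succ n ih =>
    intro B s Ps Cs' hn hB hBl hPs hPl hsub hnd hlen hvP hvB hpar
    by_cases hall : ∀ C ∈ Cs', TwoIn B C
    · have hc := hcnt B Cs' hB (fun C hC => hCs C (hsub C hC)) hnd hall
      have h2 : B.length * (B.length - 1) ≤ (2 * s + 1) * (2 * s) :=
        Nat.mul_le_mul hBl (by omega)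
      refine ⟨Ps ++ [B], Cs', s, ?_, hsub, hnd, by simp [hPl], hlen, ?_, ?_, Or.inr ?_⟩
      · intro p hp
        rcases List.mem_append.1 hp with h | h
        · exact hPs p h
        · rw [List.mem_singleton.1 h]; exact hB
      · intro p hp
        rcases List.mem_append.1 hp with h | h
        · exact hvP p h
        · rw [List.mem_singleton.1 h]; exact hvB
      · have h1 : psum (Ps ++ [B]) = psum Ps + pm B := by simp [psum]
        rw [h1, par_add, hpar]
        abel
      · have h3 : 4 * Cs'.length ≤ (2 * s + 1) * (2 * s) := hc.trans h2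
        have h4 : (2 * s + 1) * (2 * s) = 4 * s ^ 2 + 2 * s := by ring
        rw [h4] at h3
        omega
    · push Not at hall
      obtain ⟨C, hC, hnot⟩ := hall
      have hCC : IsC C := hCs C (hsub C hC)
      rcases habs B C hB hCC with h | ⟨P, B', hP, hB', hvP', hvB', hl', hpar'⟩
      · exact absurd h hnot
      · have he := csum_erase hC
        have hlen1 : (Cs'.erase C).length = n := by
          rw [List.length_erase_of_mem hC, hn]; rfl
        refine ih B' (s + 1) (P :: Ps) (Cs'.erase C) hlen1 hB' (by omega) ?_ (by simp [hPl])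
          (fun c hc => hsub c (List.mem_of_mem_erase hc)) ?_ (by omega) ?_ ?_ ?_
        · intro p hp
          rcases List.mem_cons.1 hp with h | h
          · rw [h]; exact hP
          · exact hPs p h
        · rw [he] at hnd
          exact (Multiset.nodup_add.1 hnd).2.1
        · intro p hp v hv
          rcases List.mem_cons.1 hp with h | h
          · rw [h] at hv
            rcases hvP' v hv with h2 | h2
            · exact hvB v h2
            · exact ⟨C, hsub C hC, h2⟩
          · exact hvP p h v hv
        · intro v hv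
          rcases hvB' v hv with h2 | h2
          · exact hvB v h2
          · exact ⟨C, hsub C hC, h2⟩
        · have h1 : psum (P :: Ps) = pm P + psum Ps := by simp [psum]
          rw [h1, par_add, hpar, he, par_add]
          calc par (psum Ps) + (par (cm C) + par (csum (Cs'.erase C))) + par (pm B)
              = par (psum Ps) + par (csum (Cs'.erase C)) + (par (cm C) + par (pm B)) := by abel
            _ = par (psum Ps) + par (csum (Cs'.erase C)) + (par (pm P) + par (pm B')) := by
                rw [hpar']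
            _ = par (pm P) + par (psum Ps) + par (csum (Cs'.erase C)) + par (pm B') := by abel

end PHASEx

open PHASEx in
theorem PHASE_holds : ABS → CNT → PHASE := by
  intro habs hcnt Cs hCs hnd hne
  obtain ⟨c, t, rfl⟩ := List.exists_cons_of_ne_nil hne
  have hc : IsC c := hCs c (by simp)
  have hcne : c ≠ [] := by
    intro h
    have := hc.1
    rw [h] at this
    simp at this
  obtain ⟨b0, u, rfl⟩ := List.exists_cons_of_ne_nil hcne
  refine step habs hcnt _ hCs _ [b0] 0 [] ((b0 :: u) :: t) rfl ⟨by simp, by simp⟩ (by simp)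
    (by simp) rfl (fun c hc => hc) hnd (by simp) (by simp) ?_ ?_
  · intro v hv
    rw [List.mem_singleton.1 hv]
    exact ⟨b0 :: u, by simp, by simp⟩
  · have h1 : psum [] = 0 := by simp [psum]
    have h2 : pm [b0] = 0 := rfl
    rw [h1, h2, par_zero]
    simp

end Pool.Agent.W722.PO
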