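import Mathlib

set_option autoImplicit false

/-! Path odd-covers: statements of the parts. Vertices are natural numbers, a path is the list of its
vertices, a cycle a :: t is the list of its vertices in order (closed by the edge from the last to a). -/

namespace Pool.Agent.W722.PO

/-- edges of the path with vertex list l -/
def pm : List ℕ → Multiset (Sym2 ℕ)
  | [] => 0
  | [_] => 0
  | a :: b :: t => s(a, b) ::ₘ pm (b :: t)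

/-- edges of the cycle with vertex list a :: t -/
def cm : List ℕ → Multiset (Sym2 ℕ)
  | [] => 0
  | a :: t => pm (a :: (t ++ [a]))

def IsP (l : List ℕ) : Prop := l ≠ [] ∧ l.Nodup
def IsC (l : List ℕ) : Prop := 3 ≤ l.length ∧ l.Nodup

def psum (Ps : List (List ℕ)) : Multiset (Sym2 ℕ) := (Ps.map pm).sum
def csum (Cs : List (List ℕ)) : Multiset (Sym2 ℕ) := (Cs.map cm).sum

def NoLoop (E : Finset (Sym2 ℕ)) : Prop := ∀ e ∈ E, ¬ e.IsDiag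

/-- an edge-disjoint decomposition of E into paths Ps and cycles Cs -/
def Dec (E : Finset (Sym2 ℕ)) (Ps Cs : List (List ℕ)) : Prop :=
  (∀ p ∈ Ps, IsP p) ∧ (∀ c ∈ Cs, IsC c) ∧ psum Ps + csum Cs = E.val

def supp (E : Finset (Sym2 ℕ)) : Finset ℕ := E.biUnion Sym2.toFinset
def deg (E : Finset (Sym2 ℕ)) (v : ℕ) : ℕ := (E.filter (fun e => v ∈ e)).card
def IsEnd (v : ℕ) (p : List ℕ) : Prop := p.head? = some v ∨ p.getLast? = some v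

/-- at most floor(n/2) paths and cycles -/
def Bd (E : Finset (Sym2 ℕ)) : Prop :=
  ∃ Ps Cs : List (List ℕ), Dec E Ps Cs ∧ Ps.length + Cs.length ≤ (supp E).card / 2

def par (S : Multiset (Sym2 ℕ)) : Sym2 ℕ → ZMod 2 := fun e => (S.count e : ZMod 2)

/-- PAR: an odd vertex is an end of a path of the decomposition -/
def PAR : Prop := ∀ (E : Finset (Sym2 ℕ)) (Ps Cs : List (List ℕ)) (v : ℕ), NoLoop E →
  Dec E Ps Cs → Odd (deg E v) → ∃ p ∈ Ps, IsEnd v p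

/-- FLOW: the purely combinatorial chain lemma -/
def FLOW : Prop := ∀ (I : Type) [DecidableEq I] (H F : Finset I) (hd en : I → ℕ) (Y : Finset ℕ),
  Disjoint H F → Set.InjOn hd (H : Set I) → (∀ h ∈ H, hd h ∉ Y) →
  (∀ v ∈ Y ∪ H.image hd, ∃ i ∈ H ∪ F, en i = v) →
  ∃ A B : Finset I, A ⊆ H ∧ B ⊆ F ∧ A.val.map hd + Y.val = A.val.map en + B.val.map en ∧
    Set.InjOn en ((A ∪ B : Finset I) : Set I)

/-- CHN: putting the star edges x y (y in Y) back -/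
def CHN : Prop := ∀ (Ps : List (List ℕ)) (x : ℕ) (Y : Finset ℕ),
  (∀ p ∈ Ps, IsP p) → (psum Ps).Nodup → x ∉ Y → (∀ y ∈ Y, s(x, y) ∉ psum Ps) →
  (∀ v, (v ∈ Y ∨ s(x, v) ∈ psum Ps) → ∃ p ∈ Ps, IsEnd v p) →
  ∃ Ps' Cs' : List (List ℕ), (∀ p ∈ Ps', IsP p) ∧ (∀ c ∈ Cs', IsC c) ∧
    Ps'.length + Cs'.length = Ps.length ∧
    psum Ps' + csum Cs' = psum Ps + Y.val.map (fun y => s(x, y))

/-- the even neighbours of x -/
def evn (E : Finset (Sym2 ℕ)) (x : ℕ) : Finset ℕ :=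
  (supp E).filter (fun y => s(x, y) ∈ E ∧ Even (deg E y))

/-- S1: removing the edges from x to its even neighbours -/
def S1 : Prop := ∀ (E : Finset (Sym2 ℕ)) (x : ℕ), NoLoop E → (evn E x).Nonempty →
  Bd (E \ (evn E x).image (fun y => s(x, y))) → Bd E

/-- S2: all degrees odd, split off a new vertex z -/
def S2 : Prop := ∀ (E : Finset (Sym2 ℕ)) (x y z : ℕ), NoLoop E → (∀ v ∈ supp E, Odd (deg E v)) →
  s(x, y) ∈ E → 3 ≤ deg E x → z ∉ supp E →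
  Bd (insert s(z, y) (E.erase s(x, y))) → Bd E

/-- BASE: a perfect matching -/
def BASE : Prop := ∀ (E : Finset (Sym2 ℕ)), NoLoop E → (∀ v ∈ supp E, deg E v = 1) → Bd E

def mu (E : Finset (Sym2 ℕ)) : ℕ := 2 * E.card - (supp E).card

/-- MEAS1, MEAS2: the induction measure goes down -/
def MEAS1 : Prop := ∀ (E : Finset (Sym2 ℕ)) (x : ℕ), NoLoop E → (evn E x).Nonempty →
  mu (E \ (evn E x).image (fun y => s(x, y))) < mu E
def MEAS2 : Prop := ∀ (E : Finset (Sym2 ℕ)) (x y z : ℕ), NoLoop E → (∀ v ∈ supp E, Odd (deg E v)) →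
  s(x, y) ∈ E → 3 ≤ deg E x → z ∉ supp E →
  NoLoop (insert s(z, y) (E.erase s(x, y))) ∧ mu (insert s(z, y) (E.erase s(x, y))) < mu E

/-- LOV: Lovasz 1968 -/
def LOV : Prop := ∀ E : Finset (Sym2 ℕ), NoLoop E → Bd E

/-- C has two consecutive edges inside B -/
def TwoIn (B C : List ℕ) : Prop := ∃ u v w : ℕ, u ≠ w ∧ u ∈ B ∧ v ∈ B ∧ w ∈ B ∧
  s(v, u) ∈ cm C ∧ s(v, w) ∈ cm C

/-- ABS: absorbing a cycle into the buffer path B -/
def ABS : Prop := ∀ B C : List ℕ, IsP B → IsC C → TwoIn B C ∨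
  ∃ P B' : List ℕ, IsP P ∧ IsP B' ∧ (∀ v ∈ P, v ∈ B ∨ v ∈ C) ∧ (∀ v ∈ B', v ∈ B ∨ v ∈ C) ∧
    B'.length ≤ B.length + 2 ∧ par (cm C) + par (pm B) = par (pm P) + par (pm B')

/-- CNT: few cycles are stuck -/
def CNT : Prop := ∀ (B : List ℕ) (Cs : List (List ℕ)), IsP B → (∀ C ∈ Cs, IsC C) →
  (csum Cs).Nodup → (∀ C ∈ Cs, TwoIn B C) → 4 * Cs.length ≤ B.length * (B.length - 1)

/-- PHASE: one buffer path absorbs many cycles -/
def PHASE : Prop := ∀ Cs : List (List ℕ), (∀ C ∈ Cs, IsC C) → (csum Cs).Nodup → Cs ≠ [] →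
  ∃ (Ps Cs' : List (List ℕ)) (s : ℕ), (∀ p ∈ Ps, IsP p) ∧ (∀ c ∈ Cs', c ∈ Cs) ∧
    (csum Cs').Nodup ∧ Ps.length = s + 1 ∧ Cs'.length + s = Cs.length ∧
    (∀ p ∈ Ps, ∀ v ∈ p, ∃ c ∈ Cs, v ∈ c) ∧
    par (csum Cs) = par (psum Ps) + par (csum Cs') ∧
    (Cs' = [] ∨ 2 * Cs.length ≤ 2 * s ^ 2 + 3 * s)

/-- ALLC: all cycles -/
def ALLC : Prop := ∀ (j : ℕ) (Cs : List (List ℕ)), (∀ C ∈ Cs, IsC C) → (csum Cs).Nodup →
  4 * Cs.length ≤ j ^ 2 →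
  ∃ Ps : List (List ℕ), (∀ p ∈ Ps, IsP p) ∧ Ps.length ≤ Cs.length + j ∧
    (∀ p ∈ Ps, ∀ v ∈ p, ∃ c ∈ Cs, v ∈ c) ∧ par (csum Cs) = par (psum Ps)

/-- VS: cleaning up, all vertices lie in the support -/
def VS : Prop := ∀ (E : Finset (Sym2 ℕ)), NoLoop E → Bd E →
  ∃ Ps Cs : List (List ℕ), Dec E Ps Cs ∧ Ps.length + Cs.length ≤ (supp E).card / 2 ∧
    (∀ p ∈ Ps, ∀ v ∈ p, v ∈ supp E) ∧ (∀ c ∈ Cs, ∀ v ∈ c, v ∈ supp E)

/-- MAIN on natural numbers -/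
def MAIN : Prop := ∀ (E : Finset (Sym2 ℕ)) (n j : ℕ), NoLoop E → (∀ v ∈ supp E, v < n) →
  2 * n ≤ j ^ 2 →
  ∃ Ps : List (List ℕ), (∀ p ∈ Ps, IsP p) ∧ Ps.length ≤ n / 2 + j ∧
    (∀ p ∈ Ps, ∀ v ∈ p, v < n) ∧ par E.val = par (psum Ps)

/-- CONV: from lists to walks -/
def CONV : Prop := ∀ (n : ℕ) (G : SimpleGraph (Fin n)) (Ps : List (List ℕ)),
  (∀ p ∈ Ps, IsP p) → (∀ p ∈ Ps, ∀ v ∈ p, v < n) →
  (∀ a b : Fin n, a ≠ b → (G.Adj a b ↔ par (psum Ps) s((a : ℕ), (b : ℕ)) = 1)) →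
  ∃ (u v : Fin Ps.length → Fin n)
    (P : ∀ i : Fin Ps.length, (⊤ : SimpleGraph (Fin n)).Walk (u i) (v i)),
    (∀ i, (P i).IsPath) ∧ ∀ a b : Fin n, a ≠ b →
      (G.Adj a b ↔ Odd ((Finset.univ.filter (fun i => s(a, b) ∈ (P i).edges)).card))

/-- GE: the edge set of a graph on Fin n as a set of pairs of natural numbers -/
def GE : Prop := ∀ (n : ℕ) (G : SimpleGraph (Fin n)), ∃ E : Finset (Sym2 ℕ), NoLoop E ∧
  (∀ v ∈ supp E, v < n) ∧ ∀ a b : Fin n, a ≠ b → (G.Adj a b ↔ par E.val s((a : ℕ), (b : ℕ)) = 1)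

def FINAL : Prop := ∀ (n j : ℕ) (G : SimpleGraph (Fin n)), 2 * n ≤ j ^ 2 →
  ∃ (k : ℕ) (u v : Fin k → Fin n) (P : ∀ i : Fin k, (⊤ : SimpleGraph (Fin n)).Walk (u i) (v i)),
    k ≤ n / 2 + j ∧ (∀ i : Fin k, (P i).IsPath) ∧
    ∀ a b : Fin n, a ≠ b →
      (G.Adj a b ↔ Odd ((Finset.univ.filter (fun i : Fin k => s(a, b) ∈ (P i).edges)).card))

end Pool.Agent.W722.PO
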